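import Mathlib
import Pool.Agent.P.MP_8707bd_ag.Win.TreeM

/-!
Definitions for the exact result (helper file only).
-/

namespace Pool.Agent.P.MP_8707bd_ag.Ex

open MvPolynomial Win All Irr

/-- Polynomials which vanish to order `n` at `p`. -/
noncomputable def van (p : Fin 2 → ℂ) (n : ℕ) : Submodule ℂ (MvPolynomial (Fin 2) ℂ) :=
  (RingHom.ker (eval p) ^ n).restrictScalars ℂ

/-- Polynomials which vanish to order `μ i` at `P i`. -/
noncomputable def vans {ι : Type} (P : ι → Fin 2 → ℂ) (μ : ι → ℕ) :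
    Submodule ℂ (MvPolynomial (Fin 2) ℂ) := ⨅ i, van (P i) (μ i)

/-- The linear system with exponents in `Ω`. -/
noncomputable def sys {ι : Type} (Ω : Set (Fin 2 →₀ ℕ)) (P : ι → Fin 2 → ℂ) (μ : ι → ℕ) :
    Submodule ℂ (MvPolynomial (Fin 2) ℂ) := restrictSupport ℂ Ω ⊓ vans P μ

/-- The rows `j < R`, row `j` having no gaps and length `len j`. -/
def rows (R : ℕ) (len : ℕ → ℕ) : Set (Fin 2 →₀ ℕ) := {s | s 0 < R ∧ s 1 < len (s 0)}

/-- The coefficient of the `j`-th power of the first variable. -/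
noncomputable def rowc (j : ℕ) : MvPolynomial (Fin 2) ℂ →ₗ[ℂ] Polynomial ℂ :=
  (Polynomial.lcoeff (Polynomial ℂ) j).restrictScalars ℂ ∘ₗ (toPP (L := ℂ)).toLinearMap

/-- Polynomials with rows `j < R`, row `j` lying in `B j`. -/
noncomputable def rowSp (R : ℕ) (B : ℕ → Submodule ℂ (Polynomial ℂ)) :
    Submodule ℂ (MvPolynomial (Fin 2) ℂ) := ⨅ j, (if j < R then B j else ⊥).comap (rowc j)

/-- The member with parameter `t` of a family of polynomials. -/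
noncomputable def sp (t : ℂ) :
    MvPolynomial (Fin 2) (Polynomial ℂ) →ₗ[ℂ] MvPolynomial (Fin 2) ℂ :=
  (mapAlgHom (Polynomial.aeval t : Polynomial ℂ →ₐ[ℂ] ℂ)).toLinearMap

/-- The solutions of a family of vanishing conditions. -/
noncomputable def kerS {U ι : Type} [AddCommGroup U] [Module ℂ U]
    (Θ : ι → U →ₗ[ℂ] MvPolynomial (Fin 2) (Polynomial ℂ)) (P : ι → Fin 2 → ℂ) (μ : ι → ℕ)
    (t : ℂ) : Submodule ℂ U := ⨅ i, (van (P i) (μ i)).comap (sp t ∘ₗ Θ i)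

/-- The set described by `R` lies in an interval of length `len` at one end of `[0, W]`. -/
def CovW (W : ℝ) (R : ℝ → Prop) (len : ℝ) : Prop :=
  (∀ y, R y → y ≤ len) ∨ ∀ y, R y → W - len ≤ y

/-- The set described by `R` contains an open interval of length `len` at one end of `[0, W]`. -/
def CovLW (W : ℝ) (R : ℝ → Prop) (len : ℝ) : Prop :=
  len ≤ W ∧ ((∀ y, 0 < y → y < len → R y) ∨ ∀ y, W - len < y → y < W → R y)

/-- A strip whose width differs from the ideal one by at least the fraction `c` of a row. -/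
def StripSharp (W0 c : ℝ) : Prop :=
  ∃ (M0 : ℕ) (η κ : ℝ), 0 < M0 ∧ 0 < η ∧ 0 < κ ∧
    ∀ (δ k s : ℕ) (W : ℝ), M0 ∣ δ → 0 < δ → (δ : ℝ) ≤ η * k → |W - W0| < η →
    (s : ℝ) = 2 * δ * k * W + δ ^ 2 * W ^ 2 →
    ∀ (m R : ℕ) (len : ℕ → ℕ), 1 ≤ η * m →
      (c ≤ W * (m + 1 / 2) - R → W * (m + 1 / 2) - R ≤ 1 →
        (∀ j < R, (len j : ℝ) ≤ (m + 1 / 2) * (δ * k) +
          δ ^ 2 * (W * (m + 1 / 2) - (j + 1 / 2)) + κ * (δ * k)) →
        KE (rows R len) (fun _ : Fin s => m) 0) ∧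
      (c ≤ R - W * (m + 1 / 2) → R - W * (m + 1 / 2) ≤ 1 →
        (∀ j < R, (m + 1 / 2) * (δ * k) +
          δ ^ 2 * (W * (m + 1 / 2) - (j + 1 / 2)) - κ * (δ * k) ≤ (len j : ℝ)) →
        ∃ e, e + s * (m + 1).choose 2 = ∑ j ∈ Finset.range R, len j ∧
          KE (rows R len) (fun _ : Fin s => m) e)

/-- The real data of a design with points of size one and a small loss. -/
def SharpData (W0 c : ℝ) : Prop :=
  ∃ (ι : Type) (_ : Fintype ι) (ty : ι → Ty) (n S P : ℕ) (par lev rl : ℕ → ℕ) (M0 : ℕ)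
    (η κ γ : ℝ), Tree n S P par lev rl ∧ (∀ u, (ty u).v < S) ∧ (∀ u, (ty u).Ord n) ∧
    (∀ u, (ty u).p < (ty u).z → (ty u).z < (ty u).q → Level ty par lev rl (ty u)) ∧
    (∀ u, (ty u).mu = 1) ∧ 0 < M0 ∧ 0 < η ∧ 0 < κ ∧ 0 < γ ∧
    ∀ (δ k s : ℕ) (W : ℝ), M0 ∣ δ → 0 < δ → (δ : ℝ) ≤ η * k → |W - W0| < η →
    (s : ℝ) = 2 * δ * k * W + δ ^ 2 * W ^ 2 →
    ∃ N : ι → ℕ, s = ∑ u, N u ∧
      (∑ u, if (ty u).p < (ty u).z then (N u : ℝ) else 0) / 2 + κ * (δ * k) ≤ c * γ * (δ * k) ∧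
      ∀ τ : ℝ, |τ| < η →
      ∃ X : ℕ → ℝ, X 0 = 0 ∧ (∀ a b, a < b → b ≤ n → X a < X b) ∧ X n = W - τ ∧
        (∀ u, (ty u).Shape n X) ∧
        (∀ k, 0 < k → k < S → ∀ w, 0 < w → w < n → lev k < rl w →
          (∀ u, Below par k (ty u).v → (ty u).z ≠ w) ∨
            0 < below ty par (fun u => N u * kap X (ty u) w) k) ∧
        (0 ≤ τ → ∀ x, 0 ≤ x → x ≤ W - τ →
          δ * k + δ ^ 2 * (W - τ - x) + γ * τ * (δ * k) ≤ ∑ u, N u * prof X (ty u) x) ∧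
        (τ ≤ 0 → ∀ x, 0 ≤ x → x ≤ W - τ → ∑ u, N u * prof X (ty u) x ≤
          δ * k + δ ^ 2 * (W - τ - x) + γ * τ * (δ * k))

/-- The exact result in degrees near the critical one, with slightly lowered multiplicities. -/
def NearMain : Prop :=
  ∃ r0 : ℕ, ∀ r m d : ℕ, r0 ≤ r → r < 76 * (m + 1) →
    |(d : ℝ) + 3 / 2 - √(r : ℝ) * (m + 1 / 2)| ≤ 10 →
    ∀ μ : Fin r → ℕ, (∀ i, μ i ≤ m) → ((∑ i, (m - μ i) : ℕ) : ℝ) ≤ 2 * √(r : ℝ) →
      KE (tri (d + 1)) μ ((d + 2).choose 2 - ∑ i, (μ i + 1).choose 2)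

lemma mem_van {p : Fin 2 → ℂ} {n : ℕ} {F : MvPolynomial (Fin 2) ℂ} :
    F ∈ van p n ↔ F ∈ RingHom.ker (eval p) ^ n := Iff.rfl

lemma mem_vans {ι : Type} {P : ι → Fin 2 → ℂ} {μ : ι → ℕ} {F : MvPolynomial (Fin 2) ℂ} :
    F ∈ vans P μ ↔ ∀ i, F ∈ RingHom.ker (eval (P i)) ^ μ i := by
  rw [vans, Submodule.mem_iInf]
  exact Iff.rfl

lemma mem_sys {ι : Type} {Ω : Set (Fin 2 →₀ ℕ)} {P : ι → Fin 2 → ℂ} {μ : ι → ℕ}
    {F : MvPolynomial (Fin 2) ℂ} : F ∈ sys Ω P μ ↔ (∀ s ∈ F.support, s ∈ Ω) ∧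
      ∀ i, F ∈ RingHom.ker (eval (P i)) ^ μ i := by
  rw [sys, Submodule.mem_inf, mem_vans]
  exact Iff.rfl

lemma mem_rowSp {R : ℕ} {B : ℕ → Submodule ℂ (Polynomial ℂ)} {F : MvPolynomial (Fin 2) ℂ} :
    F ∈ rowSp R B ↔ (∀ j < R, rowc j F ∈ B j) ∧ ∀ j, R ≤ j → rowc j F = 0 := by
  rw [rowSp, Submodule.mem_iInf]
  refine ⟨fun h => ⟨fun j hj => ?_, fun j hj => ?_⟩, fun h j => ?_⟩
  · have := h j
    rwa [if_pos hj] at this
  · have := h j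
    rwa [if_neg (by omega)] at this
  · by_cases hj : j < R
    · rw [if_pos hj]; exact h.1 j hj
    · rw [if_neg hj]; exact h.2 j (by omega)

lemma rowc_coeff (F : MvPolynomial (Fin 2) ℂ) (s : Fin 2 →₀ ℕ) :
    (rowc (s 0) F).coeff (s 1) = F.coeff s := toPP_coeff F s

lemma mem_kerS {U ι : Type} [AddCommGroup U] [Module ℂ U]
    {Θ : ι → U →ₗ[ℂ] MvPolynomial (Fin 2) (Polynomial ℂ)} {P : ι → Fin 2 → ℂ} {μ : ι → ℕ}
    {t : ℂ} {u : U} :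
    u ∈ kerS Θ P μ t ↔ ∀ i, sp t (Θ i u) ∈ RingHom.ker (eval (P i)) ^ μ i := by
  rw [kerS, Submodule.mem_iInf]
  exact Iff.rfl

lemma rows_eq (J : ℕ) (len : ℕ → ℕ) :
    rows (J + 1) len = strip J fun j => Finset.range (len j) := by
  ext s
  simp only [rows, strip, Set.mem_ofPred_eq, Finset.mem_range, Nat.lt_succ_iff]

lemma rows_finite (R : ℕ) (len : ℕ → ℕ) : (rows R len).Finite :=
  (strip_finite R fun j => Finset.range (len j)).subset fun _ hs =>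
    ⟨hs.1.le, Finset.mem_range.2 hs.2⟩

lemma rows_mono {R R' : ℕ} {len len' : ℕ → ℕ} (h : R ≤ R') (h' : ∀ j < R, len j ≤ len' j) :
    rows R len ⊆ rows R' len' := fun _ hs => ⟨hs.1.trans_le h, hs.2.trans_le (h' _ hs.1)⟩

lemma supp_fin {Ω : Set (Fin 2 →₀ ℕ)} (h : Ω.Finite) :
    FiniteDimensional ℂ (restrictSupport ℂ Ω) := by
  have := h.to_subtype
  exact Module.Finite.of_basis (basisRestrictSupport ℂ Ω)

lemma sys_fin {ι : Type} {Ω : Set (Fin 2 →₀ ℕ)} (h : Ω.Finite) (P : ι → Fin 2 → ℂ) (μ : ι → ℕ) :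
    FiniteDimensional ℂ (sys Ω P μ) := by
  have := supp_fin h
  exact Submodule.finiteDimensional_of_le (inf_le_left : sys Ω P μ ≤ restrictSupport ℂ Ω)

end Pool.Agent.P.MP_8707bd_ag.Ex
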