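import Mathlib
import Pool.Agent.P.MP_8707bd_ag.Ex.Defs
import Pool.Agent.P.MP_8707bd_ag.Win.Fill

/-!
Generic configurations (helper file only).
-/

namespace Pool.Agent.P.MP_8707bd_ag.Ex

open MvPolynomial Win All Irr

theorem ke_of_rank {ι : Type} [Fintype ι] {Ω : Set (Fin 2 →₀ ℕ)} (hΩ : Ω.Finite)
    (P : ι → Fin 2 → ℂ) (μ : ι → ℕ) (e : ℕ) (h : Module.finrank ℂ (sys Ω P μ) ≤ e) :
    KE Ω μ e := by
  obtain ⟨Q, hQ⟩ := Fill.fill e (sys Ω P μ) (sys_fin hΩ P μ) h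
  exact ⟨P, Q, fun F h1 h2 h3 => hQ F (mem_sys.2 ⟨h1, h2⟩) h3⟩

theorem gen {ι : Type} [Fintype ι] {Ω : Set (Fin 2 →₀ ℕ)} (hΩ : Ω.Finite) {μ : ι → ℕ} {e : ℕ}
    (h : KE Ω μ e) : ∃ Φ : MvPolynomial (ι × Fin 2) ℂ, Φ ≠ 0 ∧ ∀ P : ι → Fin 2 → ℂ,
      eval (fun x : ι × Fin 2 => P x.1 x.2) Φ ≠ 0 → Module.finrank ℂ (sys Ω P μ) ≤ e := by
  classical
  obtain ⟨P0, Q0, h⟩ := h
  set S := hΩ.toFinset with hS
  set ν : ι ⊕ Fin e → ℕ := Sum.elim μ fun _ => 1 with hν
  have hinj : ∀ c : S → ℂ, (Fill.mat S (Sum.elim P0 Q0) ν).mulVec c = 0 → c = 0 := by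
    intro c hc
    rw [Fill.mat_van] at hc
    have h0 : Fill.form c = 0 := by
      refine h _ (fun s hs => ?_) (fun i => hc (Sum.inl i)) fun a => ?_
      · rw [MvPolynomial.mem_support_iff, Fill.coeff_form] at hs
        by_contra hn
        exact hs (dif_neg fun h1 => hn (hΩ.mem_toFinset.1 h1))
      · simpa [hν] using hc (Sum.inr a)
    funext n
    have h1 := Fill.coeff_form c n.1
    rw [h0, dif_pos n.2] at h1
    simpa using h1.symm
  obtain ⟨g, hg⟩ := Row.exists_minor _ hinj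
  set q : ι ⊕ Fin e → Fin 2 → MvPolynomial (ι × Fin 2) ℂ :=
    Sum.elim (fun i k => X (i, k)) fun a k => C (Q0 a k) with hq
  have key : ∀ P : ι → Fin 2 → ℂ,
      eval (fun x : ι × Fin 2 => P x.1 x.2) ((Fill.mat S q ν).submatrix g id).det =
        ((Fill.mat S (Sum.elim P Q0) ν).submatrix g id).det := by
    intro P
    have e1 : (fun i k => eval (fun x : ι × Fin 2 => P x.1 x.2) (q i k)) = Sum.elim P Q0 := by
      funext i k
      rcases i with i | a <;> simp [hq]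
    rw [RingHom.map_det, ← e1, ← Fill.mat_map]
    rfl
  refine ⟨((Fill.mat S q ν).submatrix g id).det, fun h0 => hg ?_, fun P hP => ?_⟩
  · rw [← key P0, h0, map_zero]
  rw [key] at hP
  let lam : Fin e → MvPolynomial (Fin 2) ℂ →ₗ[ℂ] ℂ := fun a =>
    (aeval (Q0 a) : MvPolynomial (Fin 2) ℂ →ₐ[ℂ] ℂ).toLinearMap
  have hi : Function.Injective ((LinearMap.pi lam).comp (sys Ω P μ).subtype) := by
    rw [injective_iff_map_eq_zero]
    rintro ⟨F, hF⟩ hF0
    obtain ⟨h1, h2⟩ := mem_sys.1 hF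
    have h3 : Fill.form (fun n : S => F.coeff n.1) = F := by
      ext s
      rw [Fill.coeff_form]
      split_ifs with h4
      · rfl
      · by_contra h5
        exact h4 (hΩ.mem_toFinset.2 (h1 s (MvPolynomial.mem_support_iff.2 fun h6 => h5 h6.symm)))
    have h4 := Row.inj_of_minor _ g hP (fun n : S => F.coeff n.1) (by
      rw [Fill.mat_van, h3]
      rintro (i | a)
      · exact h2 i
      · have h5 := congrFun hF0 a
        simpa [hν, lam, coe_aeval_eq_eval] using h5)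
    refine Subtype.ext ?_
    change F = 0
    rw [← h3, h4]
    simp [Fill.form]
  have hrk := LinearMap.finrank_le_finrank_of_injective hi
  rwa [Module.finrank_fintype_fun_eq_card, Fintype.card_fin] at hrk

theorem exists_pt {ι : Type} (Φ : MvPolynomial (ι × Fin 2) ℂ) (h : Φ ≠ 0) :
    ∃ P : ι → Fin 2 → ℂ, eval (fun x : ι × Fin 2 => P x.1 x.2) Φ ≠ 0 := by
  by_contra hc
  push Not at hc
  exact h (MvPolynomial.funext fun x => by simpa using hc fun i k => x (i, k))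

end Pool.Agent.P.MP_8707bd_ag.Ex
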