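import Mathlib
import Pool.Agent.P.MP_8707bd_ag.Ex.Defs

/-!
Semicontinuity of the solution space of a polynomial family of conditions (helper file only).
-/

namespace Pool.Agent.P.MP_8707bd_ag.Ex

open MvPolynomial Win All Irr

namespace Semi

/-- The common zeros at the parameter `t` of a family of polynomial valued functionals. -/
noncomputable def zs {U A : Type} [AddCommGroup U] [Module ℂ U]
    (Φ : A → U →ₗ[ℂ] Polynomial ℂ) (t : ℂ) : Submodule ℂ U :=
  ⨅ a, LinearMap.ker ((Polynomial.aeval t : Polynomial ℂ →ₐ[ℂ] ℂ).toLinearMap ∘ₗ Φ a)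

lemma mem_zs {U A : Type} [AddCommGroup U] [Module ℂ U]
    {Φ : A → U →ₗ[ℂ] Polynomial ℂ} {t : ℂ} {u : U} :
    u ∈ zs Φ t ↔ ∀ a, (Φ a u).eval t = 0 := by
  rw [zs, Submodule.mem_iInf]
  refine forall_congr' fun a => ?_
  rw [LinearMap.mem_ker]
  simp [Polynomial.coe_aeval_eq_eval]

lemma span_zs {U A : Type} [AddCommGroup U] [Module ℂ U]
    {Φ : A → U →ₗ[ℂ] Polynomial ℂ} {t : ℂ} {u : U} (hu : u ∈ zs Φ t)
    {ψ : U →ₗ[ℂ] Polynomial ℂ} (hψ : ψ ∈ Submodule.span ℂ (Set.range Φ)) :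
    (ψ u).eval t = 0 := by
  induction hψ using Submodule.span_induction with
  | mem x hx =>
    obtain ⟨a, rfl⟩ := hx
    exact mem_zs.1 hu a
  | zero => simp
  | add x y _ _ hx hy => simp [hx, hy]
  | smul c x _ hx => simp [hx]

lemma lift {U A : Type} [AddCommGroup U] [Module ℂ U] [FiniteDimensional ℂ U]
    (Φ : A → U →ₗ[ℂ] Polynomial ℂ) (κ : U →ₗ[ℂ] ℂ) (h : zs Φ 0 ≤ LinearMap.ker κ) :
    ∃ ψ ∈ Submodule.span ℂ (Set.range Φ), ∀ u, (ψ u).eval 0 = κ u := by
  have h1 := FiniteDimensional.mem_span_of_iInf_ker_le_ker h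
  clear h
  induction h1 using Submodule.span_induction with
  | mem x hx =>
    obtain ⟨a, rfl⟩ := hx
    exact ⟨Φ a, Submodule.subset_span ⟨a, rfl⟩, fun u => by simp [Polynomial.coe_aeval_eq_eval]⟩
  | zero => exact ⟨0, Submodule.zero_mem _, fun u => by simp⟩
  | add x y _ _ hx hy =>
    obtain ⟨ψ, h1, h2⟩ := hx
    obtain ⟨χ, h3, h4⟩ := hy
    exact ⟨ψ + χ, Submodule.add_mem _ h1 h3, fun u => by simp [h2, h4]⟩
  | smul c x _ hx =>
    obtain ⟨ψ, h1, h2⟩ := hx
    exact ⟨c • ψ, Submodule.smul_mem _ _ h1, fun u => by simp [h2]⟩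

lemma semi_zs {U A : Type} [AddCommGroup U] [Module ℂ U] [FiniteDimensional ℂ U]
    (Φ : A → U →ₗ[ℂ] Polynomial ℂ) :
    ∃ t : ℂ, t ≠ 0 ∧ Module.finrank ℂ (zs Φ t) ≤ Module.finrank ℂ (zs Φ 0) := by
  classical
  obtain ⟨V, hV⟩ := Submodule.exists_isCompl (zs Φ 0)
  let b := Module.finBasis ℂ V
  let π : U →ₗ[ℂ] V := Submodule.projectionOnto V (zs Φ 0) hV.symm
  have hπ0 : ∀ u ∈ zs Φ 0, π u = 0 := fun u hu =>
    Submodule.projectionOnto_apply_of_mem_right hV.symm hu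
  have hπ1 : ∀ v : V, π v = v := fun v => Submodule.projectionOnto_apply_left hV.symm v
  have hex : ∀ j, ∃ ψ ∈ Submodule.span ℂ (Set.range Φ), ∀ u, (ψ u).eval 0 = (b.coord j ∘ₗ π) u :=
    fun j => lift Φ _ fun u hu => by
      rw [LinearMap.mem_ker, LinearMap.comp_apply, hπ0 u hu, map_zero]
  choose ψ hψ hψ0 using hex
  let M : Matrix (Fin (Module.finrank ℂ V)) (Fin (Module.finrank ℂ V)) (Polynomial ℂ) :=
    Matrix.of fun i j => ψ i (b j)
  have hM : ∀ t : ℂ, M.det.eval t = (Matrix.of fun i j => (ψ i (b j)).eval t).det := fun t => by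
    have := (Polynomial.evalRingHom t).map_det M
    exact this
  have h0 : M.det.eval 0 = 1 := by
    rw [hM]
    have : (Matrix.of fun i j => (ψ i (b j)).eval 0) = 1 := by
      ext i j
      rw [Matrix.of_apply, hψ0, LinearMap.comp_apply, hπ1, Matrix.one_apply]
      simp [Finsupp.single_apply, eq_comm]
    rw [this, Matrix.det_one]
  have hne : Polynomial.X * M.det ≠ 0 := by
    refine mul_ne_zero Polynomial.X_ne_zero fun h => ?_
    rw [h] at h0
    simp at h0
  obtain ⟨t, ht⟩ : ∃ t : ℂ, (Polynomial.X * M.det).eval t ≠ 0 := by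
    by_contra h
    push Not at h
    exact hne (Polynomial.funext (by simpa using h))
  rw [Polynomial.eval_mul, Polynomial.eval_X, mul_ne_zero_iff] at ht
  refine ⟨t, ht.1, ?_⟩
  have hd : Disjoint (zs Φ t) V := by
    rw [Submodule.disjoint_def]
    intro u hu huV
    have h1 : (Matrix.of fun i j => (ψ i (b j)).eval t).mulVec (b.repr ⟨u, huV⟩) = 0 := by
      funext i
      have h2 := span_zs hu (hψ i)
      have h3 : u = ∑ j, b.repr ⟨u, huV⟩ j • (b j : U) := by
        have := congrArg (Subtype.val : V → U) (b.sum_repr ⟨u, huV⟩)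
        rw [Submodule.coe_sum] at this
        exact this.symm
      rw [h3, map_sum, Polynomial.eval_finsetSum] at h2
      simp only [map_smul, Polynomial.eval_smul, smul_eq_mul] at h2
      simp only [Matrix.mulVec, dotProduct, Matrix.of_apply, Pi.zero_apply]
      rw [← h2]
      exact Finset.sum_congr rfl fun j _ => mul_comm _ _
    have h4 := Matrix.eq_zero_of_mulVec_eq_zero (by rw [← hM]; exact ht.2) h1
    have h5 : b.repr ⟨u, huV⟩ = 0 := Finsupp.ext fun j => congrFun h4 j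
    have h6 := b.repr.map_eq_zero_iff.1 h5
    exact congrArg Subtype.val h6
  have e1 := Submodule.finrank_add_finrank_le_of_disjoint hd
  have e2 := Submodule.finrank_add_eq_of_isCompl hV
  omega

lemma sp_tr (t : ℂ) (p : Fin 2 → ℂ) (F : MvPolynomial (Fin 2) (Polynomial ℂ)) :
    tr p (sp t F) = map (Polynomial.evalRingHom t) (tr (fun k => Polynomial.C (p k)) F) := by
  have : (tr p : MvPolynomial (Fin 2) ℂ →+* MvPolynomial (Fin 2) ℂ).comp
      (map (Polynomial.evalRingHom t)) = (map (Polynomial.evalRingHom t)).comp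
        (tr (fun k => Polynomial.C (p k)) :
          MvPolynomial (Fin 2) (Polynomial ℂ) →+* MvPolynomial (Fin 2) (Polynomial ℂ)) := by
    refine MvPolynomial.ringHom_ext (fun r => ?_) fun k => ?_
    · simp [tr]
    · simp [tr]
  exact congrArg (fun f : MvPolynomial (Fin 2) (Polynomial ℂ) →+* MvPolynomial (Fin 2) ℂ => f F)
    this

end Semi

theorem semi {U ι : Type} [AddCommGroup U] [Module ℂ U] [FiniteDimensional ℂ U] [Fintype ι]
    (Θ : ι → U →ₗ[ℂ] MvPolynomial (Fin 2) (Polynomial ℂ)) (P : ι → Fin 2 → ℂ) (μ : ι → ℕ) :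
    ∃ t : ℂ, t ≠ 0 ∧
      Module.finrank ℂ (kerS Θ P μ t) ≤ Module.finrank ℂ (kerS Θ P μ 0) := by
  let Φ : {x : ι × (Fin 2 →₀ ℕ) // x.2.degree < μ x.1} → U →ₗ[ℂ] Polynomial ℂ := fun x =>
    ((lcoeff (Polynomial ℂ) x.1.2).restrictScalars ℂ ∘ₗ
      (tr (fun k => Polynomial.C (P x.1.1 k))).toLinearMap.restrictScalars ℂ) ∘ₗ Θ x.1.1
  have h : ∀ t, kerS Θ P μ t = Semi.zs Φ t := fun t => by
    ext u
    rw [mem_kerS, Semi.mem_zs]
    simp only [van_iff, Semi.sp_tr, coeff_map]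
    exact ⟨fun h x => h x.1.1 x.1.2 x.2, fun h i s hs => h ⟨(i, s), hs⟩⟩
  obtain ⟨t, h1, h2⟩ := Semi.semi_zs Φ
  exact ⟨t, h1, by rw [h t, h 0]; exact h2⟩

end Pool.Agent.P.MP_8707bd_ag.Ex
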