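import Mathlib
import Pool.Agent.P.MP_8707bd_ag.Ex.Defs

/-!
Changing the exponent set and the multiplicities (helper file only).
-/

namespace Pool.Agent.P.MP_8707bd_ag.Ex

open MvPolynomial Win All Irr

namespace Lower

/-- The exponents of degree less than `n`, as a finite set. -/
noncomputable def triF (n : ℕ) : Finset (Fin 2 →₀ ℕ) := (tri_finite n).toFinset

lemma mem_triF {n : ℕ} {s : Fin 2 →₀ ℕ} : s ∈ triF n ↔ s 0 + s 1 < n := by
  rw [triF, Set.Finite.mem_toFinset]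
  exact Iff.rfl

lemma degree_two (s : Fin 2 →₀ ℕ) : s.degree = s 0 + s 1 := by
  rw [Finsupp.degree_eq_sum, Fin.sum_univ_two]

lemma sum_succ (n : ℕ) : ∑ k ∈ Finset.range n, (k + 1) = (n + 1).choose 2 := by
  induction n with
  | zero => simp
  | succ n ih =>
    rw [Finset.sum_range_succ, ih, Nat.choose_succ_succ' (n + 1) 1, Nat.choose_one_right, add_comm]

lemma card_triF (n : ℕ) : (triF n).card = (n + 1).choose 2 := by
  have h : (triF n).card = ((Finset.range n).sigma fun k => Finset.range (k + 1)).card := by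
    refine Finset.card_bij (fun s _ => ⟨s 0 + s 1, s 0⟩) ?_ ?_ ?_
    · intro s hs
      rw [mem_triF] at hs
      exact Finset.mem_sigma.2 ⟨Finset.mem_range.2 hs, Finset.mem_range.2 (by simp only; omega)⟩
    · intro s _ t _ h
      have h1 : s 0 + s 1 = t 0 + t 1 := congrArg Sigma.fst h
      have h2 : s 0 = t 0 := congrArg (fun x : Σ _ : ℕ, ℕ => x.2) h
      ext i
      fin_cases i
      · exact h2
      · change s 1 = t 1
        omega
    · rintro ⟨k, a⟩ h
      obtain ⟨h1, h2⟩ := Finset.mem_sigma.1 h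
      rw [Finset.mem_range] at h1 h2
      simp only at h1 h2
      refine ⟨Finsupp.equivFunOnFinite.symm ![a, k - a], ?_, ?_⟩
      · rw [mem_triF]
        simp only [Finsupp.equivFunOnFinite_symm_apply_apply, Matrix.cons_val_zero,
          Matrix.cons_val_one]
        omega
      · simp only [Finsupp.equivFunOnFinite_symm_apply_apply, Matrix.cons_val_zero,
          Matrix.cons_val_one]
        rw [show a + (k - a) = k by omega]
  rw [h, Finset.card_sigma]
  simp only [Finset.card_range]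
  exact sum_succ n

lemma card_shell {n n' : ℕ} (h : n ≤ n') :
    (triF n' \ triF n).card = (n' + 1).choose 2 - (n + 1).choose 2 := by
  rw [Finset.card_sdiff_of_subset fun s hs => mem_triF.2 ((mem_triF.1 hs).trans_le h),
    card_triF, card_triF]

lemma lin_ne (c : ℂ) : (X 1 - C c : MvPolynomial (Fin 2) ℂ) ≠ 0 := by
  intro h
  have := congrArg (eval fun _ : Fin 2 => c + 1) h
  simp at this

lemma degreeOf_lin_zero (c : ℂ) : degreeOf 0 (X 1 - C c : MvPolynomial (Fin 2) ℂ) = 0 := by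
  have h := degreeOf_sub_le (0 : Fin 2) (X 1 : MvPolynomial (Fin 2) ℂ) (C c)
  rw [degreeOf_C, degreeOf_X, if_neg (by decide)] at h
  omega

lemma degreeOf_lin_one (c : ℂ) : degreeOf 1 (X 1 - C c : MvPolynomial (Fin 2) ℂ) ≤ 1 := by
  have h := degreeOf_sub_le (1 : Fin 2) (X 1 : MvPolynomial (Fin 2) ℂ) (C c)
  rw [degreeOf_C, degreeOf_X, if_pos rfl] at h
  omega

lemma supp_tri {F : MvPolynomial (Fin 2) ℂ} {n : ℕ} :
    (∀ s ∈ F.support, s ∈ tri (n + 1)) ↔ F.totalDegree ≤ n := by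
  rw [totalDegree, Finset.sup_le_iff]
  refine forall₂_congr fun s _ => ?_
  have h : (s.sum fun _ e => e) = s 0 + s 1 := by
    rw [← degree_two]; rfl
  rw [h]
  exact Nat.lt_succ_iff

end Lower

open Lower

theorem ke_sub {ι : Type} [Fintype ι] {Ω Ω' : Set (Fin 2 →₀ ℕ)} (hΩ : Ω'.Finite) {μ : ι → ℕ}
    {e : ℕ} (h : KE Ω μ e) (T : Finset (Fin 2 →₀ ℕ)) (hT : ∀ s ∈ Ω', s ∈ Ω ∨ s ∈ T) :
    KE Ω' μ (e + T.card) := by
  obtain ⟨P, Q, h⟩ := h
  have key := ke_of_fun (K := ℂ) (κ := Fin e ⊕ T) Ω' hΩ P μ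
    (Sum.elim (fun a => (aeval (Q a) : MvPolynomial (Fin 2) ℂ →ₐ[ℂ] ℂ).toLinearMap)
      fun s => lcoeff ℂ s.1) (by
      intro F h1 h2 h3
      refine h F (fun s hs => (hT s (h1 s hs)).resolve_right fun hs' => ?_) h2 fun a => ?_
      · exact mem_support_iff.1 hs (h3 (Sum.inr ⟨s, hs'⟩))
      · simpa [coe_aeval_eq_eval] using h3 (Sum.inl a))
  simpa using key

theorem ke_tri_up {ι : Type} [Fintype ι] {μ : ι → ℕ} {e n n' : ℕ} (h : KE (tri n) μ e)
    (hn : n ≤ n') : KE (tri n') μ (e + ((n' + 1).choose 2 - (n + 1).choose 2)) := by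
  rw [← card_shell hn]
  refine ke_sub (tri_finite n') h _ fun s hs => ?_
  by_cases h1 : s ∈ tri n
  · exact Or.inl h1
  · exact Or.inr (Finset.mem_sdiff.2 ⟨mem_triF.2 hs, fun h2 => h1 (mem_triF.1 h2)⟩)

theorem ke_lower_up {ι : Type} [Fintype ι] {Ω : Set (Fin 2 →₀ ℕ)} (hΩ : Ω.Finite) {μ μ' : ι → ℕ}
    {e : ℕ} (h : KE Ω μ e) (hμ : ∀ i, μ' i ≤ μ i) :
    KE Ω μ' (e + ∑ i, ((μ i + 1).choose 2 - (μ' i + 1).choose 2)) := by
  obtain ⟨P, Q, h⟩ := h
  have key := ke_of_fun (K := ℂ)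
    (κ := Fin e ⊕ Σ i : ι, (triF (μ i) \ triF (μ' i) : Finset (Fin 2 →₀ ℕ))) Ω hΩ P μ'
    (Sum.elim (fun a => (aeval (Q a) : MvPolynomial (Fin 2) ℂ →ₐ[ℂ] ℂ).toLinearMap)
      fun x => lcoeff ℂ x.2.1 ∘ₗ (tr (P x.1)).toLinearMap) (by
      intro F h1 h2 h3
      refine h F h1 (fun i => ?_) fun a => ?_
      · rw [van_iff]
        intro s hs
        by_cases hs' : s.degree < μ' i
        · exact (van_iff _ _ _).1 (h2 i) s hs'
        · rw [degree_two] at hs hs'
          exact h3 (Sum.inr ⟨i, s, Finset.mem_sdiff.2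
            ⟨mem_triF.2 hs, fun h4 => hs' (mem_triF.1 h4)⟩⟩)
      · simpa [coe_aeval_eq_eval] using h3 (Sum.inl a))
  rw [Fintype.card_sum, Fintype.card_fin, Fintype.card_sigma] at key
  simp only [Fintype.card_coe] at key
  rw [Finset.sum_congr rfl fun i _ => card_shell (hμ i)] at key
  exact key

theorem ke_lower_low {ι : Type} [Fintype ι] {R : ℕ} {len : ℕ → ℕ} {μ μ' : ι → ℕ} {e : ℕ}
    (h : KE (rows R fun j => len j + ∑ i, (μ i - μ' i)) μ e) : KE (rows R len) μ' e := by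
  classical
  obtain ⟨P, Q, h⟩ := h
  refine ⟨P, Q, fun F h1 h2 h3 => ?_⟩
  set G : MvPolynomial (Fin 2) ℂ := ∏ i, (X 1 - C (P i 1)) ^ (μ i - μ' i) with hG
  have hG0 : G ≠ 0 := Finset.prod_ne_zero_iff.2 fun i _ => pow_ne_zero _ (lin_ne _)
  have hd0 : degreeOf 0 G = 0 := by
    refine Nat.le_zero.1 ((degreeOf_prod_le _ _ _).trans (Finset.sum_eq_zero fun i _ => ?_).le)
    refine Nat.le_zero.1 ((degreeOf_pow_le _ _ _).trans ?_)
    rw [degreeOf_lin_zero, mul_zero]
  have hd1 : degreeOf 1 G ≤ ∑ i, (μ i - μ' i) := by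
    refine (degreeOf_prod_le _ _ _).trans (Finset.sum_le_sum fun i _ => ?_)
    refine (degreeOf_pow_le _ _ _).trans ?_
    simpa using Nat.mul_le_mul_left (μ i - μ' i) (degreeOf_lin_one (P i 1))
  have key : F * G = 0 := by
    refine h _ (fun s hs => ?_) (fun i => ?_) fun a => ?_
    · obtain ⟨a, ha, b, hb, rfl⟩ := Finset.mem_add.1 (support_mul F G hs)
      have hb0 : b 0 = 0 := Nat.le_zero.1 (hd0 ▸ monomial_le_degreeOf 0 hb)
      have hb1 : b 1 ≤ ∑ i, (μ i - μ' i) := (monomial_le_degreeOf 1 hb).trans hd1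
      obtain ⟨ha0, ha1⟩ := h1 a ha
      refine ⟨?_, ?_⟩
      · rw [Finsupp.add_apply, hb0, add_zero]
        exact ha0
      · simp only [Finsupp.add_apply, hb0, add_zero]
        omega
    · have h4 : G ∈ RingHom.ker (eval (P i)) ^ (μ i - μ' i) := by
        rw [hG, ← Finset.mul_prod_erase _ _ (Finset.mem_univ i)]
        refine Ideal.mul_mem_right _ _ (Ideal.pow_mem_pow ?_ _)
        simp [RingHom.mem_ker]
      have h5 := Ideal.mul_mem_mul (h2 i) h4
      rw [← pow_add] at h5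
      exact Ideal.pow_le_pow_right (by omega) h5
    · rw [map_mul, h3 a, zero_mul]
  exact (mul_eq_zero.1 key).resolve_right hG0

theorem sym {r : ℕ} (hr : 0 < r) (μ : Fin r → ℕ) (n m : ℕ) (hm : m ≤ ∑ i, μ i)
    (h : KE (tri (r * n + 1)) (fun _ : Fin r => m) 0) : KE (tri (n + 1)) μ 0 := by
  classical
  have : NeZero r := ⟨hr.ne'⟩
  obtain ⟨P, Q, h⟩ := h
  by_contra hc
  have h1 : ∀ c : Fin r, ∃ F : MvPolynomial (Fin 2) ℂ, F.totalDegree ≤ n ∧
      (∀ i, F ∈ RingHom.ker (eval (P (i + c))) ^ μ i) ∧ F ≠ 0 := by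
    intro c
    by_contra h2
    refine hc ⟨fun i => P (i + c), Q, fun F h3 h4 _ => ?_⟩
    by_contra h5
    exact h2 ⟨F, supp_tri.1 h3, h4, h5⟩
  choose F hd hv h0 using h1
  refine Finset.prod_ne_zero_iff.2 (fun c _ => h0 c) (h (∏ c, F c) (supp_tri.2 ?_) (fun j => ?_)
    fun a => a.elim0)
  · refine (totalDegree_finsetProd _ _).trans ?_
    simpa using Finset.sum_le_sum (s := Finset.univ) fun c _ => hd c
  · have h2 : ∏ c, F c ∈ ∏ c : Fin r, RingHom.ker (eval (P j)) ^ μ (j - c) := by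
      refine Ideal.prod_mem_prod fun c _ => ?_
      have := hv c (j - c)
      rwa [sub_add_cancel] at this
    rw [Finset.prod_pow_eq_pow_sum] at h2
    have h3 : ∑ c : Fin r, μ (j - c) = ∑ i, μ i := (Equiv.subLeft j).sum_comp μ
    rw [h3] at h2
    exact Ideal.pow_le_pow_right hm h2

end Pool.Agent.P.MP_8707bd_ag.Ex
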