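import Mathlib
import Pool.Agent.P.MP_8707bd_ag.Ex.Lower

/-!
From degrees near the critical one to all degrees (helper file only).
-/

namespace Pool.Agent.P.MP_8707bd_ag.Ex

open MvPolynomial Win All Irr

lemma ad_choose (a : ℕ) : (((a + 1).choose 2 : ℕ) : ℝ) = (a + 1) * a / 2 := by
  rw [Nat.cast_choose_two]
  push_cast
  ring

lemma ad_succ (a : ℕ) : (a + 1).choose 2 = a.choose 2 + a := by
  rw [Nat.choose_succ_succ' a 1, Nat.choose_one_right, add_comm]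

lemma ad_tri_mono {n n' : ℕ} (h : n ≤ n') : tri n ⊆ tri n' := fun _ hs => lt_of_lt_of_le hs h

lemma ad_sqrt {r m : ℕ} (hr : 10000 ≤ r) (hm : r < 76 * (m + 1)) :
    100 ≤ √(r : ℝ) ∧ √(r : ℝ) * √(r : ℝ) = r ∧ (r : ℝ) ≤ √(r : ℝ) * (m + 1 / 2) ∧ 100 ≤ m := by
  have h0 : (10000 : ℝ) ≤ r := by exact_mod_cast hr
  have h1 : 100 ≤ √(r : ℝ) := Real.le_sqrt_of_sq_le (by linarith)
  have h2 : (r : ℝ) < 76 * (m + 1) := by exact_mod_cast hm
  refine ⟨h1, Real.mul_self_sqrt (by linarith), ?_, by omega⟩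
  have h3 : 100 * ((m : ℝ) + 1 / 2) ≤ √(r : ℝ) * (m + 1 / 2) :=
    mul_le_mul_of_nonneg_right h1 (by positivity)
  linarith

lemma ad_low {r m d : ℕ} {s : ℝ} (hs : s * s = r) (h1 : 100 ≤ s) (h2 : (r : ℝ) ≤ s * (m + 1 / 2))
    (h : (d : ℝ) + 3 / 2 + 1 ≤ s * (m + 1 / 2)) : (d + 2).choose 2 ≤ r * (m + 1).choose 2 := by
  have h3 : ((d : ℝ) + 3 / 2) ^ 2 ≤ (s * (m + 1 / 2) - 1) ^ 2 :=
    pow_le_pow_left₀ (by positivity) (by linarith) 2
  have h4 : (s * (m + 1 / 2) - 1) ^ 2 = r * (m + 1 / 2) ^ 2 - 2 * (s * (m + 1 / 2)) + 1 := by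
    rw [← hs]
    ring
  have h5 : (((d + 1 + 1).choose 2 : ℕ) : ℝ) ≤ r * (((m + 1).choose 2 : ℕ) : ℝ) := by
    rw [ad_choose, ad_choose]
    push_cast
    nlinarith
  exact_mod_cast h5

lemma ad_high {r m d : ℕ} {s : ℝ} (hs : s * s = r) (h1 : 100 ≤ s)
    (h : s * (m + 1 / 2) ≤ (d : ℝ) + 3 / 2) : r * (m + 1).choose 2 ≤ (d + 2).choose 2 := by
  have h3 : (s * (m + 1 / 2)) ^ 2 ≤ ((d : ℝ) + 3 / 2) ^ 2 :=
    pow_le_pow_left₀ (by positivity) h 2
  have h4 : (s * (m + 1 / 2)) ^ 2 = r * (m + 1 / 2) ^ 2 := by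
    rw [← hs]
    ring
  have h5 : r * (((m + 1).choose 2 : ℕ) : ℝ) ≤ (((d + 1 + 1).choose 2 : ℕ) : ℝ) := by
    rw [ad_choose, ad_choose]
    push_cast
    nlinarith
  exact_mod_cast h5

theorem all_deg (H : NearMain) : ∃ r0 : ℕ, ∀ r m d : ℕ, r0 ≤ r → r < 76 * (m + 1) →
    KE (tri (d + 1)) (fun _ : Fin r => m) ((d + 2).choose 2 - r * (m + 1).choose 2) := by
  obtain ⟨r0, H⟩ := H
  refine ⟨max r0 10000, fun r m d hr hm => ?_⟩
  obtain ⟨h1, hs, h2, -⟩ := ad_sqrt (le_of_max_le_right hr) hm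
  have key : ∀ d : ℕ, |(d : ℝ) + 3 / 2 - √(r : ℝ) * (m + 1 / 2)| ≤ 10 →
      KE (tri (d + 1)) (fun _ : Fin r => m) ((d + 2).choose 2 - r * (m + 1).choose 2) :=
    fun d hd => by
      simpa using H r m d (le_of_max_le_left hr) hm hd (fun _ => m) (fun _ => le_rfl) (by simp)
  have h3 : (10000 : ℝ) ≤ √(r : ℝ) * (m + 1 / 2) := by nlinarith
  rcases lt_or_ge ((d : ℝ) + 3 / 2 + 10) (√(r : ℝ) * (m + 1 / 2)) with h | h
  · have h4 := Nat.floor_le (show 0 ≤ √(r : ℝ) * (m + 1 / 2) - 3 by linarith)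
    have h5 := Nat.lt_floor_add_one (√(r : ℝ) * (m + 1 / 2) - 3)
    have h6 : d ≤ ⌊√(r : ℝ) * (m + 1 / 2) - 3⌋₊ := Nat.le_floor (by linarith)
    have h7 := key ⌊√(r : ℝ) * (m + 1 / 2) - 3⌋₊ (abs_le.2 ⟨by linarith, by linarith⟩)
    rw [Nat.sub_eq_zero_of_le (ad_low hs h1 h2 (by linarith))] at h7
    exact (h7.mono (ad_tri_mono (by omega))).more (Nat.zero_le _)
  rcases le_or_gt ((d : ℝ) + 3 / 2) (√(r : ℝ) * (m + 1 / 2) + 10) with h' | h'
  · exact key d (abs_le.2 ⟨by linarith, by linarith⟩)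
  · have h4 := Nat.floor_le (show 0 ≤ √(r : ℝ) * (m + 1 / 2) by linarith)
    have h5 := Nat.lt_floor_add_one (√(r : ℝ) * (m + 1 / 2))
    have h6 : ⌊√(r : ℝ) * (m + 1 / 2)⌋₊ ≤ d := by
      have : (⌊√(r : ℝ) * (m + 1 / 2)⌋₊ : ℝ) ≤ d := by linarith
      exact_mod_cast this
    have h7 := key ⌊√(r : ℝ) * (m + 1 / 2)⌋₊ (abs_le.2 ⟨by linarith, by linarith⟩)
    have h8 := ad_high (d := ⌊√(r : ℝ) * (m + 1 / 2)⌋₊) (m := m) hs h1 (by linarith)
    have h9 := Nat.choose_le_choose 2 (Nat.add_le_add_right h6 2)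
    refine (ke_tri_up h7 (Nat.add_le_add_right h6 1)).more ?_
    simp only [add_assoc, Nat.reduceAdd]
    omega

lemma ad_loss {a m : ℕ} (h : a ≤ m) : (m + 1).choose 2 ≤ (a + 1).choose 2 + m * (m - a) := by
  obtain ⟨k, rfl⟩ := Nat.exists_eq_add_of_le h
  have h1 : (((a + k + 1).choose 2 : ℕ) : ℝ) ≤ (((a + 1).choose 2 : ℕ) : ℝ) + (a + k) * k := by
    rw [ad_choose, ad_choose]
    push_cast
    rcases Nat.eq_zero_or_pos k with rfl | hk
    · simp
    · have : (1 : ℝ) ≤ k := by exact_mod_cast hk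
      nlinarith
  rw [Nat.add_sub_cancel_left]
  exact_mod_cast h1

lemma ad_sum_loss {r m : ℕ} (μ : Fin r → ℕ) (h : ∀ i, μ i ≤ m) :
    r * (m + 1).choose 2 ≤ ∑ i, (μ i + 1).choose 2 + m * ∑ i, (m - μ i) := by
  rw [Finset.mul_sum, ← Finset.sum_add_distrib]
  simpa using Finset.sum_le_sum (s := Finset.univ) fun i _ => ad_loss (h i)

lemma ad_far {r m m' d e : ℕ} {s : ℝ} (hs : s * s = r) (h1 : 100 ≤ s) (hm : 100 ≤ m)
    (hd : (d : ℝ) + 1 / 2 ≤ s * (m + 1 / 2)) (he : 2 * e ≤ d) (he' : s ≤ 3 * e)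
    (hm' : r * m ≤ m' + 6 * e) :
    r < 76 * (m' + 1) ∧ (r * (d - 2 * e) + 2).choose 2 ≤ r * (m' + 1).choose 2 := by
  obtain ⟨c, rfl⟩ := Nat.exists_eq_add_of_le he
  rw [Nat.add_sub_cancel_left]
  have h2 : (r : ℝ) * m ≤ m' + 6 * e := by exact_mod_cast hm'
  have h3 : (100 : ℝ) ≤ m := by exact_mod_cast hm
  have h4 : (0 : ℝ) ≤ c := Nat.cast_nonneg c
  push_cast at hd
  rw [← hs] at h2
  constructor
  · have h5 : (r : ℝ) < 76 * (m' + 1) := by
      have h6 : 100 * (s * m) ≤ s * (s * m) := mul_le_mul_of_nonneg_right h1 (by positivity)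
      have h7 : s * s * 100 ≤ s * s * m := mul_le_mul_of_nonneg_left h3 (by positivity)
      have h8 : s * 100 ≤ s * m := mul_le_mul_of_nonneg_left h3 (by positivity)
      rw [← hs]
      nlinarith
    exact_mod_cast h5
  · have h5 : (r : ℝ) * c + 2 ≤ s * m' := by
      have h6 : s * (s * s * m) ≤ s * (m' + 6 * e) := mul_le_mul_of_nonneg_left h2 (by positivity)
      have h7 : s * s * (2 * e + c + 1 / 2) ≤ s * s * (s * (m + 1 / 2)) :=
        mul_le_mul_of_nonneg_left hd (by positivity)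
      have h8 : s * (s - 3) * s ≤ s * (s - 3) * (3 * e) :=
        mul_le_mul_of_nonneg_left he' (mul_nonneg (by linarith) (by linarith))
      have h9 : 100 * (s * s) ≤ s * (s * s) := mul_le_mul_of_nonneg_right h1 (by positivity)
      have h10 : 100 * s ≤ s * s := mul_le_mul_of_nonneg_right h1 (by positivity)
      rw [← hs]
      nlinarith
    have h6 : ((r : ℝ) * c + 2) ^ 2 ≤ (s * m') ^ 2 := pow_le_pow_left₀ (by positivity) h5 2
    have h7 : (s * m') ^ 2 = r * (m' : ℝ) ^ 2 := by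
      rw [← hs]
      ring
    have h8 : (((r * c + 1 + 1).choose 2 : ℕ) : ℝ) ≤ r * (((m' + 1).choose 2 : ℕ) : ℝ) := by
      rw [ad_choose, ad_choose]
      push_cast
      have h9 : (0 : ℝ) ≤ r * m' := by positivity
      have h10 : (0 : ℝ) ≤ r * c := by positivity
      nlinarith
    exact_mod_cast h8

theorem no_exc (H : NearMain) : ∃ r0 : ℕ, ∀ r m d : ℕ, r0 ≤ r → r < 76 * (m + 1) →
    (d + 1).choose 2 < r * (m + 1).choose 2 → r * (m + 1).choose 2 < (d + 2).choose 2 →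
    ∀ (e : ℕ) (n : Fin r → ℕ), 2 * e ≤ d → ∑ i, n i + 1 = 3 * e →
      KE (tri (d - 2 * e + 1)) (fun i => m - n i - n i) 0 := by
  obtain ⟨r1, H1⟩ := all_deg H
  obtain ⟨r0, H⟩ := H
  refine ⟨max (max r0 r1) 10000, fun r m d hr hm hlo hup e n he hn => ?_⟩
  have hr0 : r0 ≤ r := le_of_max_le_left (le_of_max_le_left hr)
  have hr1 : r1 ≤ r := le_of_max_le_right (le_of_max_le_left hr)
  have hr2 : 10000 ≤ r := le_of_max_le_right hr
  obtain ⟨h1, hs, h2, h3⟩ := ad_sqrt hr2 hm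
  have h4 : √(r : ℝ) * (m + 1 / 2) < (d : ℝ) + 3 / 2 + 1 :=
    lt_of_not_ge fun h => (ad_low hs h1 h2 h).not_gt hup
  have hm0 : (100 : ℝ) ≤ m := by exact_mod_cast h3
  have h5 : 100 * ((m : ℝ) + 1 / 2) ≤ √(r : ℝ) * (m + 1 / 2) :=
    mul_le_mul_of_nonneg_right h1 (by positivity)
  have hd : 4 * m + 4 ≤ d := by
    have : 4 * (m : ℝ) + 4 ≤ d := by linarith
    exact_mod_cast this
  obtain ⟨c, rfl⟩ : ∃ c, d = c + 4 := ⟨d - 4, by omega⟩
  have h6 : ((c + 4 : ℕ) : ℝ) + 1 / 2 < √(r : ℝ) * (m + 1 / 2) :=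
    lt_of_not_ge fun h => (ad_high (d := c + 3) hs h1 (by push_cast at h ⊢; linarith)).not_gt hlo
  have h7 : ∑ i, (m - (m - n i - n i)) ≤ 2 * ∑ i, n i := by
    rw [Finset.mul_sum]
    exact Finset.sum_le_sum fun i _ => by omega
  have h8 := ad_sum_loss (fun i => m - n i - n i) (m := m) fun i => by omega
  rcases lt_or_ge (3 * (e : ℝ)) √(r : ℝ) with h | h
  · have h9 : ((∑ i, (m - (m - n i - n i)) : ℕ) : ℝ) ≤ 2 * √(r : ℝ) := by
      have : ∑ i, (m - (m - n i - n i)) ≤ 6 * e := by omega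
      have : ((∑ i, (m - (m - n i - n i)) : ℕ) : ℝ) ≤ 6 * e := by exact_mod_cast this
      linarith
    have e1 := ad_succ (c + 4)
    have e2 := ad_succ (c + 3)
    have e3 := ad_succ (c + 2)
    simp only [add_assoc, Nat.reduceAdd] at e1 e2 e3 hlo
    push_cast at h4 h6
    by_cases he1 : e = 1
    · have h10 := H r m (c + 2) hr0 hm (abs_le.2 ⟨by push_cast; linarith, by push_cast; linarith⟩)
        (fun i => m - n i - n i) (fun i => by omega) h9
      have h11 : m * ∑ i, (m - (m - n i - n i)) ≤ m * 4 := Nat.mul_le_mul_left _ (by omega)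
      rw [Nat.sub_eq_zero_of_le (by simp only [add_assoc, Nat.reduceAdd]; omega)] at h10
      exact h10.mono (ad_tri_mono (by omega))
    · have h10 := H r m c hr0 hm (abs_le.2 ⟨by linarith, by linarith⟩)
        (fun i => m - n i - n i) (fun i => by omega) h9
      have h11 : m * ∑ i, (m - (m - n i - n i)) ≤ 3 * c + 9 := by
        have h12 := mul_le_mul_of_nonneg_left h9 (Nat.cast_nonneg m : (0 : ℝ) ≤ m)
        have h13 : (0 : ℝ) ≤ √(r : ℝ) * m := by positivity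
        have : (m : ℝ) * ((∑ i, (m - (m - n i - n i)) : ℕ) : ℝ) ≤ 3 * c + 9 := by linarith
        exact_mod_cast this
      rw [Nat.sub_eq_zero_of_le (by omega)] at h10
      exact h10.mono (ad_tri_mono (by omega))
  · have h9 : r * m ≤ ∑ i, (m - n i - n i) + 6 * e := by
      have : ∑ _i : Fin r, m ≤ ∑ i, ((m - n i - n i) + 2 * n i) :=
        Finset.sum_le_sum fun i _ => by omega
      rw [Finset.sum_add_distrib, ← Finset.mul_sum] at this
      simp only [Finset.sum_const, Finset.card_univ, Fintype.card_fin, smul_eq_mul] at this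
      omega
    obtain ⟨h10, h11⟩ := ad_far hs h1 h3 h6.le he h h9
    have h12 := H1 r _ (r * (c + 4 - 2 * e)) hr1 h10
    rw [Nat.sub_eq_zero_of_le h11] at h12
    exact sym (by omega) _ _ _ le_rfl h12

end Pool.Agent.P.MP_8707bd_ag.Ex
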