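import Mathlib
import Pool.Agent.P.MP_8707bd_ag.Ex.Defs

/-!
Definitions for clusters of an odd number of points in a strip (helper file only).
-/

namespace Pool.Agent.P.MP_8707bd_ag.Ex

open MvPolynomial Win All Irr

/-- A cluster of `n` points of multiplicity `m` which acts on the rows `j < R` like the `c`-fold
fibre together with one point of multiplicity `μ`, up to `e` conditions. -/
def Loc (R c μ m n e : ℕ) : Prop :=
  ∃ P : Fin n → Fin 2 → ℂ, Module.finrank ℂ (sys (rows R fun _ => c) P fun _ => m) ≤ e ∧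
    ∀ (F : MvPolynomial (Fin 2) ℂ) (k : ℕ), F ∈ sys (rows R fun _ => k + 1) P (fun _ => m) →
      ∀ s : Fin 2 →₀ ℕ, s 1 = k → s 0 + k < c + μ → F.coeff s = 0

/-- The size of the point which replaces `K ^ 2` points in a strip of width `W`. -/
def szK {F : Type} [Field F] (K : ℕ) (W : F) : F := K - (K - 1) * W

/-- The multiplicity of the fibre which comes with `K ^ 2` points in a strip of width `W`. -/
def fbK {F : Type} [Field F] (K : ℕ) (W : F) : F := (K - 1) * (K - (K - 1) * W / 2)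

/-- The value of the profile at `0`, read from the nodes. -/
def a0R {F : Type} [Field F] (X : ℕ → F) (t : Ty) : F := if t.p = 0 then X t.e2 - X t.q else 0

/-- The profile, read from the nodes. -/
noncomputable def profR (X : ℕ → ℝ) (t : Ty) (x : ℝ) : ℝ :=
  U (a0R X t) (X t.e1) (X t.p) (X t.z) (X t.q) (X t.e2) x

/-- The three admissible shapes for a real size `μ`. -/
def ShapeR (t : Ty) (n : ℕ) (X : ℕ → ℝ) (μ : ℝ) : Prop :=
  (t.p = 0 ∧ t.e1 = 0 ∧ X t.e2 = μ ∧ t.q ≤ t.e2 ∧ t.e2 ≤ n) ∨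
  (t.p ≠ 0 ∧ t.q = n ∧ t.e2 = n ∧ X t.e1 = X n - μ ∧ t.e1 ≤ t.p) ∨
  (t.p ≠ 0 ∧ t.p < t.q ∧ t.e1 = t.p ∧ t.e2 = t.q ∧ X t.q = X t.p + μ)

/-- The real data of a design whose groups are clusters of `K ^ 2` points, `K = mu` odd. -/
def OddData (W0 γ : ℝ) (K0 : ℕ) : Prop :=
  ∃ (ι : Type) (_ : Fintype ι) (ty : ι → Ty) (n S P : ℕ) (par lev rl : ℕ → ℕ) (M0 : ℕ)
    (η : ℝ), Tree n S P par lev rl ∧ (∀ u, (ty u).v < S) ∧ (∀ u, (ty u).Ord n) ∧
    (∀ u, (ty u).p < (ty u).z → (ty u).z < (ty u).q → Level ty par lev rl (ty u)) ∧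
    (∀ u, Odd (ty u).mu ∧ K0 ≤ (ty u).mu) ∧ (∀ u, 0 < (ty u).e2 ∧ (ty u).e1 < n) ∧
    0 < M0 ∧ 0 < η ∧
    ∀ (δ k s : ℕ) (W : ℝ), M0 ∣ δ → 0 < δ → (δ : ℝ) ≤ η * k → |W - W0| < η →
    (s : ℝ) = 2 * δ * k * W + δ ^ 2 * W ^ 2 →
    ∃ N : ι → ℕ, s = ∑ u, N u * (ty u).mu ^ 2 ∧
      ∀ τ : ℝ, |τ| < η →
      ∃ X : ℕ → ℝ, X 0 = 0 ∧ (∀ a b, a < b → b ≤ n → X a < X b) ∧ X n = W - τ ∧
        (∀ u, ShapeR (ty u) n X (szK (ty u).mu (X n))) ∧
        (∀ k, 0 < k → k < S → ∀ w, 0 < w → w < n → lev k < rl w →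
          (∀ u, Below par k (ty u).v → (ty u).z ≠ w) ∨
            0 < below ty par (fun u => N u * kap X (ty u) w) k) ∧
        (0 ≤ τ → ∀ x, 0 ≤ x → x ≤ W - τ →
          δ * k + δ ^ 2 * (W - τ - x) + γ * τ * (δ * k) ≤
            ∑ u, N u * (fbK (ty u).mu (X n) + profR X (ty u) x)) ∧
        (τ ≤ 0 → ∀ x, 0 ≤ x → x ≤ W - τ →
          ∑ u, N u * (fbK (ty u).mu (X n) + profR X (ty u) x) ≤
            δ * k + δ ^ 2 * (W - τ - x) + γ * τ * (δ * k))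

end Pool.Agent.P.MP_8707bd_ag.Ex
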