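import Mathlib
import Pool.Agent.P.MP_8707bd_ag.Win.Check2
import Pool.Agent.P.MP_8707bd_ag.Ex.OddDefs

/-!
From the finite rational check to the data of a design of odd clusters (helper file only).
-/

namespace Pool.Agent.P.MP_8707bd_ag.Ex

open Win All Irr Filter Topology

set_option synthInstance.maxSize 4096

/-- The shape of a group, the size being `K - (K - 1) W`. -/
def ChkShapeO (n : ℕ) (al be ξ : ℕ → ℚ) (t : Ty) : Prop :=
  ((t.p = 0 ∧ t.e1 = 0 ∧ (al t.e2 = t.mu ∧ be t.e2 = 1 - t.mu ∧ ξ t.e2 = 1 - t.mu) ∧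
      t.q ≤ t.e2 ∧ t.e2 ≤ n) ∨
    (t.p ≠ 0 ∧ t.q = n ∧ t.e2 = n ∧ (al t.e1 = -t.mu ∧ be t.e1 = t.mu ∧ ξ t.e1 = t.mu) ∧
      t.e1 ≤ t.p) ∨
    (t.p ≠ 0 ∧ t.p < t.q ∧ t.e1 = t.p ∧ t.e2 = t.q ∧ (al t.q = al t.p + t.mu ∧
      be t.q = be t.p + 1 - t.mu ∧ ξ t.q = ξ t.p + 1 - t.mu))) ∧
  ((t.p = 0 ∧ t.z = 0 ∧ t.q = 0) ∨ (t.p = n ∧ t.z = n ∧ t.q = n) ∨
    (t.p < t.z ∧ t.z < t.q ∧ t.q ≤ n))

/-- The groups. -/
def ChkTyO (n s M K0 : ℕ) (par lev rl : ℕ → ℕ) (al be ξ : ℕ → ℚ) (L : ℚ) (E : List (Ty × ℚ)) :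
    Prop :=
  ∀ p ∈ E, p.1.v < s ∧ ChkShapeO n al be ξ p.1 ∧ ChkLevel (E.map Prod.fst) par lev rl p.1 ∧
    0 < ld L p ∧ (p.1.A * M).den = 1 ∧ (p.2 * M).den = 1 ∧ p.1.mu % 2 = 1 ∧ K0 ≤ p.1.mu ∧
    0 < p.1.e2 ∧ p.1.e1 < n

/-- The polynomial parts of the kinks balance. -/
def ChkKink (n : ℕ) (al be : ℕ → ℚ) (D : List Ty) : Prop :=
  ∀ w < n, tot D (coef al be w 0) = (if w = 0 then -1 else 0) ∧ tot D (coef al be w 1) = 0 ∧
    tot D (coef al be w 2) = 0 ∧ tot D (coef al be w 3) = 0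

/-- The constant term of the height at `0`, fibre included. -/
def ht0 (al : ℕ → ℚ) (t : Ty) : ℚ :=
  (if t.p = 0 then al t.e2 - al t.q else 0) + ((t.mu : ℚ) - 1) * t.mu

/-- The linear term of the height at `0`, fibre included. -/
def ht1 (be : ℕ → ℚ) (t : Ty) : ℚ :=
  (if t.p = 0 then be t.e2 - be t.q else 0) - ((t.mu : ℚ) - 1) ^ 2 / 2

/-- The heights at `0` and the numbers of points balance. -/
def ChkHt (al be : ℕ → ℚ) (E : List (Ty × ℚ)) : Prop :=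
  (E.map fun p => p.1.A * ht0 al p.1).sum = 0 ∧ (E.map fun p => p.1.A * ht1 be p.1).sum = 1 ∧
  (E.map fun p => p.2 * ht0 al p.1).sum = 1 ∧ (E.map fun p => p.2 * ht1 be p.1).sum = 1 ∧
  (E.map fun p => (p.1.B : ℚ) * ht0 al p.1).sum = 0 ∧
  (E.map fun p => (p.1.B : ℚ) * ht1 be p.1).sum = 0 ∧
  (E.map fun p => p.1.A * (p.1.mu : ℚ) ^ 2).sum = 0 ∧
  (E.map fun p => p.2 * (p.1.mu : ℚ) ^ 2).sum = -1 ∧
  (E.map fun p => (p.1.B : ℚ) * (p.1.mu : ℚ) ^ 2).sum = 1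

/-- The divided difference of the profile at node `v`, fibre included. -/
def rspO {F : Type} [Field F] (X Y ξ : ℕ → F) (t : Ty) (v : ℕ) : F :=
  rsp X Y ξ t v - (if t.p = 0 then ξ t.e2 else 0) + ((t.mu : F) - 1) ^ 2 / 2

/-- The shift of the nodes raises the sum of the profiles. -/
def ChkRspO (n : ℕ) (al be ξ : ℕ → ℚ) (L γ : ℚ) (E : List (Ty × ℚ)) : Prop :=
  ξ 0 = 0 ∧ ξ n = 1 ∧ ∀ v < n + 1,
    γ < (E.map fun p => ld L p * rspO (pos al be L) (pos al be L) ξ p.1 v).sum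

instance (n : ℕ) (al be ξ : ℕ → ℚ) (t : Ty) : Decidable (ChkShapeO n al be ξ t) := by
  unfold ChkShapeO; infer_instance
instance (n s M K0 : ℕ) (par lev rl : ℕ → ℕ) (al be ξ : ℕ → ℚ) (L : ℚ) (E : List (Ty × ℚ)) :
    Decidable (ChkTyO n s M K0 par lev rl al be ξ L E) := by
  unfold ChkTyO; infer_instance
instance (n : ℕ) (al be : ℕ → ℚ) (D : List Ty) : Decidable (ChkKink n al be D) := by
  unfold ChkKink; infer_instance
instance (al be : ℕ → ℚ) (E : List (Ty × ℚ)) : Decidable (ChkHt al be E) := by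
  unfold ChkHt; infer_instance
instance (n : ℕ) (al be ξ : ℕ → ℚ) (L γ : ℚ) (E : List (Ty × ℚ)) :
    Decidable (ChkRspO n al be ξ L γ E) := by
  unfold ChkRspO; infer_instance

lemma checko_prof_eq {t : Ty} {n : ℕ} {X : ℕ → ℝ} (he1 : t.e1 ≤ n) (he2 : t.e2 ≤ n)
    (h2 : t.Ord n) (x : ℝ) (hx : x ≤ X n) :
    profR X t x = a0R X t + ∑ w ∈ Finset.range n, kap X t w * pp (x - X w) := by
  have hp : t.p ≤ n := by rcases h2 with h | h | h <;> omega
  have hz : t.z ≤ n := by rcases h2 with h | h | h <;> omega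
  have hq : t.q ≤ n := by rcases h2 with h | h | h <;> omega
  rw [profR, U, ← All.sum_ind n _ hp X x hx, ← All.sum_ind n _ hz X x hx, ← All.sum_ind n _ hq X x hx,
    ← All.sum_ind n _ he1 X x hx, ← All.sum_ind n _ he2 X x hx]
  simp only [Finset.mul_sum, add_assoc, sub_eq_add_neg, ← Finset.sum_neg_distrib,
    ← Finset.sum_add_distrib]
  congr 1
  refine Finset.sum_congr rfl fun w _ => ?_
  rw [kap]
  ring

lemma checko_shift {n : ℕ} {X Y ξ : ℕ → ℝ} {τ W : ℝ} (hY : ∀ w, Y w = X w - τ * ξ w)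
    (mX : ∀ a b, a < b → b ≤ n → X a < X b) (mY : ∀ a b, a < b → b ≤ n → Y a < Y b) {t : Ty}
    (he1 : t.e1 ≤ n) (he2 : t.e2 ≤ n) (h2 : t.Ord n) {x θ : ℝ} {w : ℕ} (hx : x ≤ Y n)
    (hθ : ∀ a ≤ n, pp (x - Y a) = (1 - θ) * cut Y a w + θ * cut Y a (w + 1)) :
    fbK t.mu (W - τ) + profR Y t x = (fbK t.mu W + a0R X t) +
      ∑ v ∈ Finset.range n, kap X t v * pp (x - Y v) +
      τ * ((1 - θ) * rspO X Y ξ t w + θ * rspO X Y ξ t (w + 1)) := by
  have hp : t.p ≤ n := by rcases h2 with h | h | h <;> omega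
  have hz : t.z ≤ n := by rcases h2 with h | h | h <;> omega
  have hq : t.q ≤ n := by rcases h2 with h | h | h <;> omega
  have e1 := dq_eq X Y ξ τ hY t t.p t.z (by
    rcases h2 with h | h | h
    · omega
    · omega
    · exact Or.inr ⟨mX _ _ h.1 hz, mY _ _ h.1 hz⟩)
  have e2 := dq_eq X Y ξ τ hY t t.z t.q (by
    rcases h2 with h | h | h
    · omega
    · omega
    · exact Or.inr ⟨mX _ _ h.2.1 hq, mY _ _ h.2.1 hq⟩)
  have e3 : ∀ v, kap Y t v * pp (x - Y v) = kap X t v * pp (x - Y v) +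
      (τ * dq X Y ξ t t.p t.z * (ind t.p v * pp (x - Y v) - ind t.z v * pp (x - Y v)) +
      τ * dq X Y ξ t t.z t.q * (ind t.q v * pp (x - Y v) - ind t.z v * pp (x - Y v))) := by
    intro v
    rw [kap, kap, e1, e2]
    ring
  have e4 : a0R Y t = a0R X t + τ * ((if t.p = 0 then ξ t.q else 0) -
      if t.p = 0 then ξ t.e2 else 0) := by
    simp only [a0R, hY]
    split_ifs <;> ring
  rw [checko_prof_eq he1 he2 h2 x hx, e4]
  simp only [e3, Finset.sum_add_distrib, ← Finset.mul_sum, Finset.sum_sub_distrib,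
    All.sum_ind n _ hp Y x hx, All.sum_ind n _ hz Y x hx, All.sum_ind n _ hq Y x hx, rspO, rsp, fbK]
  rw [hθ _ hp, hθ _ hz, hθ _ hq]
  ring

lemma checko_shape {n : ℕ} {al be ξ : ℕ → ℚ} {t : Ty} (h1 : ChkShapeO n al be ξ t) (W τ : ℝ)
    (Y : ℕ → ℝ) (hY : ∀ w, Y w = pos al be W w - τ * ξ w) (hn : Y n = W - τ) :
    ShapeR t n Y (szK t.mu (Y n)) := by
  rcases h1.1 with ⟨a, b, c, d⟩ | ⟨a, b, c, d, e⟩ | ⟨a, b, c, d, e, f⟩
  · refine Or.inl ⟨a, b, ?_, d⟩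
    rw [hn, hY]
    simp only [pos, szK, c.1, c.2.1, c.2.2]
    push_cast
    ring
  · refine Or.inr (Or.inl ⟨a, b, c, ?_, e⟩)
    rw [hn, hY]
    simp only [pos, szK, d.1, d.2.1, d.2.2]
    push_cast
    ring
  · refine Or.inr (Or.inr ⟨a, b, c, d, ?_⟩)
    rw [hn, hY, hY]
    simp only [pos, szK, e, f.1, f.2]
    push_cast
    ring

lemma checko_sum (E : List (Ty × ℚ)) (f : Ty → ℚ) (a b c : ℚ)
    (h1 : (E.map fun p => p.1.A * f p.1).sum = a) (h2 : (E.map fun p => p.2 * f p.1).sum = b)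
    (h3 : (E.map fun p => (p.1.B : ℚ) * f p.1).sum = c) (W u : ℝ) :
    ∑ i : Fin E.length, (ld W E[i.1] + u * All.cnt W E[i.1].1) * (f E[i.1].1 : ℝ) =
      b + (u - 1) * a + (2 * W + 1 + u * W ^ 2) * c := by
  have g1 := congrArg (Rat.cast : ℚ → ℝ) h1
  have g2 := congrArg (Rat.cast : ℚ → ℝ) h2
  have g3 := congrArg (Rat.cast : ℚ → ℝ) h3
  rw [sum_cast] at g1 g2 g3
  have h4 : ∀ p : Ty × ℚ, (ld W p + u * All.cnt W p.1) * (f p.1 : ℝ) =
      ((p.2 * f p.1 : ℚ) : ℝ) + (u - 1) * ((p.1.A * f p.1 : ℚ) : ℝ) +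
        (2 * W + 1 + u * W ^ 2) * (((p.1.B : ℚ) * f p.1 : ℚ) : ℝ) := fun p => by
    simp only [ld, All.cnt, alt]; push_cast; ring
  simp only [h4, Finset.sum_add_distrib, ← Finset.mul_sum]
  rw [g1, g2, g3]

lemma checko_ident {n : ℕ} {al be : ℕ → ℚ} {E : List (Ty × ℚ)} (hO : ∀ p ∈ E, p.1.Ord n)
    (c5 : ChkRes n al be (E.map Prod.fst)) (c6 : ChkKink n al be (E.map Prod.fst))
    (c7 : ChkRes n (sh al be) be (E.map alt)) (c8 : ChkKink n (sh al be) be (E.map alt))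
    (c9 : ChkHt al be E)
    (W : ℝ) (hX : ∀ a b, a < b → b ≤ n → pos al be W a < pos al be W b) (u : ℝ) :
    (∀ w < n, ∑ i : Fin E.length, (ld W E[i.1] + u * All.cnt W E[i.1].1) *
      kap (pos al be W) E[i.1].1 w = if w = 0 then -u else 0) ∧
    (∑ i : Fin E.length, (ld W E[i.1] + u * All.cnt W E[i.1].1) *
      (fbK E[i.1].1.mu W + a0R (pos al be W) E[i.1].1) = 1 + u * W) ∧
    ∑ i : Fin E.length, (ld W E[i.1] + u * All.cnt W E[i.1].1) * (E[i.1].1.mu : ℝ) ^ 2 =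
      2 * W + u * W ^ 2 := by
  have hp : pos (sh al be) be (W + 1) = pos al be W := by
    funext w; simp only [pos, sh]; push_cast; ring
  have o1 : ∀ t ∈ E.map Prod.fst, t.Ord n := fun t ht => by
    obtain ⟨p, h, rfl⟩ := List.mem_map.1 ht
    exact hO p h
  have o2 : ∀ t ∈ E.map alt, t.Ord n := fun t ht => by
    obtain ⟨p, h, rfl⟩ := List.mem_map.1 ht
    exact hO p h
  obtain ⟨p1, p2, p3, p4, p5, p6, p7, p8, p9⟩ := c9
  refine ⟨fun w hw => ?_, ?_, ?_⟩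
  · obtain ⟨a, b, c, d⟩ := c6 w hw
    have h1 := eqk_of al be n _ o1 W hX c5 w _ a b c d
    obtain ⟨a, b, c, d⟩ := c8 w hw
    have h2 := eqk_of (sh al be) be n _ o2 (W + 1) (by rw [hp]; exact hX) c7 w _ a b c d
    rw [sum_map E _ fun t => All.cnt W t * kap (pos al be W) t w] at h1
    rw [hp, sum_map E _ fun t => All.cnt (W + 1) t * kap (pos al be W) t w] at h2
    have h3 : ∀ p : Ty × ℚ, (ld W p + u * All.cnt W p.1) * kap (pos al be W) p.1 w =
        All.cnt (W + 1) (alt p) * kap (pos al be W) (alt p) w +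
          (u - 1) * (All.cnt W p.1 * kap (pos al be W) p.1 w) := fun p => by
      rw [show kap (pos al be W) (alt p) w = kap (pos al be W) p.1 w from rfl, ld]; ring
    simp only [h3, Finset.sum_add_distrib, ← Finset.mul_sum]
    rw [h1, h2]
    split_ifs <;> push_cast <;> ring
  · have h1 := checko_sum E (ht0 al) _ _ _ p1 p3 p5 W u
    have h2 := checko_sum E (ht1 be) _ _ _ p2 p4 p6 W u
    have h3 : ∀ (c : ℝ) (t : Ty), c * (fbK t.mu W + a0R (pos al be W) t) =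
        c * (ht0 al t : ℝ) + W * (c * (ht1 be t : ℝ)) := fun c t => by
      simp only [fbK, a0R, ht0, ht1, pos]
      split_ifs <;> push_cast <;> ring
    simp only [h3, Finset.sum_add_distrib, ← Finset.mul_sum]
    rw [h1, h2]
    push_cast
    ring
  · have h1 := checko_sum E (fun t => (t.mu : ℚ) ^ 2) _ _ _ p7 p8 p9 W u
    push_cast at h1
    rw [h1]
    ring

lemma checko_cast (al be ξ : ℕ → ℚ) (L : ℚ) (t : Ty) (v : ℕ) :
    ((rspO (pos al be L) (pos al be L) ξ t v : ℚ) : ℝ) =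
      rspO (pos al be (L : ℝ)) (pos al be (L : ℝ)) (fun w => ξ w) t v := by
  simp only [rspO]
  push_cast [rsp_cast, apply_ite (Rat.cast : ℚ → ℝ)]
  rfl

theorem odd_of_check (n s P M K0 : ℕ) (hM : 0 < M) (par lev rl : ℕ → ℕ) (al be ξ : ℕ → ℚ)
    (L0 γ : ℚ) (E : List (Ty × ℚ)) (c1 : ChkTree n s P par lev rl) (c2 : ChkNode n 0 al be L0)
    (c3 : ChkTyO n s M K0 par lev rl al be ξ L0 E) (c4 : ChkSup2 n s par lev rl al be L0 E)
    (c5 : ChkRes n al be (E.map Prod.fst)) (c6 : ChkKink n al be (E.map Prod.fst))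
    (c7 : ChkRes n (sh al be) be (E.map alt)) (c8 : ChkKink n (sh al be) be (E.map alt))
    (c9 : ChkHt al be E) (c10 : ChkRspO n al be ξ L0 γ E) : OddData L0 γ K0 := by
  obtain ⟨t1, t2, t3, t4, t5⟩ := c1
  have T : Tree n s P par lev rl := ⟨t1, t2, t3, fun k a b => by
    obtain ⟨h1, h2, h3, h4, h5, h6⟩ := t4 k b a
    exact ⟨h1, h2, h3, h4, h5, fun w a b => h6 w b a⟩, fun w a b => t5 w b a⟩
  obtain ⟨n0, n1, n2, n3, n4, n5⟩ := c2
  obtain ⟨r1, r2, r4⟩ := c10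
  have hO : ∀ p ∈ E, p.1.Ord n := fun t ht => (c3 t ht).2.1.2
  have hX0 : ∀ a b, a < b → b ≤ n → pos al be (L0 : ℝ) a < pos al be (L0 : ℝ) b := by
    intro a b h1 h2
    rw [← pos_cast, ← pos_cast, Rat.cast_lt]
    exact n5 b (by omega) a h1
  set ty : Fin E.length → Ty := fun u => E[u.1].1 with hty
  have hmem : ∀ u : Fin E.length, E[u.1] ∈ E := fun u => List.getElem_mem u.2
  set X : ℝ × ℝ × ℝ → ℕ → ℝ := fun p => pos al be p.1 with hXd
  set Y : ℝ × ℝ × ℝ → ℕ → ℝ := fun p w => pos al be p.1 w - p.2.1 * ξ w with hYd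
  set ν : ℝ × ℝ × ℝ → Fin E.length → ℝ := fun p u => ld p.1 E[u.1] + p.2.2 * All.cnt p.1 (ty u)
    with hν
  set o : ℝ × ℝ × ℝ := ((L0 : ℝ), 0, 0) with ho
  have oX : X o = pos al be (L0 : ℝ) := rfl
  have oY : Y o = pos al be (L0 : ℝ) := by funext w; simp [hYd, ho]
  have oν : ∀ u, ν o u = ld (L0 : ℝ) E[u.1] := fun u => by simp [hν, ho]
  have cX : ∀ w, ContinuousAt (fun p => X p w) o := fun w => by
    simp only [hXd, pos]; fun_prop
  have cY : ∀ w, ContinuousAt (fun p => Y p w) o := fun w => by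
    simp only [hYd, pos]; fun_prop
  have cν : ∀ u, ContinuousAt (fun p => ν p u) o := fun u => by
    simp only [hν, ld, All.cnt]; fun_prop
  have mX : ∀ a b, a < b → b ≤ n → X o a < X o b := hX0
  have mY : ∀ a b, a < b → b ≤ n → Y o a < Y o b := by rw [oY]; exact hX0
  have e1 : ∀ᶠ p in 𝓝 o, ∀ ab : Fin (n + 1) × Fin (n + 1), (ab.1 : ℕ) < ab.2 →
      X p ab.1 < X p ab.2 ∧ Y p ab.1 < Y p ab.2 := by
    refine eventually_all.2 fun ab => eventually_imp_distrib_left.2 fun h => ?_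
    have : (ab.2 : ℕ) ≤ n := by have := ab.2.2; omega
    exact ((cX _).eventually_lt (cX _) (mX _ _ h this)).and
      ((cY _).eventually_lt (cY _) (mY _ _ h this))
  have e2 : ∀ᶠ p in 𝓝 o, ∀ u, 0 < ν p u := by
    refine eventually_all.2 fun u => continuousAt_const.eventually_lt (cν u) ?_
    rw [oν, ← ld_cast]
    exact_mod_cast (c3 _ (hmem u)).2.2.2.1
  have e3 : ∀ᶠ p in 𝓝 o, ∀ kw : Fin s × Fin n,
      0 < below ty par (fun u => ν o u * kap (Y o) (ty u) kw.2) kw.1 →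
      0 < below ty par (fun u => ν p u * kap (Y p) (ty u) kw.2) kw.1 := by
    refine eventually_all.2 fun kw => eventually_imp_distrib_left.2 fun h => ?_
    refine continuousAt_const.eventually_lt ?_ h
    refine tendsto_finsetSum _ fun u _ => ?_
    split_ifs
    · exact (cν u).mul (kap_cont' cY mY _ (hO _ (hmem u)) _)
    · exact tendsto_const_nhds
  have e4 : ∀ᶠ p in 𝓝 o, ∀ v : Fin (n + 1), (γ : ℝ) <
      ∑ u, ν p u * rspO (X p) (Y p) (fun w => ξ w) (ty u) v := by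
    refine eventually_all.2 fun v => ContinuousAt.eventually_lt continuousAt_const ?_ ?_
    · exact tendsto_finsetSum _ fun u _ =>
        (cν u).mul (((rsp_cont cX mX cY mY _ _ (hO _ (hmem u)) _).sub continuousAt_const).add
          continuousAt_const)
    · have h1 : ((γ : ℚ) : ℝ) < _ := Rat.cast_lt.2 (r4 v v.2)
      rw [sum_cast] at h1
      simp only [Rat.cast_mul, ld_cast, checko_cast] at h1
      simp only [oX, oY, oν]
      exact h1
  obtain ⟨ε, hε, hnb⟩ := Metric.eventually_nhds_iff.1 (e1.and (e2.and (e3.and e4)))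
  have s3 : ∀ u, (ty u).p < (ty u).z → (ty u).z < (ty u).q → Level ty par lev rl (ty u) := by
    intro u a1 _
    rcases (c3 _ (hmem u)).2.2.1 a1 with ⟨a, b⟩ | ⟨a, b, c⟩
    · exact Or.inl ⟨fun w h1 h2 => a w h2 h1, b⟩
    · exact Or.inr ⟨a, fun w h1 h2 => b w h2 h1, fun w h1 h2 h3 u' h4 =>
        c _ (List.mem_map_of_mem (hmem u')) h4 w h2 h1 h3⟩
  have he2 : ∀ u, (ty u).e2 ≤ n := fun u => by
    have h1 := (c3 _ (hmem u)).2.1.1
    have h2 := hO _ (hmem u)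
    change (ty u).Ord n at h2
    rcases h1 with ⟨-, -, -, -, a⟩ | ⟨-, -, a, -⟩ | ⟨-, -, -, a, -⟩
    · exact a
    · exact a.le
    · change (ty u).e2 = (ty u).q at a
      rcases h2 with h | h | h <;> omega
  refine ⟨Fin E.length, inferInstance, ty, n, s, P, par, lev, rl, M, ε / 2, T,
    fun u => (c3 _ (hmem u)).1, fun u => hO _ (hmem u), s3,
    fun u => ⟨Nat.odd_iff.2 (c3 _ (hmem u)).2.2.2.2.2.2.1, (c3 _ (hmem u)).2.2.2.2.2.2.2.1⟩,
    fun u => (c3 _ (hmem u)).2.2.2.2.2.2.2.2, hM, by linarith,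
    fun δ k r W hδ hδ0 hk hW hr => ?_⟩
  obtain ⟨y, hδ⟩ := hδ
  have hδ' : (0 : ℝ) < δ := by exact_mod_cast hδ0
  have hk0 : (0 : ℝ) < k := by
    by_contra h
    nlinarith [mul_nonneg hε.le (neg_nonneg.2 (not_lt.1 h))]
  have hd : ∀ τ : ℝ, |τ| < ε / 2 → dist ((W, τ, δ / k) : ℝ × ℝ × ℝ) o < ε := by
    intro τ hτ
    simp only [ho, Prod.dist_eq, Real.dist_eq, sub_zero, max_lt_iff]
    refine ⟨by linarith, by linarith, ?_⟩
    rw [abs_of_pos (by positivity), div_lt_iff₀ hk0]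
    nlinarith
  obtain ⟨g1, g2, -, -⟩ := hnb (hd 0 (by simpa using hε))
  have hN : ∀ u, ∃ N : ℕ, (N : ℝ) = δ * k * ν (W, 0, δ / k) u := by
    intro u
    obtain ⟨-, -, -, -, d1, d2, -⟩ := c3 _ (hmem u)
    have h1 : ((((ty u).A * M).num : ℝ)) = (ty u).A * M := by
      exact_mod_cast (Rat.den_eq_one_iff _).1 d1
    have h2 : (((E[u.1].2 * M).num : ℝ)) = E[u.1].2 * M := by
      exact_mod_cast (Rat.den_eq_one_iff _).1 d2
    have h3 : ((((ty u).A * M).num * (M * y ^ 2 - y * k) + (E[u.1].2 * M).num * (y * k) +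
        (ty u).B * (r + δ * k) : ℤ) : ℝ) = δ * k * ν (W, 0, δ / k) u := by
      rw [Int.cast_add, Int.cast_add, Int.cast_mul, Int.cast_mul, Int.cast_mul, h1, h2]
      simp only [hν, ld, All.cnt, alt, hty]
      push_cast
      rw [hr]
      field_simp
      rw [hδ]
      push_cast
      ring
    have h4 : (0 : ℝ) ≤ δ * k * ν (W, 0, δ / k) u := mul_nonneg (by positivity) (g2 u).le
    rw [← h3] at h4
    obtain ⟨N, hN⟩ := Int.eq_ofNat_of_zero_le (Int.cast_nonneg_iff.1 h4)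
    exact ⟨N, by rw [← h3, hN]; simp⟩
  choose N hN0 using hN
  have gX : ∀ a b, a < b → b ≤ n → pos al be W a < pos al be W b := fun a b h1 h2 =>
    (g1 (⟨a, by omega⟩, ⟨b, by omega⟩) h1).1
  obtain ⟨i1, i2, i3⟩ := checko_ident hO c5 c6 c7 c8 c9 W gX (δ / k)
  refine ⟨N, ?_, fun τ hτ => ?_⟩
  · have h3 : (r : ℝ) = ∑ u, (N u : ℝ) * (ty u).mu ^ 2 := by
      simp only [hN0, mul_assoc, ← Finset.mul_sum]
      rw [show ∑ u, ν (W, 0, δ / k) u * ((ty u).mu : ℝ) ^ 2 = _ from i3, hr]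
      field_simp
    exact_mod_cast h3
  obtain ⟨f1, -, f3, f4⟩ := hnb (hd τ hτ)
  set p : ℝ × ℝ × ℝ := (W, τ, δ / k) with hp
  have hN : ∀ u, (N u : ℝ) = δ * k * ν p u := hN0
  have gY : ∀ a b, a < b → b ≤ n → Y p a < Y p b := fun a b h1 h2 =>
    (f1 (⟨a, by omega⟩, ⟨b, by omega⟩) h1).2
  have Y0 : Y p 0 = 0 := by simp [hYd, pos, n1, n2, r1]
  have Yn : Y p n = W - τ := by simp [hYd, hp, pos, n3, n4, r2]
  have key : ∀ x, 0 ≤ x → x ≤ W - τ → ∃ g : ℝ, 0 ≤ g ∧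
      ∑ u, N u * (fbK (ty u).mu (Y p n) + profR (Y p) (ty u) x) =
        δ * k + δ ^ 2 * (W - τ - x) + γ * τ * (δ * k) + τ * g := by
    intro x x0 x1
    obtain ⟨w, w1, θ, θ0, θ1, hθ⟩ := interp n T.n0 (Y p) gY x (Y0 ▸ x0) (Yn ▸ x1)
    have a1 := f4 ⟨w, by omega⟩
    have a2 := f4 ⟨w + 1, by omega⟩
    set R : ℕ → ℝ := fun v => ∑ u, ν p u * rspO (X p) (Y p) (fun w => ξ w) (ty u) v with hR
    refine ⟨δ * k * ((1 - θ) * (R w - γ) + θ * (R (w + 1) - γ)) + δ ^ 2,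
      add_nonneg (mul_nonneg (by positivity)
      (add_nonneg (mul_nonneg (by linarith) (sub_nonneg.2 a1.le))
        (mul_nonneg θ0 (sub_nonneg.2 a2.le)))) (by positivity), ?_⟩
    have h1 : ∀ u, ν p u * (fbK (ty u).mu (Y p n) + profR (Y p) (ty u) x) =
        ν p u * (fbK (ty u).mu W + a0R (X p) (ty u)) +
        ∑ v ∈ Finset.range n, ν p u * kap (X p) (ty u) v * pp (x - Y p v) +
        (τ * (1 - θ) * (ν p u * rspO (X p) (Y p) (fun w => ξ w) (ty u) w) +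
        τ * θ * (ν p u * rspO (X p) (Y p) (fun w => ξ w) (ty u) (w + 1))) := by
      intro u
      rw [Yn, checko_shift (X := X p) (ξ := fun w => ξ w) (τ := τ) (W := W) (fun _ => rfl) gX gY
        (c3 _ (hmem u)).2.2.2.2.2.2.2.2.2.le (he2 u) (hO _ (hmem u)) (x1.trans_eq Yn.symm) hθ]
      simp only [mul_assoc, ← Finset.mul_sum]
      ring
    have h2 : ∑ u, ∑ v ∈ Finset.range n, ν p u * kap (X p) (ty u) v * pp (x - Y p v) =
        -(δ / k) * x := by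
      rw [Finset.sum_comm, Finset.sum_eq_single 0]
      · rw [← Finset.sum_mul, show ∑ u, ν p u * kap (X p) (ty u) 0 = _ from i1 0 T.n0,
          if_pos rfl, Y0, pp_of_ge x0, sub_zero]
      · intro v hv v0
        rw [← Finset.sum_mul, show ∑ u, ν p u * kap (X p) (ty u) v = _ from
          i1 v (Finset.mem_range.1 hv), if_neg v0, zero_mul]
      · intro h; exact absurd (Finset.mem_range.2 T.n0) h
    simp only [hN, mul_assoc (δ * k : ℝ), ← Finset.mul_sum]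
    simp only [h1, Finset.sum_add_distrib, ← Finset.mul_sum]
    rw [h2, show ∑ u, ν p u * (fbK (ty u).mu W + a0R (X p) (ty u)) = _ from i2]
    change _ * (_ + _ + (_ * R w + _ * R (w + 1))) = _
    field_simp
    ring
  refine ⟨Y p, Y0, gY, Yn, fun u => checko_shape (c3 _ (hmem u)).2.1 W τ _ (fun _ => rfl) Yn,
    fun k k0 ks w w0 wn h => ?_, fun hτ0 x x0 x1 => ?_, fun hτ0 x x0 x1 => ?_⟩
  · rcases c4 k ks k0 w wn w0 h with h1 | h1
    · exact Or.inl fun u hu => h1 _ (hmem u) hu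
    · right
      have h2 := f3 (⟨k, ks⟩, ⟨w, wn⟩) (by
        have h3 : ((0 : ℚ) : ℝ) < _ := Rat.cast_lt.2 h1
        rw [sum_cast, Rat.cast_zero] at h3
        refine h3.trans_eq (Finset.sum_congr rfl fun u _ => ?_)
        split_ifs
        · simp only [Rat.cast_mul, ld_cast, kap_cast, oν, oY, hty]
        · simp)
      refine (mul_pos (mul_pos hδ' hk0) h2).trans_eq ?_
      simp only [below, Finset.mul_sum, hN, mul_ite, mul_zero, mul_assoc]
  · obtain ⟨g, g0, hg⟩ := key x x0 x1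
    rw [hg]
    exact le_add_of_nonneg_right (mul_nonneg hτ0 g0)
  · obtain ⟨g, g0, hg⟩ := key x x0 x1
    rw [hg]
    exact add_le_of_nonpos_right (mul_nonpos_of_nonpos_of_nonneg hτ0 g0)

end Pool.Agent.P.MP_8707bd_ag.Ex
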