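import Mathlib

/-!
A space of polynomials of dimension `n` has only finitely many points at which a nonzero member
vanishes to order `n`.
-/

namespace Pool.Agent.P.MP_8707bd_ag.Ex

open Polynomial

/-- The Wronskian with a fixed polynomial. -/
noncomputable def wr (g : ℂ[X]) : ℂ[X] →ₗ[ℂ] ℂ[X] :=
  LinearMap.mulRight ℂ g ∘ₗ derivative - LinearMap.mulRight ℂ (derivative g)

lemma wr_apply (g f : ℂ[X]) : wr g f = derivative f * g - f * derivative g := rfl

lemma root_of_wr {g f : ℂ[X]} {y : ℂ} (hf : f ≠ 0) (hy : f.IsRoot y) (h : wr g f = 0) :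
    g.IsRoot y := by
  by_contra hg
  rw [wr_apply, sub_eq_zero] at h
  have hd : derivative f ≠ 0 := by
    intro h0
    have h1 := eq_C_of_derivative_eq_zero h0
    rw [h1, IsRoot, eval_C] at hy
    exact hf (by rw [h1, hy, C_0])
  have h1 : (X - C y) ^ f.rootMultiplicity y ∣ derivative f * g := by
    rw [h]
    exact (pow_rootMultiplicity_dvd f y).mul_right _
  have h2 : IsCoprime ((X - C y) ^ f.rootMultiplicity y) g :=
    ((irreducible_X_sub_C y).coprime_iff_not_dvd.2 fun h' => hg (dvd_iff_isRoot.1 h')).pow_left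
  have h3 := (le_rootMultiplicity_iff hd).2 (h2.dvd_of_dvd_mul_right h1)
  rw [derivative_rootMultiplicity_of_root hy] at h3
  have h4 := (rootMultiplicity_pos hf).2 hy
  omega

lemma wronski_aux (n : ℕ) : ∀ (A : Submodule ℂ ℂ[X]) [FiniteDimensional ℂ A],
    Module.finrank ℂ A ≤ n → {y : ℂ | ∃ f ∈ A, f ≠ 0 ∧ (X - C y) ^ n ∣ f}.Finite := by
  induction n with
  | zero =>
    intro A _ hA
    have h0 : A = ⊥ := Submodule.finrank_eq_zero.1 (Nat.le_zero.1 hA)
    refine Set.finite_empty.subset ?_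
    rintro y ⟨f, hf, hf0, -⟩
    rw [h0, Submodule.mem_bot] at hf
    exact hf0 hf
  | succ n ih =>
    intro A _ hA
    by_cases h0 : A = ⊥
    · refine Set.finite_empty.subset ?_
      rintro y ⟨f, hf, hf0, -⟩
      rw [h0, Submodule.mem_bot] at hf
      exact hf0 hf
    obtain ⟨g, hg, hg0⟩ := (Submodule.ne_bot_iff A).1 h0
    have h1 := LinearMap.finrank_range_add_finrank_ker ((wr g).domRestrict A)
    have h2 : 0 < Module.finrank ℂ (LinearMap.ker ((wr g).domRestrict A)) := by
      refine Nat.pos_of_ne_zero fun h => hg0 ?_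
      have h3 : (⟨g, hg⟩ : A) ∈ LinearMap.ker ((wr g).domRestrict A) := by
        rw [LinearMap.mem_ker, LinearMap.domRestrict_apply, wr_apply]
        ring
      rw [Submodule.finrank_eq_zero.1 h, Submodule.mem_bot] at h3
      exact congrArg Subtype.val h3
    refine ((ih (LinearMap.range ((wr g).domRestrict A)) (by omega)).union
      (finite_setOfPred_isRoot hg0)).subset ?_
    rintro y ⟨f, hf, hf0, hd⟩
    by_cases hw : wr g f = 0
    · exact Or.inr (root_of_wr hf0
        (dvd_iff_isRoot.1 ((dvd_pow_self _ n.succ_ne_zero).trans hd)) hw)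
    · refine Or.inl ⟨wr g f, ⟨⟨f, hf⟩, rfl⟩, hw, ?_⟩
      rw [wr_apply]
      refine dvd_sub (Dvd.dvd.mul_right ?_ _) (((pow_dvd_pow _ n.le_succ).trans hd).mul_right _)
      simpa using pow_sub_one_dvd_derivative_of_pow_dvd hd

theorem wronski (A : Submodule ℂ (Polynomial ℂ)) [FiniteDimensional ℂ A] :
    {y : ℂ | ∃ f ∈ A, f ≠ 0 ∧
      (Polynomial.X - Polynomial.C y) ^ Module.finrank ℂ A ∣ f}.Finite :=
  wronski_aux _ A le_rfl

end Pool.Agent.P.MP_8707bd_ag.Ex
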