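import Mathlib
import Pool.Agent.P.MP_8707bd_ag.Ex.Gen
import Pool.Agent.P.MP_8707bd_ag.Ex.Wronski
import Pool.Agent.P.MP_8707bd_ag.Ex.Semi

/-!
Points clustering at a general height (helper file only).
-/

namespace Pool.Agent.P.MP_8707bd_ag.Ex

open MvPolynomial Win All Irr

lemma cluster_basis (B : Submodule ℂ (Polynomial ℂ)) [FiniteDimensional ℂ B] (y : ℂ)
    (hy : ∀ f ∈ B, (Polynomial.X - Polynomial.C y) ^ Module.finrank ℂ B ∣ f → f = 0) :
    ∃ H : Fin (Module.finrank ℂ B) → Polynomial ℂ, (∀ i, (H i).coeff 0 = 1) ∧ ∀ f ∈ B,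
      Polynomial.taylor y f = ∑ i : Fin (Module.finrank ℂ B),
        (Polynomial.taylor y f).coeff i • (Polynomial.X ^ (i : ℕ) * H i) := by
  let φ : B →ₗ[ℂ] Fin (Module.finrank ℂ B) → ℂ := LinearMap.pi fun i =>
    Polynomial.lcoeff ℂ i ∘ₗ Polynomial.taylor y ∘ₗ B.subtype
  have hφ : ∀ f i, φ f i = (Polynomial.taylor y f.1).coeff i := fun _ _ => rfl
  have h1 : Function.Injective φ := by
    rw [← LinearMap.ker_eq_bot, eq_bot_iff]
    intro f hf
    refine Subtype.ext (hy f.1 f.2 ?_)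
    obtain ⟨q, hq⟩ : Polynomial.X ^ Module.finrank ℂ B ∣ Polynomial.taylor y f.1 :=
      Polynomial.X_pow_dvd_iff.2 fun d hd => congrFun (LinearMap.mem_ker.1 hf) ⟨d, hd⟩
    refine ⟨Polynomial.taylor (-y) q, ?_⟩
    have := congrArg (Polynomial.taylor (-y)) hq
    rwa [Polynomial.taylor_taylor, neg_add_cancel, Polynomial.taylor_zero, Polynomial.taylor_mul,
      Polynomial.taylor_X_pow, map_neg, ← sub_eq_add_neg] at this
  have h2 : Function.Surjective φ :=
    (LinearMap.injective_iff_surjective_of_finrank_eq_finrank (by simp)).1 h1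
  choose g hg using fun i => h2 (Pi.single i 1)
  have h3 : ∀ i : Fin (Module.finrank ℂ B),
      Polynomial.X ^ (i : ℕ) ∣ Polynomial.taylor y (g i).1 := fun i =>
    Polynomial.X_pow_dvd_iff.2 fun d hd => by
      have := congrFun (hg i) ⟨d, hd.trans i.2⟩
      rwa [hφ, Pi.single_eq_of_ne fun e => hd.ne (congrArg Fin.val e)] at this
  choose H hH using h3
  refine ⟨H, fun i => ?_, fun f hf => ?_⟩
  · have := congrFun (hg i) i
    rw [hφ, hH, Pi.single_eq_same] at this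
    rw [← this, ← Polynomial.coeff_X_pow_mul (H i) i 0, zero_add]
  · have h4 : (⟨f, hf⟩ : B) = ∑ i, φ ⟨f, hf⟩ i • g i := h1 (by
      simp only [map_sum, map_smul, hg]
      ext k
      simp [Finset.sum_apply, Pi.single_apply])
    have h5 := congrArg (fun x : B => Polynomial.taylor y x.1) h4
    simp only [Submodule.coe_sum, Submodule.coe_smul, map_sum, map_smul, hH] at h5
    exact h5

lemma cluster_rec {R : ℕ} {F : MvPolynomial (Fin 2) ℂ} (h : ∀ j, R ≤ j → rowc j F = 0) :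
    F = ∑ j : Fin R, X 0 ^ (j : ℕ) * Polynomial.aeval (X 1) (rowc j F) := by
  let ψ : Polynomial (Polynomial ℂ) →+* MvPolynomial (Fin 2) ℂ :=
    Polynomial.eval₂RingHom (Polynomial.aeval (X 1) : Polynomial ℂ →ₐ[ℂ] _).toRingHom (X 0)
  have h1 : ψ.comp (toPP (L := ℂ)).toRingHom = RingHom.id _ := by
    refine MvPolynomial.ringHom_ext (fun a => by simp [ψ, toPP]) fun i => ?_
    fin_cases i <;> simp [ψ, toPP]
  have h2 : toPP F = ∑ j : Fin R, Polynomial.C (rowc j F) * Polynomial.X ^ (j : ℕ) := by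
    ext1 m
    rw [Polynomial.finsetSum_coeff]
    simp only [Polynomial.coeff_C_mul_X_pow]
    by_cases hm : m < R
    · rw [Finset.sum_eq_single ⟨m, hm⟩, if_pos rfl]
      · rfl
      · exact fun j _ hj => if_neg fun e => hj (Fin.ext e.symm)
      · simp
    · rw [Finset.sum_eq_zero fun j _ => if_neg (by have := j.2; omega)]
      exact h m (by omega)
  have h3 : F = ψ (toPP F) := (congrArg (fun f : _ →+* _ => f F) h1).symm
  refine h3.trans ?_
  rw [h2, map_sum]
  refine Finset.sum_congr rfl fun j _ => ?_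
  rw [map_mul, map_pow, mul_comm]
  simp [ψ]

theorem cluster {ι : Type} [Fintype ι] (R : ℕ) (B : ℕ → Submodule ℂ (Polynomial ℂ))
    (hB : ∀ j, FiniteDimensional ℂ (B j)) (μ : ι → ℕ) (e : ℕ)
    (h : KE (rows R fun j => Module.finrank ℂ (B j)) μ e) :
    ∃ P : ι → Fin 2 → ℂ, FiniteDimensional ℂ ↥(rowSp R B ⊓ vans P μ) ∧
      Module.finrank ℂ ↥(rowSp R B ⊓ vans P μ) ≤ e := by
  classical
  obtain ⟨Φ, hΦ0, hΦ⟩ := gen (rows_finite _ _) h
  obtain ⟨P, hP⟩ := exists_pt Φ hΦ0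
  replace hP := hΦ P hP
  obtain ⟨y, hy⟩ := (Set.finite_iUnion fun j : Fin R => wronski (B j)).exists_notMem
  simp only [Set.mem_iUnion, Set.mem_ofPred_eq, not_exists, not_and] at hy
  choose H hH0 hH using fun j : Fin R =>
    cluster_basis (B j) y fun f hf hd => by_contra fun h0 => hy j f hf h0 hd
  let κ := Σ j : Fin R, Fin (Module.finrank ℂ (B j))
  let θ : κ → MvPolynomial (Fin 2) (Polynomial ℂ) := fun p =>
    X 0 ^ (p.1 : ℕ) * (X 1 ^ (p.2 : ℕ) * Polynomial.aeval (C Polynomial.X * X 1) (H p.1 p.2))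
  have hθ : ∀ t p, sp t (θ p) =
      X 0 ^ (p.1 : ℕ) * (X 1 ^ (p.2 : ℕ) * Polynomial.aeval (C t * X 1) (H p.1 p.2)) := by
    intro t p
    simp only [sp, θ, AlgHom.toLinearMap_apply, map_mul, map_pow, ← Polynomial.aeval_algHom_apply]
    simp
  let Θ : (κ → ℂ) →ₗ[ℂ] MvPolynomial (Fin 2) (Polynomial ℂ) := Fintype.linearCombination ℂ θ
  have hΘ : ∀ t u, sp t (Θ u) = ∑ p, u p • sp t (θ p) := fun t u => by
    simp [Θ, Fintype.linearCombination_apply]
  obtain ⟨t, ht, h1⟩ := semi (fun _ : ι => Θ) P μ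
  let s : κ → Fin 2 →₀ ℕ := fun p => Finsupp.single 0 (p.1 : ℕ) + Finsupp.single 1 (p.2 : ℕ)
  have hs0 : ∀ p, s p 0 = p.1 := fun p => by simp [s]
  have hs1 : ∀ p, s p 1 = p.2 := fun p => by simp [s]
  have hs : Function.Injective s := by
    rintro ⟨j, i⟩ ⟨j', i'⟩ e
    obtain rfl : j = j' := Fin.ext ((hs0 ⟨j, i⟩).symm.trans (e ▸ hs0 ⟨j', i'⟩))
    obtain rfl : i = i' := Fin.ext ((hs1 ⟨j, i⟩).symm.trans (e ▸ hs1 ⟨j, i'⟩))
    rfl
  have h0 : ∀ u, sp 0 (Θ u) = ∑ p, monomial (s p) (u p) := fun u => by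
    rw [hΘ]
    refine Finset.sum_congr rfl fun p _ => ?_
    rw [hθ, map_zero, zero_mul, ← Polynomial.coeff_zero_eq_aeval_zero', hH0, map_one, mul_one,
      X_pow_eq_monomial, X_pow_eq_monomial, monomial_mul, smul_monomial]
    simp [s]
  have h2 : Module.finrank ℂ (kerS (fun _ : ι => Θ) P μ 0) ≤ e := by
    have := sys_fin (rows_finite R fun j => Module.finrank ℂ (B j)) P μ
    refine le_trans (LinearMap.finrank_le_finrank_of_injective (f := (sp 0 ∘ₗ Θ).restrict
      (p := kerS (fun _ : ι => Θ) P μ 0) fun u hu => ?_) ?_) hP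
    · refine mem_sys.2 ⟨fun r hr => ?_, mem_kerS.1 hu⟩
      rw [LinearMap.comp_apply, h0] at hr
      obtain ⟨p, -, hp⟩ := Finset.mem_biUnion.1 (support_sum hr)
      obtain rfl := Finset.mem_singleton.1 (support_monomial_subset hp)
      exact ⟨hs0 p ▸ p.1.2, by rw [hs0, hs1]; exact p.2.2⟩
    · rw [← LinearMap.ker_eq_bot, eq_bot_iff]
      intro u hu
      have h3 : sp 0 (Θ u.1) = 0 := congrArg Subtype.val (LinearMap.mem_ker.1 hu)
      refine Subtype.ext (funext fun p => ?_)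
      have h4 := congrArg (coeff (s p)) h3
      rw [h0, coeff_sum, Finset.sum_eq_single p] at h4
      · simpa using h4
      · exact fun q _ hq => by rw [coeff_monomial, if_neg fun e => hq (hs e)]
      · simp
  let σ : MvPolynomial (Fin 2) ℂ →ₐ[ℂ] MvPolynomial (Fin 2) ℂ := aeval ![X 0, C t * X 1 + C y]
  let Ψ : MvPolynomial (Fin 2) ℂ →ₗ[ℂ] κ → ℂ := LinearMap.pi fun p =>
    t ^ (p.2 : ℕ) • Polynomial.lcoeff ℂ p.2 ∘ₗ Polynomial.taylor y ∘ₗ rowc p.1
  have hΨ : ∀ F p, Ψ F p = t ^ (p.2 : ℕ) * (Polynomial.taylor y (rowc p.1 F)).coeff p.2 :=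
    fun _ _ => rfl
  have h5 : ∀ F ∈ rowSp R B, sp t (Θ (Ψ F)) = σ F := by
    intro F hF
    obtain ⟨a1, a2⟩ := mem_rowSp.1 hF
    conv_rhs => rw [cluster_rec a2]
    rw [hΘ, map_sum, Fintype.sum_sigma]
    refine Finset.sum_congr rfl fun j _ => ?_
    have a3 : σ (Polynomial.aeval (X 1) (rowc j F)) =
        Polynomial.aeval (C t * X 1) (Polynomial.taylor y (rowc j F)) := by
      rw [← Polynomial.aeval_algHom_apply, Polynomial.taylor_apply, Polynomial.aeval_comp]
      simp [σ]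
    rw [map_mul, a3, hH j _ (a1 j j.2), map_sum, Finset.mul_sum]
    refine Finset.sum_congr rfl fun i _ => ?_
    rw [hθ, hΨ]
    simp only [σ, map_pow, aeval_X, Matrix.cons_val_zero, map_smul, map_mul, Polynomial.aeval_X,
      smul_eq_C_mul, mul_pow]
    ring
  let Q : ι → Fin 2 → ℂ := fun i => ![P i 0, t * P i 1 + y]
  have h6 : ∀ F ∈ rowSp R B ⊓ vans Q μ, Ψ F ∈ kerS (fun _ : ι => Θ) P μ t := by
    intro F hF
    refine mem_kerS.2 fun i => ?_
    rw [h5 F hF.1]
    refine pow_map_mem (σ : MvPolynomial (Fin 2) ℂ →+* MvPolynomial (Fin 2) ℂ) _ _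
      (fun a ha => ?_) _ F (mem_vans.1 hF.2 i)
    have : (eval (P i)).comp (σ : MvPolynomial (Fin 2) ℂ →+* MvPolynomial (Fin 2) ℂ) =
        eval (Q i) := by
      refine MvPolynomial.ringHom_ext (fun a => by simp [σ]) fun k => ?_
      fin_cases k <;> simp [σ, Q]
    exact (congrArg (fun f : _ →+* _ => f a) this).trans ha
  have h7 : Function.Injective (Ψ.restrict h6) := by
    rw [← LinearMap.ker_eq_bot, eq_bot_iff]
    intro F hF
    have a0 : Ψ F.1 = 0 := congrArg Subtype.val (LinearMap.mem_ker.1 hF)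
    obtain ⟨a1, a2⟩ := mem_rowSp.1 F.2.1
    refine Subtype.ext ((cluster_rec a2).trans (Finset.sum_eq_zero fun j _ => ?_))
    have a3 : Polynomial.taylor y (rowc j F.1) = 0 := by
      rw [hH j _ (a1 j j.2)]
      refine Finset.sum_eq_zero fun i _ => ?_
      have := congrFun a0 ⟨j, i⟩
      rw [hΨ, Pi.zero_apply, mul_eq_zero, or_iff_right (pow_ne_zero _ ht)] at this
      rw [this, zero_smul]
    rw [Polynomial.taylor_injective y (a3.trans (map_zero _).symm)]
    simp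
  exact ⟨Q, Module.Finite.of_injective _ h7,
    (LinearMap.finrank_le_finrank_of_injective h7).trans (h1.trans h2)⟩

end Pool.Agent.P.MP_8707bd_ag.Ex
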