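import Mathlib
import Pool.Agent.P.MP_8707bd_ag.Ex.Defs
import Pool.Agent.P.MP_8707bd_ag.Win.ContM

/-!
The continuum forms of the tree criterion at the scale `m + 1 / 2` (helper file only).
-/

namespace Pool.Agent.P.MP_8707bd_ag.Ex

open MvPolynomial Win All Irr

private lemma exists_eps2 {ι : Type} [Fintype ι] {p : ℕ} (J : ℕ) (M : ℝ) (hM : 0 < M)
    (g : ι → ℝ → Fin p → ℝ) (h : ι → Fin p → ℝ) :
    ∃ ε : ℝ, 0 < ε ∧ ∀ t, ∀ j ≤ J, ∀ j' ≤ J,
      (∑ i : Fin p, ε ^ (i : ℕ) * h t i) * j +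
          ∑ i : Fin p, ε ^ (i : ℕ) * (M * g t ((j + 1 / 2) / M) i) ≤
        (∑ i : Fin p, ε ^ (i : ℕ) * h t i) * j' +
          ∑ i : Fin p, ε ^ (i : ℕ) * (M * g t ((j' + 1 / 2) / M) i) →
      LexLe (fun i => h t i * (((j : ℝ) + 1 / 2) / M) + g t ((j + 1 / 2) / M) i)
        (fun i => h t i * (((j' : ℝ) + 1 / 2) / M) + g t ((j' + 1 / 2) / M) i) := by
  obtain ⟨ε, hε, hε2⟩ := exists_eps J M hM (fun t x => g t (x + 1 / 2 / M)) h
  refine ⟨ε, hε, fun t j hj j' hj' hle => ?_⟩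
  have h1 := hε2 t j hj j' hj'
  simp only [← add_div] at h1
  have h2 := h1 hle
  intro i hi
  have h3 := h2 i fun a ha => by
    have h4 := hi a ha
    simp only [add_div, mul_add] at h4 ⊢
    linarith
  simp only [add_div, mul_add] at h3 ⊢
  linarith

private lemma card_le_cov {R : ℝ → Prop} {len M : ℝ} (hM : 0 < M) (h : Irr.Cov R len)
    (s : Finset ℕ) (hs : ∀ j ∈ s, R ((j + 1 / 2) / M)) : (s.card : ℝ) ≤ M * len + 1 := by
  obtain ⟨h0, lo, h⟩ := h
  refine card_le_of_cov (R := fun y => R (y + 1 / 2 / M)) hM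
    ⟨h0, lo - 1 / 2 / M, fun y hy => ?_⟩ s fun j hj => ?_
  · obtain ⟨h1, h2⟩ := h _ hy
    constructor <;> linarith
  · simpa only [← add_div] using hs j hj

private lemma card_le_covW {R : ℝ → Prop} {W len M : ℝ} {n : ℕ} (hM : 0 < M)
    (hn : (n : ℝ) = W * M) (h : CovW W R len) (s : Finset ℕ) (hne : s.Nonempty)
    (hs : ∀ j ∈ s, j < n ∧ R ((j + 1 / 2) / M)) : (s.card : ℝ) ≤ M * len + 1 / 2 := by
  rcases h with h | h
  · have h1 := h _ (hs _ (s.max'_mem hne)).2
    rw [div_le_iff₀ hM] at h1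
    have h2 : s.card ≤ s.max' hne + 1 := by
      rw [← Finset.card_range (s.max' hne + 1)]
      exact Finset.card_le_card fun j hj =>
        Finset.mem_range.2 (Nat.lt_succ_of_le (s.le_max' j hj))
    have h3 : (s.card : ℝ) ≤ s.max' hne + 1 := by exact_mod_cast h2
    linarith
  · obtain ⟨h0, h1⟩ := hs _ (s.min'_mem hne)
    have h1 := h _ h1
    rw [le_div_iff₀ hM] at h1
    have h2 : s.card ≤ n - s.min' hne := by
      rw [← Nat.card_Ico]
      exact Finset.card_le_card fun j hj => Finset.mem_Ico.2 ⟨s.min'_le j hj, (hs j hj).1⟩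
    have h3 : s.card + s.min' hne ≤ n := by omega
    have h4 : (s.card : ℝ) + s.min' hne ≤ n := by exact_mod_cast h3
    linarith

private lemma le_card_covL {R : ℝ → Prop} {len M : ℝ} (hM : 0 < M) (h : CovL R len)
    (h0 : ∀ y, R y → 0 ≤ y) (s : Finset ℕ) (hs : ∀ j : ℕ, R ((j + 1 / 2) / M) → j ∈ s) :
    M * len - 1 ≤ s.card := by
  obtain ⟨lo, h⟩ := h
  have hc : 0 < 1 / 2 / M := by positivity
  have h1 := le_card_of_covL (R := fun y => R (y - 1 / 2 / M)) (len := len) hM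
    ⟨lo + 1 / 2 / M, fun y h1 h2 => h _ (by linarith) (by linarith)⟩
    (fun y hy => by linarith [h0 _ hy]) (s.image (· + 1)) fun j hj => by
      rcases j with _ | j
      · have h2 := h0 _ hj
        simp only [Nat.cast_zero, zero_div] at h2
        linarith
      · refine Finset.mem_image_of_mem _ (hs j ?_)
        have h2 : ((j + 1 : ℕ) : ℝ) / M - 1 / 2 / M = (j + 1 / 2) / M := by
          push_cast
          ring
        rwa [h2] at hj
  rwa [Finset.card_image_of_injective _ (add_left_injective 1)] at h1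

private lemma le_card_covLW {R : ℝ → Prop} {W len M : ℝ} {n : ℕ} (hM : 0 < M)
    (hn : (n : ℝ) = W * M) (h : CovLW W R len) (s : Finset ℕ)
    (hs : ∀ j : ℕ, R ((j + 1 / 2) / M) → j ∈ s) : M * len - 1 / 2 ≤ s.card := by
  obtain ⟨hl, h⟩ := h
  refine (Nat.le_ceil _).trans (Nat.cast_le.2 ?_)
  rcases h with h | h
  · rw [← Finset.card_range ⌈M * len - 1 / 2⌉₊]
    refine Finset.card_le_card fun j hj => hs j (h _ (by positivity) ?_)
    have h1 := Nat.lt_ceil.1 (Finset.mem_range.1 hj)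
    rw [div_lt_iff₀ hM]
    linarith
  · have h1 : ⌈M * len - 1 / 2⌉₊ ≤ n := by
      rw [Nat.ceil_le, hn]
      nlinarith [mul_le_mul_of_nonneg_left hl hM.le]
    have h2 : (Finset.Ico (n - ⌈M * len - 1 / 2⌉₊) n).card = ⌈M * len - 1 / 2⌉₊ := by
      rw [Nat.card_Ico]
      omega
    rw [← h2]
    refine Finset.card_le_card fun j hj => hs j (h _ ?_ ?_)
    · obtain ⟨h3, h4⟩ := Finset.mem_Ico.1 hj
      have h5 : n - 1 - j < ⌈M * len - 1 / 2⌉₊ := by omega
      have h6 := Nat.lt_ceil.1 h5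
      have h7 : ((n - 1 - j : ℕ) : ℝ) = n - 1 - j := by
        rw [Nat.sub_sub, Nat.cast_sub (by omega)]
        push_cast
        ring
      rw [lt_div_iff₀ hM]
      linarith
    · have h4 : j + 1 ≤ n := (Finset.mem_Ico.1 hj).2
      have h5 : (j : ℝ) + 1 ≤ n := by exact_mod_cast h4
      rw [div_lt_iff₀ hM]
      linarith

private lemma ke_rows_zero {ι : Type} (len : ℕ → ℕ) (μ : ι → ℕ) : KE (rows 0 len) μ 0 :=
  (ke_empty μ 0).mono fun _ hs => absurd hs.1 (Nat.not_lt_zero _)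

theorem cont_low2 {ι : Type} [Fintype ι] (W : ℝ) {p : ℕ} (s : ℕ)
    (hs : 0 < s) (N ph : ι → ℕ) (hph : ∀ t, ph t < s) (par : ℕ → ℕ)
    (hpar : ∀ k, 0 < k → k < s → par k < k) (lev : ℕ → ℕ)
    (hlev : ∀ k, 0 < k → k < s → lev k < p) (g : ℕ → ℝ → Fin p → ℝ) (E : ℕ → ℝ → ℝ)
    (hg : ∀ k, 0 < k → k < s → ∀ x, ∀ i : Fin p,
      g k x i = g (par k) x i + if (i : ℕ) = lev k then E k x else 0)
    (h : ι → Fin p → ℝ) (ℓ : ι → ℝ → ℝ) (lo : ι → ℝ)
    (hℓ : ∀ t x, 0 ≤ x → x ≤ W → 0 ≤ lo t ∧ (ℓ t x ≤ 0 ∨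
      (1 / 2 ≤ lo t ∧ Irr.Cov (RankRel (g (ph t)) (h t) x) (1 - ℓ t x)) ∨
      CovW W (RankRel (g (ph t)) (h t) x) (1 - ℓ t x)))
    (hk : ∀ k, 0 < k → k < s → ∀ x, 0 ≤ x → x ≤ W → E k x ≤
      (∑ t, if ph t = k then N t * ℓ t x else 0) +
        ∑ k' ∈ Finset.Ioo 0 s, if par k' = k then E k' x else 0)
    (Lo : ℕ → ℝ) (hLo : ∀ k < s, (∑ t, if ph t = k then N t * lo t else 0) +
        (∑ k' ∈ Finset.Ioo 0 s, if par k' = k then Lo k' else 0) ≤ Lo k)
    (m R : ℕ) (hR : (R : ℝ) = W * (m + 1 / 2)) (len : ℕ → ℕ)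
    (hroot : ∀ j < R, (len j : ℝ) + Lo 0 ≤ (m + 1 / 2) *
      ((∑ t, if ph t = 0 then N t * ℓ t ((j + 1 / 2) / (m + 1 / 2)) else 0) +
        ∑ k' ∈ Finset.Ioo 0 s, if par k' = 0 then E k' ((j + 1 / 2) / (m + 1 / 2)) else 0)) :
    KE (rows R len) (fun _ : Σ t, Fin (N t) => m) 0 := by
  classical
  rcases R with _ | J
  · exact ke_rows_zero _ _
  rw [rows_eq]
  set M : ℝ := (m : ℝ) + 1 / 2 with hMdef
  have hM : 0 < M := by rw [hMdef]; positivity
  obtain ⟨ε, hε, hε2⟩ := exists_eps2 J M hM (fun t => g (ph t)) h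
  obtain ⟨kap, -, hkap⟩ := exists_rec s par hpar fun k => ε ^ lev k * (-Lo k)
  set G : ℕ → ℕ → ℝ :=
    fun k j => ∑ i : Fin p, ε ^ (i : ℕ) * (M * g k ((j + 1 / 2) / M) i) + kap k with hG
  set H : ι → ℝ := fun t => ∑ i : Fin p, ε ^ (i : ℕ) * h t i with hH
  have hx0 : ∀ j : ℕ, (0 : ℝ) ≤ (j + 1 / 2) / M := fun j => by positivity
  have hxL : ∀ j ≤ J, ((j : ℝ) + 1 / 2) / M ≤ W := by
    intro j hj
    rw [div_le_iff₀ hM, ← hR]
    have : (j : ℝ) ≤ J := by exact_mod_cast hj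
    push_cast
    linarith
  have hrk : ∀ t, ∀ j ≤ J, M * ℓ t ((j + 1 / 2) / M) - lo t ≤
      ((m - rk J (G (ph t)) (H t) j : ℕ) : ℝ) := by
    intro t j hj
    have h2 : m ≤ (m - rk J (G (ph t)) (H t) j) + rk J (G (ph t)) (H t) j := by omega
    have h3 : (m : ℝ) ≤ ((m - rk J (G (ph t)) (H t) j : ℕ) : ℝ) + rk J (G (ph t)) (H t) j := by
      exact_mod_cast h2
    have h5 : (0 : ℝ) ≤ ((m - rk J (G (ph t)) (H t) j : ℕ) : ℝ) := by positivity
    have hmem : ∀ j' ∈ insert j ((Finset.range (J + 1)).filter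
        fun j' : ℕ => j' ≠ j ∧ H t * j' + G (ph t) j' ≤ H t * j + G (ph t) j), j' < J + 1 ∧
        RankRel (g (ph t)) (h t) ((j + 1 / 2) / M) ((j' + 1 / 2) / M) := by
      intro j' hj'
      rcases Finset.mem_insert.1 hj' with rfl | hj'
      · exact ⟨by omega, hx0 _, fun i _ => le_rfl⟩
      simp only [Finset.mem_filter, Finset.mem_range] at hj'
      refine ⟨hj'.1, hx0 _, hε2 t j' (by omega) j hj ?_⟩
      have h6 := hj'.2.2
      simp only [hG, hH] at h6
      linarith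
    have hcard : ((insert j ((Finset.range (J + 1)).filter
        fun j' : ℕ => j' ≠ j ∧ H t * j' + G (ph t) j' ≤ H t * j + G (ph t) j)).card : ℝ) =
        rk J (G (ph t)) (H t) j + 1 := by
      rw [Finset.card_insert_of_notMem (by simp)]
      push_cast
      rfl
    obtain ⟨h0, h4 | ⟨h4, ht⟩ | ht⟩ := hℓ t _ (hx0 j) (hxL j hj)
    · nlinarith [mul_nonneg hM.le (neg_nonneg.2 h4)]
    · have h1 := card_le_cov hM ht _ fun j' hj' => (hmem j' hj').2
      rw [hcard, mul_sub] at h1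
      linarith
    · have h1 := card_le_covW hM hR ht _ (Finset.insert_nonempty _ _) hmem
      rw [hcard, mul_sub] at h1
      linarith
  have hkey : ∀ k < s, ∀ j ≤ J,
      M * ((∑ t, if ph t = k then N t * ℓ t ((j + 1 / 2) / M) else 0) +
        ∑ k' ∈ Finset.Ioo 0 s, if par k' = k then E k' ((j + 1 / 2) / M) else 0) - Lo k ≤
      ((0 + (∑ a : (Σ t, Fin (N t)), if ph a.1 = k then m - rk J (G k) (H a.1) j else 0) +
        ∑ k' ∈ Finset.Ioo 0 s, if par k' = k then
          ⌈M * E k' ((j + 1 / 2) / M) + -Lo k'⌉₊ else 0 : ℕ) : ℝ) := by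
    intro k hks j hj
    have h1 : M * (∑ t, if ph t = k then N t * ℓ t ((j + 1 / 2) / M) else 0) -
        (∑ t, if ph t = k then N t * lo t else 0) ≤
        ((∑ a : (Σ t, Fin (N t)), if ph a.1 = k then m - rk J (G k) (H a.1) j else 0 : ℕ) : ℝ) := by
      rw [Nat.cast_sum, Finset.mul_sum, Fintype.sum_sigma, ← Finset.sum_sub_distrib]
      refine Finset.sum_le_sum fun t _ => ?_
      simp only [Finset.sum_const, Finset.card_univ, Fintype.card_fin, nsmul_eq_mul]
      split_ifs with hp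
      · have h5 := hrk t j hj
        rw [hp] at h5
        have hNt : (0 : ℝ) ≤ N t := by positivity
        nlinarith [mul_le_mul_of_nonneg_left h5 hNt]
      · simp
    have h2 : M * (∑ k' ∈ Finset.Ioo 0 s, if par k' = k then E k' ((j + 1 / 2) / M) else 0) -
        (∑ k' ∈ Finset.Ioo 0 s, if par k' = k then Lo k' else 0) ≤
        ((∑ k' ∈ Finset.Ioo 0 s, if par k' = k then
          ⌈M * E k' ((j + 1 / 2) / M) + -Lo k'⌉₊ else 0 : ℕ) : ℝ) := by
      rw [Nat.cast_sum, Finset.mul_sum, ← Finset.sum_sub_distrib]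
      refine Finset.sum_le_sum fun k' _ => ?_
      split_ifs
      · exact (sub_eq_add_neg _ _).le.trans (Nat.le_ceil _)
      · simp
    have h3 := hLo k hks
    rw [zero_add, Nat.cast_add, mul_add]
    linarith
  have key := treeM J s (fun j => Finset.range (len j)) hs (fun _ : (Σ t, Fin (N t)) => m)
    (fun a => ph a.1) (fun a => hph a.1) par hpar (fun k => ε ^ lev k)
    (fun k _ _ => pow_pos hε _) G (fun k j => M * E k ((j + 1 / 2) / M) + -Lo k)
    (fun k hk0 hks j _ => by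
      simp only [hG]
      rw [price_rec ε M (lev k) (hlev k hk0 hks) _ _ _ (hg k hk0 hks _), hkap k hk0 hks]
      ring)
    (fun a => H a.1) (fun _ _ => 0)
    (fun j hj => by
      have h1 := hroot j (by omega)
      have h2 := hkey 0 hs j hj
      rw [Finset.card_range]
      exact_mod_cast (le_sub_iff_add_le.2 h1).trans h2)
    (fun k hk0 hks j hj => Nat.ceil_le.2 (by
      have h1 := mul_le_mul_of_nonneg_left (hk k hk0 hks _ (hx0 j) (hxL j hj)) hM.le
      have h2 := hkey k hks j hj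
      linarith))
  simpa using key

theorem cont_up2 {ι : Type} [Fintype ι] (W : ℝ) {p : ℕ} (s : ℕ)
    (hs : 0 < s) (N ph : ι → ℕ) (hph : ∀ t, ph t < s) (par : ℕ → ℕ)
    (hpar : ∀ k, 0 < k → k < s → par k < k) (lev : ℕ → ℕ)
    (hlev : ∀ k, 0 < k → k < s → lev k < p) (g : ℕ → ℝ → Fin p → ℝ) (E : ℕ → ℝ → ℝ)
    (hg : ∀ k, 0 < k → k < s → ∀ x, ∀ i : Fin p,
      g k x i = g (par k) x i + if (i : ℕ) = lev k then E k x else 0)
    (h : ι → Fin p → ℝ) (ℓ : ι → ℝ → ℝ) (lo : ι → ℝ) (hW : ∀ _ : ι, 1 ≤ W)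
    (hℓ : ∀ t x, 0 ≤ x → x ≤ W → 0 ≤ lo t ∧ 0 ≤ ℓ t x ∧
      ((1 / 2 ≤ lo t ∧ CovL (Cheap W (g (ph t)) (h t) x) (1 - ℓ t x)) ∨
      CovLW W (Cheap W (g (ph t)) (h t) x) (1 - ℓ t x)))
    (hE : ∀ k, 0 < k → k < s → ∀ x, 0 ≤ x → x ≤ W → 0 ≤ E k x)
    (hk : ∀ k, 0 < k → k < s → ∀ x, 0 ≤ x → x ≤ W →
      ((∑ t, if ph t = k then N t * ℓ t x else 0) +
        ∑ k' ∈ Finset.Ioo 0 s, if par k' = k then E k' x else 0) ≤ E k x)
    (Lo : ℕ → ℝ) (hLo0 : ∀ k, 0 ≤ Lo k)
    (hLo : ∀ k < s, (∑ t, if ph t = k then N t * lo t else 0) +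
        (∑ k' ∈ Finset.Ioo 0 s, if par k' = k then Lo k' else 0) ≤ Lo k)
    (m R : ℕ) (hR : (R : ℝ) = W * (m + 1 / 2)) (len : ℕ → ℕ)
    (hroot : ∀ j < R, (m + 1 / 2) *
      ((∑ t, if ph t = 0 then N t * ℓ t ((j + 1 / 2) / (m + 1 / 2)) else 0) +
        ∑ k' ∈ Finset.Ioo 0 s, if par k' = 0 then E k' ((j + 1 / 2) / (m + 1 / 2)) else 0) +
        Lo 0 + 2 ^ s ≤ (len j : ℝ)) :
    ∃ e, e + (∑ t, N t) * (m + 1).choose 2 = ∑ j ∈ Finset.range R, len j ∧
      KE (rows R len) (fun _ : Σ t, Fin (N t) => m) e := by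
  classical
  rcases R with _ | J
  · refine ⟨0, ?_, ke_rows_zero _ _⟩
    have h1 : ∑ t, N t = 0 := Finset.sum_eq_zero fun t _ => by
      exfalso
      have h2 := hW t
      have h3 : (0 : ℝ) < W * (m + 1 / 2) := by positivity
      rw [← hR] at h3
      simp at h3
    simp [h1]
  rw [rows_eq]
  set M : ℝ := (m : ℝ) + 1 / 2 with hMdef
  have hM : 0 < M := by rw [hMdef]; positivity
  obtain ⟨ε, hε, hε2⟩ := exists_eps2 J M hM (fun t => g (ph t)) h
  obtain ⟨kap, -, hkap⟩ :=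
    exists_rec s par hpar fun k => ε ^ lev k * (Lo k + (2 ^ (s - k) - 1))
  set G : ℕ → ℕ → ℝ :=
    fun k j => ∑ i : Fin p, ε ^ (i : ℕ) * (M * g k ((j + 1 / 2) / M) i) + kap k with hG
  set H0 : ι → ℝ := fun t => ∑ i : Fin p, ε ^ (i : ℕ) * h t i with hH0
  obtain ⟨θ, hθ⟩ := exists_theta J H0 fun t => G (ph t)
  set H : ι → ℝ := fun t => H0 t + θ with hH
  set E' : ℕ → ℕ → ℝ :=
    fun k j => M * E k ((j + 1 / 2) / M) + (Lo k + (2 ^ (s - k) - 1)) with hE'
  have hx0 : ∀ j : ℕ, (0 : ℝ) ≤ (j + 1 / 2) / M := fun j => by positivity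
  have hxL : ∀ j ≤ J, ((j : ℝ) + 1 / 2) / M ≤ W := by
    intro j hj
    rw [div_le_iff₀ hM, ← hR]
    have : (j : ℝ) ≤ J := by exact_mod_cast hj
    push_cast
    linarith
  have hrk : ∀ t, ∀ j ≤ J,
      ((m - rk J (G (ph t)) (H t) j : ℕ) : ℝ) ≤ M * ℓ t ((j + 1 / 2) / M) + lo t := by
    intro t j hj
    obtain ⟨h0, h4, ht⟩ := hℓ t _ (hx0 j) (hxL j hj)
    have hmem : ∀ j' : ℕ, Cheap W (g (ph t)) (h t) ((j + 1 / 2) / M) ((j' + 1 / 2) / M) →
        j' ∈ (Finset.range (J + 1)).filter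
          fun j' : ℕ => j' ≠ j ∧ H t * j' + G (ph t) j' ≤ H t * j + G (ph t) j := by
      intro j' hj'
      obtain ⟨_, h5, h6⟩ := hj'
      have h7 : j' ≤ J := by
        rw [div_le_iff₀ hM, ← hR] at h5
        have h8 : (j' : ℝ) < (J + 1 : ℕ) := by linarith
        have h9 : j' < J + 1 := by exact_mod_cast h8
        omega
      refine Finset.mem_filter.2 ⟨Finset.mem_range.2 (by omega), ?_, ?_⟩
      · rintro rfl
        exact h6 fun i _ => le_rfl
      · refine ((hθ t j hj j' h7).1 ?_).le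
        have h8 := mt (hε2 t j hj j' h7) h6
        simp only [hG, hH0]
        linarith [not_le.1 h8]
    have h1 : m - M * ℓ t ((j + 1 / 2) / M) - lo t ≤ (rk J (G (ph t)) (H t) j : ℝ) := by
      rcases ht with ⟨h5, ht⟩ | ht
      · have h6 : M * (1 - ℓ t ((j + 1 / 2) / M)) - 1 ≤ (rk J (G (ph t)) (H t) j : ℝ) :=
          le_card_covL hM ht (fun y hy => hy.1) _ hmem
        rw [mul_sub] at h6
        linarith
      · have h6 : M * (1 - ℓ t ((j + 1 / 2) / M)) - 1 / 2 ≤ (rk J (G (ph t)) (H t) j : ℝ) :=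
          le_card_covLW hM hR ht _ hmem
        rw [mul_sub] at h6
        linarith
    rcases le_or_gt m (rk J (G (ph t)) (H t) j) with h2 | h2
    · rw [Nat.sub_eq_zero_of_le h2, Nat.cast_zero]
      positivity
    · rw [Nat.cast_sub h2.le]
      linarith
  set P : ℕ → ℕ → ℕ := fun k j => ∑ a : (Σ t, Fin (N t)),
    if ph a.1 = k then m - rk J (G k) (H a.1) j else 0 with hP
  set C : ℕ → ℕ → ℕ := fun k j =>
    ∑ k' ∈ Finset.Ioo 0 s, if par k' = k then ⌈E' k' j⌉₊ else 0 with hC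
  have hkey : ∀ k < s, ∀ j ≤ J, ((P k j + C k j : ℕ) : ℝ) ≤
      M * ((∑ t, if ph t = k then N t * ℓ t ((j + 1 / 2) / M) else 0) +
        ∑ k' ∈ Finset.Ioo 0 s, if par k' = k then E k' ((j + 1 / 2) / M) else 0) + Lo k +
        (2 ^ (s - k) - 2) := by
    intro k hks j hj
    have h1 : (P k j : ℝ) ≤ M * (∑ t, if ph t = k then N t * ℓ t ((j + 1 / 2) / M) else 0) +
        ∑ t, if ph t = k then N t * lo t else 0 := by
      simp only [hP]
      rw [Nat.cast_sum, Finset.mul_sum, Fintype.sum_sigma, ← Finset.sum_add_distrib]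
      refine Finset.sum_le_sum fun t _ => ?_
      simp only [Finset.sum_const, Finset.card_univ, Fintype.card_fin, nsmul_eq_mul]
      split_ifs with hp
      · have h5 := hrk t j hj
        rw [hp] at h5
        have hNt : (0 : ℝ) ≤ N t := by positivity
        nlinarith [mul_le_mul_of_nonneg_left h5 hNt]
      · simp
    have h2 : (C k j : ℝ) ≤
        M * (∑ k' ∈ Finset.Ioo 0 s, if par k' = k then E k' ((j + 1 / 2) / M) else 0) +
        (∑ k' ∈ Finset.Ioo 0 s, if par k' = k then Lo k' else 0) +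
        ∑ k' ∈ Finset.Ioo 0 s, if par k' = k then (2 : ℝ) ^ (s - k') else 0 := by
      simp only [hC]
      rw [Nat.cast_sum, Finset.mul_sum, ← Finset.sum_add_distrib, ← Finset.sum_add_distrib]
      refine Finset.sum_le_sum fun k' hk' => ?_
      obtain ⟨h3, h4⟩ := Finset.mem_Ioo.1 hk'
      split_ifs with hp
      · have h5 := hE k' h3 h4 _ (hx0 j) (hxL j hj)
        have h6 : (1 : ℝ) ≤ 2 ^ (s - k') := one_le_pow₀ (by norm_num)
        have h7 : 0 ≤ E' k' j := by
          simp only [hE']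
          nlinarith [mul_nonneg hM.le h5, hLo0 k']
        have h8 := Nat.ceil_lt_add_one h7
        simp only [hE'] at h8 ⊢
        linarith
      · simp
    have h3 : (∑ k' ∈ Finset.Ioo 0 s, if par k' = k then (2 : ℝ) ^ (s - k') else 0) ≤
        2 ^ (s - k) - 2 := by
      rw [← sum_pow_le s k hks, ← Finset.sum_filter]
      refine Finset.sum_le_sum_of_subset_of_nonneg (fun k' hk' => ?_) fun _ _ _ => by positivity
      obtain ⟨h4, h5⟩ := Finset.mem_filter.1 hk'
      obtain ⟨h6, h7⟩ := Finset.mem_Ioo.1 h4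
      exact Finset.mem_Ioo.2 ⟨h5 ▸ hpar k' h6 h7, h7⟩
    have h4 := hLo k hks
    rw [Nat.cast_add, mul_add]
    linarith
  set T : ℕ → ℕ → ℕ := fun k j => if k = 0 then len j else ⌈E' k j⌉₊ with hT
  have hle : ∀ k < s, ∀ j ≤ J, P k j + C k j ≤ T k j := by
    intro k hks j hj
    have h1 := hkey k hks j hj
    have h2 : ((P k j + C k j : ℕ) : ℝ) ≤ T k j := by
      simp only [hT]
      split_ifs with h0
      · subst h0
        have h3 := hroot j (by omega)
        rw [Nat.sub_zero] at h1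
        linarith
      · have h3 := mul_le_mul_of_nonneg_left
          (hk k (Nat.pos_of_ne_zero h0) hks _ (hx0 j) (hxL j hj)) hM.le
        have h4 := Nat.le_ceil (E' k j)
        simp only [hE'] at h4 ⊢
        linarith
    exact_mod_cast h2
  set x : ℕ → ℕ → ℕ := fun k j => T k j - (P k j + C k j) with hx
  refine ⟨∑ k ∈ Finset.range s, ∑ j ∈ Finset.range (J + 1), x k j, ?_, ?_⟩
  · have h1 : ∀ j ≤ J, ∑ k ∈ Finset.range s, x k j +
        ∑ a : (Σ t, Fin (N t)), (m - rk J (G (ph a.1)) (H a.1) j) = len j := by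
      intro j hj
      have e1 : ∑ k ∈ Finset.range s, x k j + (∑ k ∈ Finset.range s, P k j +
          ∑ k ∈ Finset.range s, C k j) = ∑ k ∈ Finset.range s, T k j := by
        rw [← Finset.sum_add_distrib, ← Finset.sum_add_distrib]
        refine Finset.sum_congr rfl fun k hk' => ?_
        have := hle k (Finset.mem_range.1 hk') j hj
        simp only [hx]
        omega
      have e2 : ∑ k ∈ Finset.range s, P k j =
          ∑ a : (Σ t, Fin (N t)), (m - rk J (G (ph a.1)) (H a.1) j) := by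
        simp only [hP]
        rw [Finset.sum_comm]
        refine Finset.sum_congr rfl fun a _ => ?_
        rw [Finset.sum_ite_eq, if_pos (Finset.mem_range.2 (hph a.1))]
      have e3 : ∑ k ∈ Finset.range s, C k j = ∑ k ∈ Finset.Ioo 0 s, ⌈E' k j⌉₊ := by
        simp only [hC]
        rw [Finset.sum_comm]
        refine Finset.sum_congr rfl fun k' hk' => ?_
        obtain ⟨h6, h7⟩ := Finset.mem_Ioo.1 hk'
        rw [Finset.sum_ite_eq, if_pos (Finset.mem_range.2 ((hpar k' h6 h7).trans h7))]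
      have e4 : ∑ k ∈ Finset.range s, T k j = len j + ∑ k ∈ Finset.Ioo 0 s, ⌈E' k j⌉₊ := by
        have h5 : Finset.range s = insert 0 (Finset.Ioo 0 s) := by
          ext k
          simp only [Finset.mem_range, Finset.mem_insert, Finset.mem_Ioo]
          omega
        rw [h5, Finset.sum_insert (by simp)]
        simp only [hT, if_true]
        congr 1
        refine Finset.sum_congr rfl fun k hk' => ?_
        rw [if_neg (Finset.mem_Ioo.1 hk').1.ne']
      omega
    have h2 : ∀ t, ∑ j ∈ Finset.range (J + 1), (m - rk J (G (ph t)) (H t) j) =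
        (m + 1).choose 2 := by
      intro t
      have h3 : m ≤ J := by
        have h4 : (m : ℝ) < (J + 1 : ℕ) := by
          rw [hR]
          nlinarith [mul_le_mul_of_nonneg_right (hW t) hM.le]
        have h5 : m < J + 1 := by exact_mod_cast h4
        omega
      exact Nag.sum_rk h3 fun j hj j' hj' => (hθ t j hj j' hj').2
    rw [← Finset.sum_congr rfl fun j hj => h1 j (Nat.lt_succ_iff.1 (Finset.mem_range.1 hj)),
      Finset.sum_add_distrib, Finset.sum_comm]
    congr 1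
    rw [Finset.sum_comm, Finset.sum_congr rfl fun (a : Σ t, Fin (N t)) _ => h2 a.1,
      Fintype.sum_sigma, Finset.sum_mul]
    simp
  · refine treeM J s (fun j => Finset.range (len j)) hs (fun _ : (Σ t, Fin (N t)) => m)
      (fun a => ph a.1) (fun a => hph a.1) par hpar (fun k => ε ^ lev k)
      (fun k _ _ => pow_pos hε _) G E'
      (fun k hk0 hks j _ => ?_) (fun a => H a.1) x (fun j hj => ?_) fun k hk0 hks j hj => ?_
    · simp only [hG, hE']
      rw [price_rec ε M (lev k) (hlev k hk0 hks) _ _ _ (hg k hk0 hks _), hkap k hk0 hks]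
      ring
    · have h1 := hle 0 hs j hj
      rw [Finset.card_range]
      change len j ≤ (T 0 j - (P 0 j + C 0 j)) + P 0 j + C 0 j
      have h2 : T 0 j = len j := by simp only [hT, if_true]
      omega
    · have h1 := hle k hks j hj
      change ⌈E' k j⌉₊ ≤ (T k j - (P k j + C k j)) + P k j + C k j
      have h2 : T k j = ⌈E' k j⌉₊ := by simp only [hT, if_neg hk0.ne']
      omega

end Pool.Agent.P.MP_8707bd_ag.Ex
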