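import Mathlib
import Pool.Agent.P.MP_8707bd_ag.Ex.Gen
import Pool.Agent.P.MP_8707bd_ag.Ex.Semi
import Pool.Agent.P.MP_8707bd_ag.Win.Horace

/-!
Degeneration of the triangle with a shared row (helper file only).
-/

namespace Pool.Agent.P.MP_8707bd_ag.Ex

open MvPolynomial Win All Irr

/-- Restriction to the curve `x = y ^ δ`. -/
noncomputable def resC (δ : ℕ) : MvPolynomial (Fin 2) ℂ →ₗ[ℂ] Polynomial ℂ :=
  (aeval ![Polynomial.X ^ δ, Polynomial.X] : MvPolynomial (Fin 2) ℂ →ₐ[ℂ] Polynomial ℂ).toLinearMap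

/-- The span of the powers with exponents in `S`. -/
noncomputable def monoSp (S : Finset ℕ) : Submodule ℂ (Polynomial ℂ) :=
  Submodule.span ℂ ((fun a => (Polynomial.X : Polynomial ℂ) ^ a) '' (S : Set ℕ))

namespace DegenAux

lemma lin_mem {V : Type} [AddCommGroup V] [Module ℂ V] (f : MvPolynomial (Fin 2) ℂ →ₗ[ℂ] V)
    (N : Submodule ℂ V) {Ω : Set (Fin 2 →₀ ℕ)} (h : ∀ s ∈ Ω, f (monomial s 1) ∈ N)
    {A : MvPolynomial (Fin 2) ℂ} (hA : ∀ s ∈ A.support, s ∈ Ω) : f A ∈ N := by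
  rw [A.as_sum, map_sum]
  refine N.sum_mem fun s hs => ?_
  have := N.smul_mem (A.coeff s) (h s (hA s hs))
  rwa [← map_smul, smul_monomial, smul_eq_mul, mul_one] at this

lemma lin_ext {V : Type} [AddCommGroup V] [Module ℂ V] (f g : MvPolynomial (Fin 2) ℂ →ₗ[ℂ] V)
    {Ω : Set (Fin 2 →₀ ℕ)} (h : ∀ s ∈ Ω, f (monomial s 1) = g (monomial s 1))
    {A : MvPolynomial (Fin 2) ℂ} (hA : ∀ s ∈ A.support, s ∈ Ω) : f A = g A :=
  sub_eq_zero.1 (lin_mem (f - g) ⊥ (fun s hs => sub_eq_zero.2 (h s hs)) hA)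

/-- The linear map with given values on the monomials. -/
noncomputable def con {V : Type} [AddCommGroup V] [Module ℂ V] (v : (Fin 2 →₀ ℕ) → V) :
    MvPolynomial (Fin 2) ℂ →ₗ[ℂ] V := (basisMonomials (Fin 2) ℂ).constr ℂ v

lemma con_mono {V : Type} [AddCommGroup V] [Module ℂ V] (v : (Fin 2 →₀ ℕ) → V)
    (s : Fin 2 →₀ ℕ) : con v (monomial s 1) = v s := by
  have := (basisMonomials (Fin 2) ℂ).constr_basis ℂ v s
  rwa [coe_basisMonomials] at this

lemma rank_le {U V W : Type} [AddCommGroup U] [Module ℂ U] [AddCommGroup V] [Module ℂ V]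
    [AddCommGroup W] [Module ℂ W] [FiniteDimensional ℂ U] (K : Submodule ℂ U) (f : U →ₗ[ℂ] V)
    (g : U →ₗ[ℂ] W) (V₁ : Submodule ℂ V) (W₁ : Submodule ℂ W) [FiniteDimensional ℂ V₁]
    [FiniteDimensional ℂ W₁] (h1 : ∀ u ∈ K, f u ∈ V₁) (h2 : ∀ u ∈ K, f u = 0 → g u ∈ W₁)
    (h3 : ∀ u ∈ K, f u = 0 → g u = 0 → u = 0) :
    Module.finrank ℂ K ≤ Module.finrank ℂ V₁ + Module.finrank ℂ W₁ := by
  rw [← (f.domRestrict K).finrank_range_add_finrank_ker]
  refine add_le_add (Submodule.finrank_mono ?_) (LinearMap.finrank_le_finrank_of_injective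
    (f := ((g.domRestrict K).domRestrict (LinearMap.ker (f.domRestrict K))).codRestrict W₁
      fun u => h2 _ u.1.2 u.2) ?_)
  · rintro _ ⟨u, rfl⟩
    exact h1 _ u.2
  · rw [injective_iff_map_eq_zero]
    intro u hu
    exact Subtype.ext (Subtype.ext (h3 _ u.1.2 u.2 (congrArg Subtype.val hu)))

lemma mono_eq (s : Fin 2 →₀ ℕ) :
    (monomial s 1 : MvPolynomial (Fin 2) ℂ) = X 0 ^ s 0 * X 1 ^ s 1 := by
  rw [monomial_eq, C_1, one_mul, Finsupp.prod_fintype _ _ (by simp), Fin.prod_univ_two]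

lemma rowc_mono (j : ℕ) (s : Fin 2 →₀ ℕ) :
    rowc j (monomial s 1) = if j = s 0 then Polynomial.X ^ s 1 else 0 := by
  have h : toPP (monomial s 1 : MvPolynomial (Fin 2) ℂ) =
      Polynomial.X ^ s 0 * Polynomial.C (Polynomial.X ^ s 1) := by
    rw [mono_eq]
    simp [toPP]
  change (toPP _).coeff j = _
  rw [h, Polynomial.coeff_mul_C, Polynomial.coeff_X_pow]
  split_ifs <;> simp

lemma rowc_last (j R δ : ℕ) (G : MvPolynomial (Fin 2) ℂ) :
    rowc j (X 0 ^ R * (aeval ![X 1 ^ δ, X 1] G : MvPolynomial (Fin 2) ℂ)) =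
      if j = R then resC δ G else 0 := by
  have h : (toPP (L := ℂ)).comp (aeval ![X 1 ^ δ, X 1]) = (Polynomial.CAlgHom).comp
      (aeval ![Polynomial.X ^ δ, Polynomial.X] : MvPolynomial (Fin 2) ℂ →ₐ[ℂ] Polynomial ℂ) := by
    refine MvPolynomial.algHom_ext fun i => ?_
    fin_cases i <;> simp [toPP]
  have h1 : toPP (aeval ![X 1 ^ δ, X 1] G : MvPolynomial (Fin 2) ℂ) = Polynomial.C (resC δ G) :=
    DFunLike.congr_fun h G
  have h2 : toPP (X 0 ^ R : MvPolynomial (Fin 2) ℂ) = Polynomial.X ^ R := by simp [toPP]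
  change (toPP _).coeff j = _
  rw [map_mul, h1, h2, Polynomial.coeff_mul_C, Polynomial.coeff_X_pow]
  split_ifs <;> simp

/-- The member with parameter `t`, as an algebra map. -/
noncomputable def spA (t : ℂ) :
    MvPolynomial (Fin 2) (Polynomial ℂ) →ₐ[ℂ] MvPolynomial (Fin 2) ℂ :=
  mapAlgHom (Polynomial.aeval t : Polynomial ℂ →ₐ[ℂ] ℂ)

lemma sp_eq (t : ℂ) (F : MvPolynomial (Fin 2) (Polynomial ℂ)) : sp t F = spA t F := rfl

lemma spA_X (t : ℂ) (i : Fin 2) : spA t (X i) = X i := map_X _ i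

lemma spA_t (t : ℂ) : spA t (C Polynomial.X) = C t := by
  change map _ (C Polynomial.X) = _
  rw [map_C]
  simp

lemma spA_aeval (t : ℂ) (δ : ℕ) (G : MvPolynomial (Fin 2) ℂ) :
    spA t (aeval ![C Polynomial.X * X 0 + X 1 ^ δ, X 1] G) =
      aeval ![C t * X 0 + X 1 ^ δ, X 1] G := by
  rw [← AlgHom.comp_apply]
  congr 1
  refine MvPolynomial.algHom_ext fun i => ?_
  fin_cases i <;> simp [spA_X, spA_t]

lemma spA_id (t : ℂ) (G : MvPolynomial (Fin 2) ℂ) : spA t (aeval X G) = G := by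
  rw [← AlgHom.comp_apply]
  refine (DFunLike.congr_fun (?_ : _ = AlgHom.id ℂ _) G)
  refine MvPolynomial.algHom_ext fun i => ?_
  simp [spA_X]

/-- The strip part seen near the curve. -/
noncomputable def LA (δ : ℕ) :
    MvPolynomial (Fin 2) ℂ →ₗ[ℂ] MvPolynomial (Fin 2) (Polynomial ℂ) :=
  con fun s => X 0 ^ s 0 * ((C Polynomial.X * X 0 + X 1 ^ δ) ^ (s 1 / δ) * X 1 ^ (s 1 % δ))

/-- The strip part seen away from the curve. -/
noncomputable def RA (δ R : ℕ) :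
    MvPolynomial (Fin 2) ℂ →ₗ[ℂ] MvPolynomial (Fin 2) (Polynomial ℂ) :=
  con fun s => C Polynomial.X ^ (R - s 0) *
    ((X 0 - X 1 ^ δ) ^ s 0 * (X 0 ^ (s 1 / δ) * X 1 ^ (s 1 % δ)))

lemma sp_RA (t : ℂ) (δ R : ℕ) (s : Fin 2 →₀ ℕ) :
    sp t (RA δ R (monomial s 1)) = C t ^ (R - s 0) * Horace.bas δ s := by
  simp only [RA, con_mono, sp_eq, map_mul, map_pow, map_sub, spA_X, spA_t, Horace.bas]

lemma sp_LA (t : ℂ) (δ : ℕ) (s : Fin 2 →₀ ℕ) : sp t (LA δ (monomial s 1)) =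
    X 0 ^ s 0 * ((C t * X 0 + X 1 ^ δ) ^ (s 1 / δ) * X 1 ^ (s 1 % δ)) := by
  simp only [LA, con_mono, sp_eq, map_mul, map_pow, map_add, spA_X, spA_t]

lemma decomp' (d δ R : ℕ) (hδ : 0 < δ) (F : MvPolynomial (Fin 2) ℂ)
    (hF : ∀ s ∈ F.support, s ∈ tri (d + 1)) :
    ∃ A G : MvPolynomial (Fin 2) ℂ, (∀ s ∈ A.support, s 0 < R ∧ s 1 ∈ thin d δ (s 0)) ∧
      (∀ s ∈ G.support, s ∈ tri (d + 1 - R * δ)) ∧
      F = Horace.lin δ A + (X 0 - X 1 ^ δ) ^ R * G := by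
  cases R with
  | zero => exact ⟨0, F, by simp, by simpa using hF, by simp⟩
  | succ J =>
    obtain ⟨A, G, h1, h2, h3⟩ := Horace.decomp d δ J hδ F hF
    exact ⟨A, G, fun s hs => ⟨Nat.lt_succ_of_le (h1 s hs).1, (h1 s hs).2⟩, h2, h3⟩

end DegenAux

open DegenAux in
theorem degen {ι κ : Type} [Fintype ι] [Fintype κ] (d δ R : ℕ) (hδ : 0 < δ) (hR : R * δ ≤ d)
    (P : ι → Fin 2 → ℂ) (μ : ι → ℕ) (Q : κ → Fin 2 → ℂ) (ν : κ → ℕ)
    (hz : ∀ i, eval (Q i) (X 0 - X 1 ^ δ : MvPolynomial (Fin 2) ℂ) ≠ 0) (e₁ e₂ : ℕ)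
    (hf : FiniteDimensional ℂ ↥(rowSp (R + 1) (fun j => if j < R then monoSp (thin d δ j) else
      (sys (tri (d + 1 - R * δ)) Q ν).map (resC δ)) ⊓ vans P μ))
    (h1 : Module.finrank ℂ ↥(rowSp (R + 1) (fun j => if j < R then monoSp (thin d δ j) else
      (sys (tri (d + 1 - R * δ)) Q ν).map (resC δ)) ⊓ vans P μ) ≤ e₁)
    (h2 : Module.finrank ℂ ↥(sys (tri (d + 1 - R * δ)) Q ν ⊓ LinearMap.ker (resC δ)) ≤ e₂) :
    KE (tri (d + 1)) (Sum.elim μ ν) (e₁ + e₂) := by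
  classical
  set Ω : Set (Fin 2 →₀ ℕ) := {s | s 0 < R ∧ s 1 ∈ thin d δ (s 0)} with hΩ
  have hΩf : Ω.Finite := (strip_finite R (thin d δ)).subset fun s hs => ⟨hs.1.le, hs.2⟩
  have := supp_fin hΩf
  have := supp_fin (tri_finite (d + 1 - R * δ))
  have := sys_fin (tri_finite (d + 1 - R * δ)) Q ν
  let U := restrictSupport ℂ Ω × restrictSupport ℂ (tri (d + 1 - R * δ))
  let p1 : U →ₗ[ℂ] MvPolynomial (Fin 2) ℂ := (restrictSupport ℂ Ω).subtype ∘ₗ LinearMap.fst _ _ _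
  let p2 : U →ₗ[ℂ] MvPolynomial (Fin 2) ℂ :=
    (restrictSupport ℂ (tri (d + 1 - R * δ))).subtype ∘ₗ LinearMap.snd _ _ _
  let ΘL : U →ₗ[ℂ] MvPolynomial (Fin 2) (Polynomial ℂ) := LA δ ∘ₗ p1 +
    LinearMap.mulLeft ℂ (X 0 ^ R) ∘ₗ
      (aeval ![C Polynomial.X * X 0 + X 1 ^ δ, X 1]).toLinearMap ∘ₗ p2
  let ΘR : U →ₗ[ℂ] MvPolynomial (Fin 2) (Polynomial ℂ) := RA δ R ∘ₗ p1 +
    LinearMap.mulLeft ℂ ((X 0 - X 1 ^ δ) ^ R) ∘ₗ (aeval X).toLinearMap ∘ₗ p2
  have hL : ∀ t u, sp t (ΘL u) = sp t (LA δ (p1 u)) +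
      X 0 ^ R * aeval ![C t * X 0 + X 1 ^ δ, X 1] (p2 u) := by
    intro t u
    change sp t (LA δ (p1 u) + X 0 ^ R * aeval _ (p2 u)) = _
    rw [map_add, sp_eq t (_ * _), map_mul, map_pow, spA_X, spA_aeval]
  have hRt : ∀ t u, sp t (ΘR u) = sp t (RA δ R (p1 u)) + (X 0 - X 1 ^ δ) ^ R * p2 u := by
    intro t u
    change sp t (RA δ R (p1 u) + (X 0 - X 1 ^ δ) ^ R * aeval _ (p2 u)) = _
    rw [map_add, sp_eq t (_ * _), map_mul, map_pow, map_sub, map_pow, spA_X, spA_X, spA_id]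
  have hp1 : ∀ u : U, ∀ s ∈ (p1 u).support, s ∈ Ω := fun u => u.1.2
  have hp2 : ∀ u : U, ∀ s ∈ (p2 u).support, s ∈ tri (d + 1 - R * δ) := fun u => u.2.2
  obtain ⟨t, ht, hle⟩ := semi (Sum.elim (fun _ : ι => ΘL) fun _ : κ => ΘR) (Sum.elim P Q)
    (Sum.elim μ ν)
  refine ke_of_rank (tri_finite _)
    (Sum.elim (fun i => ![t * P i 0 + P i 1 ^ δ, P i 1]) Q) _ _ ?_
  refine le_trans (le_trans (Submodule.finrank_mono ?_)
    ((Submodule.finrank_map_le (sp t ∘ₗ ΘR) _).trans hle)) (le_trans ?_ (add_le_add h1 h2))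
  · intro F hF
    obtain ⟨hF1, hF2⟩ := mem_sys.1 hF
    obtain ⟨A, G, hA, hG, e⟩ := decomp' d δ R hδ F hF1
    let D : MvPolynomial (Fin 2) ℂ →ₗ[ℂ] MvPolynomial (Fin 2) ℂ :=
      con fun s => (t ^ (R - s 0))⁻¹ • monomial s 1
    have hD : D A ∈ restrictSupport ℂ Ω := by
      refine lin_mem D _ (Ω := Ω) (fun s hs => ?_) hA
      rw [con_mono]
      refine Submodule.smul_mem _ _ fun s' hs' => ?_
      have h3 : s' ∈ (monomial s (1 : ℂ) : MvPolynomial (Fin 2) ℂ).support := hs'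
      rw [support_monomial, if_neg one_ne_zero, Finset.mem_singleton] at h3
      rwa [h3]
    let u : U := (⟨D A, hD⟩, ⟨G, hG⟩)
    have e1 : sp t (ΘR u) = F := by
      rw [hRt, e]
      congr 1
      refine lin_ext (sp t ∘ₗ RA δ R ∘ₗ D) (Horace.lin δ) (Ω := Ω) (fun s _ => ?_) hA
      rw [LinearMap.comp_apply, LinearMap.comp_apply, con_mono, map_smul, map_smul, sp_RA,
        Horace.lin_monomial, ← C_pow, ← smul_eq_C_mul, smul_smul,
        inv_mul_cancel₀ (pow_ne_zero _ ht), one_smul]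
    refine ⟨u, mem_kerS.2 ?_, e1⟩
    rintro (i | i)
    · let φ : MvPolynomial (Fin 2) ℂ →ₐ[ℂ] MvPolynomial (Fin 2) ℂ :=
        aeval ![C t * X 0 + X 1 ^ δ, X 1]
      have hφ0 : φ (X 0) = C t * X 0 + X 1 ^ δ := by simp [φ]
      have hφ1 : φ (X 1) = X 1 := by simp [φ]
      have e2 : φ F = C t ^ R * sp t (ΘL u) := by
        rw [← e1, hRt, hL, map_add, mul_add]
        congr 1
        · refine lin_ext (φ.toLinearMap ∘ₗ sp t ∘ₗ RA δ R)
            (LinearMap.mulLeft ℂ (C t ^ R) ∘ₗ sp t ∘ₗ LA δ) (fun s hs => ?_) (hp1 u)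
          change φ (sp t (RA δ R _)) = C t ^ R * sp t (LA δ _)
          obtain ⟨k, hk⟩ := Nat.exists_eq_add_of_le hs.1.le
          rw [sp_RA, sp_LA, Horace.bas]
          simp only [map_mul, map_pow, map_sub, hφ0, hφ1, algHom_C, algebraMap_eq]
          rw [hk, Nat.add_sub_cancel_left]
          ring
        · rw [map_mul, map_pow, map_sub, map_pow, hφ0, hφ1]
          ring
      refine Horace.cancel_pow (P i) (C t) _ (by simpa using ht) R _ ?_
      change C t ^ R * sp t (ΘL u) ∈ _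
      rw [← e2]
      refine pow_map_mem φ.toRingHom _ _ (fun b hb => ?_) _ _ (hF2 (Sum.inl i))
      rw [RingHom.mem_ker] at hb ⊢
      rw [← hb]
      refine DFunLike.congr_fun (?_ : (eval (P i)).comp φ.toRingHom = _) b
      refine MvPolynomial.ringHom_ext (fun a => by simp) fun k => ?_
      fin_cases k <;> simp [φ]
    · change sp t (ΘR u) ∈ _
      rw [e1]
      exact hF2 (Sum.inr i)
  · have hL0 : ∀ u, sp 0 (ΘL u) = p1 u + X 0 ^ R * aeval ![X 1 ^ δ, X 1] (p2 u) := by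
      intro u
      rw [hL, C_0, zero_mul, zero_add]
      congr 1
      refine lin_ext (sp 0 ∘ₗ LA δ) LinearMap.id (fun s _ => ?_) (hp1 u)
      rw [LinearMap.comp_apply, sp_LA, C_0, zero_mul, zero_add, ← pow_mul, ← pow_add,
        Nat.div_add_mod, LinearMap.id_apply, mono_eq]
    have hG : ∀ u ∈ kerS (Sum.elim (fun _ : ι => ΘL) fun _ : κ => ΘR) (Sum.elim P Q)
        (Sum.elim μ ν) 0, p2 u ∈ sys (tri (d + 1 - R * δ)) Q ν := by
      intro u hu
      refine mem_sys.2 ⟨hp2 u, fun i => Horace.cancel_pow (Q i) _ _ (hz i) R _ ?_⟩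
      have h3 : sp 0 (ΘR u) ∈ _ := mem_kerS.1 hu (Sum.inr i)
      have h4 : sp 0 (RA δ R (p1 u)) = 0 := by
        refine lin_ext (sp 0 ∘ₗ RA δ R) 0 (fun s hs => ?_) (hp1 u)
        rw [LinearMap.comp_apply, sp_RA, C_0, zero_pow (Nat.sub_ne_zero_of_lt hs.1), zero_mul]
        rfl
      rwa [hRt, h4, zero_add] at h3
    have hA : ∀ (u : U) j, R ≤ j → rowc j (p1 u) = 0 := by
      intro u j hj
      refine lin_ext (rowc j) 0 (fun s hs => ?_) (hp1 u)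
      rw [rowc_mono, if_neg (hs.1.trans_le hj).ne']
      rfl
    have hK : ∀ u, sp 0 (ΘL u) = 0 → resC δ (p2 u) = 0 ∧ p1 u = 0 := by
      intro u hu
      have h3 : ∀ j, rowc j (p1 u) + (if j = R then resC δ (p2 u) else 0) = 0 := fun j => by
        rw [← rowc_last, ← map_add, ← hL0, hu, map_zero]
      refine ⟨by simpa [hA u R le_rfl] using h3 R, MvPolynomial.ext _ _ fun s => ?_⟩
      rw [← rowc_coeff]
      rcases Nat.lt_or_ge (s 0) R with h4 | h4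
      · have h5 := h3 (s 0)
        rw [if_neg h4.ne, add_zero] at h5
        rw [h5]
        rfl
      · rw [hA u _ h4]
        rfl
    refine rank_le _ (sp 0 ∘ₗ ΘL) p2 _ _ (fun u hu => ⟨?_, ?_⟩)
      (fun u hu h => ⟨hG u hu, (hK u h).1⟩) fun u _ h h' =>
        Prod.ext (Subtype.ext (hK u h).2) (Subtype.ext h')
    · refine mem_rowSp.2 ⟨fun j hj => ?_, fun j hj => ?_⟩ <;>
        rw [LinearMap.comp_apply, hL0, map_add, rowc_last]
      · by_cases h3 : j < R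
        · rw [if_pos h3, if_neg h3.ne, add_zero]
          refine lin_mem (rowc j) _ (fun s hs => ?_) (hp1 u)
          rw [rowc_mono]
          split_ifs with h4
          · exact Submodule.subset_span ⟨s 1, h4 ▸ hs.2, rfl⟩
          · exact zero_mem _
        · rw [if_neg h3, if_pos (by omega), hA u j (by omega), zero_add]
          exact Submodule.mem_map_of_mem (hG u hu)
      · rw [if_neg (by omega), hA u j (by omega), add_zero]
    · exact mem_vans.2 fun i => mem_kerS.1 hu (Sum.inl i)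

end Pool.Agent.P.MP_8707bd_ag.Ex
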