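import Mathlib
import Pool.Agent.P.MP_8707bd_ag.Ex.OddDefs
import Pool.Agent.P.MP_8707bd_ag.Ex.Gen
import Pool.Agent.P.MP_8707bd_ag.Ex.Lower
import Pool.Agent.P.MP_8707bd_ag.Win.Horace

/-!
The local elementary transformation at an odd number of points (helper file only).
-/

namespace Pool.Agent.P.MP_8707bd_ag.Ex

open MvPolynomial Win All Irr

namespace Elem

/-- The substitution of `A / B` and `Y`, made homogeneous of degree `ρ` in `A` and `B`. -/
noncomputable def hom {R : Type} [CommRing R] [Algebra ℂ R] (ρ : ℕ) (A B Y : R) :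
    MvPolynomial (Fin 2) ℂ →ₗ[ℂ] R :=
  (basisMonomials (Fin 2) ℂ).constr ℂ fun s => A ^ s 0 * B ^ (ρ - s 0) * Y ^ s 1

lemma hom_eq {R : Type} [CommRing R] [Algebra ℂ R] (ρ : ℕ) (A B Y : R)
    (F : MvPolynomial (Fin 2) ℂ) : hom ρ A B Y F =
      ∑ s ∈ F.support, F.coeff s • (A ^ s 0 * B ^ (ρ - s 0) * Y ^ s 1) := by
  conv_lhs => rw [F.as_sum, map_sum]
  refine Finset.sum_congr rfl fun s _ => ?_
  have h := (basisMonomials (Fin 2) ℂ).constr_basis ℂ
    (fun s => A ^ s 0 * B ^ (ρ - s 0) * Y ^ s 1) s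
  rw [coe_basisMonomials] at h
  rw [← h, hom, ← map_smul, smul_monomial, smul_eq_mul, mul_one]

lemma hom_map {R R' : Type} [CommRing R] [Algebra ℂ R] [CommRing R'] [Algebra ℂ R']
    (φ : R →ₐ[ℂ] R') (ρ : ℕ) (A B Y : R) (F : MvPolynomial (Fin 2) ℂ) :
    φ (hom ρ A B Y F) = hom ρ (φ A) (φ B) (φ Y) F := by
  simp only [hom_eq, map_sum, map_smul, map_mul, map_pow]

lemma hom_field {K : Type} [Field K] [Algebra ℂ K] (ρ : ℕ) (A B Y : K) (hB : B ≠ 0)
    (F : MvPolynomial (Fin 2) ℂ) (hF : ∀ s ∈ F.support, s 0 ≤ ρ) :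
    hom ρ A B Y F = B ^ ρ * aeval ![A / B, Y] F := by
  rw [hom_eq, aeval_def, eval₂_eq', Finset.mul_sum]
  refine Finset.sum_congr rfl fun s hs => ?_
  obtain ⟨d, rfl⟩ := Nat.exists_eq_add_of_le (hF s hs)
  rw [Fin.prod_univ_two, Algebra.smul_def, Nat.add_sub_cancel_left, pow_add]
  simp only [Matrix.cons_val_zero, Matrix.cons_val_one, div_pow]
  field_simp

lemma tr_deg (P : Fin 2 → ℂ) {ρ : ℕ} {F : MvPolynomial (Fin 2) ℂ}
    (hF : ∀ s ∈ F.support, s 0 ≤ ρ) : ∀ s ∈ (tr P F).support, s 0 ≤ ρ := by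
  rw [← degreeOf_le_iff, tr, aeval_def, eval₂_eq']
  refine (degreeOf_sum_le _ _ _).trans (Finset.sup_le fun s hs => ?_)
  rw [Fin.prod_univ_two, algebraMap_eq]
  refine (degreeOf_C_mul_le _ _ _).trans ((degreeOf_mul_le _ _ _).trans ?_)
  have h0 : degreeOf 0 (X 0 + C (P 0) : MvPolynomial (Fin 2) ℂ) ≤ 1 := by
    have h := degreeOf_add_le (0 : Fin 2) (X 0 : MvPolynomial (Fin 2) ℂ) (C (P 0))
    rw [degreeOf_C, degreeOf_X, if_pos rfl] at h
    omega
  have h1 : degreeOf 0 (X 1 + C (P 1) : MvPolynomial (Fin 2) ℂ) = 0 := by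
    have h := degreeOf_add_le (0 : Fin 2) (X 1 : MvPolynomial (Fin 2) ℂ) (C (P 1))
    rw [degreeOf_C, degreeOf_X, if_neg (by decide)] at h
    omega
  have h2 := (degreeOf_pow_le 0 (X 0 + C (P 0) : MvPolynomial (Fin 2) ℂ) (s 0)).trans
    (Nat.mul_le_mul_left _ h0)
  have h3 := degreeOf_pow_le 0 (X 1 + C (P 1) : MvPolynomial (Fin 2) ℂ) (s 1)
  rw [h1] at h3
  have h4 := hF s hs
  omega

lemma hom_tr (ρ : ℕ) (A B Y : MvPolynomial (Fin 2) ℂ) (hB : B ≠ 0) (P : Fin 2 → ℂ)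
    (F : MvPolynomial (Fin 2) ℂ) (hF : ∀ s ∈ F.support, s 0 ≤ ρ) :
    hom ρ A B Y F = hom ρ (A - C (P 0) * B) B (Y - C (P 1)) (tr P F) := by
  let φ := IsScalarTower.toAlgHom ℂ (MvPolynomial (Fin 2) ℂ)
    (FractionRing (MvPolynomial (Fin 2) ℂ))
  have hφ : Function.Injective φ := IsFractionRing.injective _ _
  have hB' : φ B ≠ 0 := fun h => hB (hφ (h.trans (map_zero φ).symm))
  apply hφ
  rw [hom_map, hom_map, hom_field _ _ _ _ hB' _ hF, hom_field _ _ _ _ hB' _ (tr_deg P hF)]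
  congr 1
  have h : (aeval ![φ A / φ B, φ Y] : MvPolynomial (Fin 2) ℂ →ₐ[ℂ] _) =
      (aeval ![φ (A - C (P 0) * B) / φ B, φ (Y - C (P 1))]).comp (tr P) := by
    ext1 k
    fin_cases k
    · simp only [tr, aeval_X, AlgHom.comp_apply, map_add, map_sub, map_mul, algHom_C,
        Fin.zero_eta, Matrix.cons_val_zero]
      field_simp
      ring
    · simp [tr]
  rw [h]
  rfl

lemma hom_van (m m1 : ℕ) (l B Y : MvPolynomial (Fin 2) ℂ) (I : Ideal (MvPolynomial (Fin 2) ℂ))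
    (hB : B ∈ I) (hY : Y ∈ I) (F : MvPolynomial (Fin 2) ℂ)
    (hF : ∀ s ∈ F.support, s 0 ≤ m + m1 ∧ m ≤ s 0 + s 1) :
    ∃ G ∈ I ^ m1, hom (m + m1) (Y * l) B Y F = Y ^ m * G := by
  refine ⟨∑ s ∈ F.support, F.coeff s • (l ^ s 0 * (Y ^ (s 0 + s 1 - m) * B ^ (m + m1 - s 0))),
    Ideal.sum_mem _ fun s hs => ?_, ?_⟩
  · rw [Algebra.smul_def]
    refine Ideal.mul_mem_left _ _ (Ideal.mul_mem_left _ _ ?_)
    have h := Ideal.mul_mem_mul (Ideal.pow_mem_pow hY (s 0 + s 1 - m))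
      (Ideal.pow_mem_pow hB (m + m1 - s 0))
    rw [← pow_add] at h
    have h2 := hF s hs
    exact Ideal.pow_le_pow_right (by omega) h
  · rw [hom_eq, Finset.mul_sum]
    refine Finset.sum_congr rfl fun s hs => ?_
    obtain ⟨d, hd⟩ := Nat.exists_eq_add_of_le (hF s hs).2
    have h : Y ^ s 0 * Y ^ s 1 = Y ^ m * Y ^ d := by rw [← pow_add, ← pow_add, hd]
    rw [hd, Nat.add_sub_cancel_left, mul_smul_comm]
    congr 1
    linear_combination (l ^ s 0 * B ^ (m + m1 - s 0)) * h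

open Polynomial in
/-- Sorting by the total degree. -/
noncomputable def sg : MvPolynomial (Fin 2) ℂ →ₐ[ℂ] ℂ[X][X] :=
  MvPolynomial.aeval ![Polynomial.C Polynomial.X * Polynomial.X, Polynomial.X]

lemma sg_eq (G : MvPolynomial (Fin 2) ℂ) : sg G = ∑ s ∈ G.support,
    Polynomial.monomial (s 0 + s 1) (Polynomial.monomial (s 0) (G.coeff s)) := by
  rw [sg, aeval_def, eval₂_eq']
  refine Finset.sum_congr rfl fun s _ => ?_
  rw [Fin.prod_univ_two, ← Polynomial.C_mul_X_pow_eq_monomial,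
    ← Polynomial.C_mul_X_pow_eq_monomial]
  simp only [Matrix.cons_val_zero, Matrix.cons_val_one, Polynomial.algebraMap_apply,
    Algebra.algebraMap_self, RingHom.id_apply, map_mul, map_pow, mul_pow, pow_add]
  ring

lemma sg_high (G : MvPolynomial (Fin 2) ℂ) {d i : ℕ} (h : d < i) :
    ((sg G).coeff d).coeff i = 0 := by
  rw [sg_eq, Polynomial.finsetSum_coeff, Polynomial.finsetSum_coeff]
  refine Finset.sum_eq_zero fun s _ => ?_
  rw [Polynomial.coeff_monomial]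
  split_ifs with h1
  · rw [Polynomial.coeff_monomial, if_neg (by omega)]
  · rfl

lemma fin2_ext {s t : Fin 2 →₀ ℕ} (h0 : s 0 = t 0) (h1 : s 1 = t 1) : s = t := by
  ext k
  fin_cases k
  · exact h0
  · exact h1

lemma sg_deg {G : MvPolynomial (Fin 2) ℂ} {s : Fin 2 →₀ ℕ} (hs : s ∈ G.support) :
    sg G ≠ 0 ∧ s 0 + s 1 ≤ (sg G).natDegree := by
  have h : ((sg G).coeff (s 0 + s 1)).coeff (s 0) = G.coeff s := by
    rw [sg_eq, Polynomial.finsetSum_coeff, Polynomial.finsetSum_coeff, Finset.sum_eq_single s]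
    · rw [Polynomial.coeff_monomial, if_pos rfl, Polynomial.coeff_monomial, if_pos rfl]
    · intro t _ ht
      rw [Polynomial.coeff_monomial]
      split_ifs with h1
      · rw [Polynomial.coeff_monomial, if_neg fun h2 => ht (fin2_ext h2 (by omega))]
      · rfl
    · exact fun h => absurd hs h
  have h2 : (sg G).coeff (s 0 + s 1) ≠ 0 := fun h3 => mem_support_iff.1 hs (by
    rw [← h, h3, Polynomial.coeff_zero])
  exact ⟨fun h3 => h2 (by rw [h3, Polynomial.coeff_zero]), Polynomial.le_natDegree_of_ne_zero h2⟩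

open Polynomial in
lemma hom_top {a ρ k : ℕ} {A B : ℂ[X][X]} (hA : A.natDegree ≤ a + 1) (hB : B.natDegree ≤ a + 1)
    (hA' : A.coeff (a + 1) = 1) (hB' : B.coeff (a + 1) = Polynomial.X)
    {F : MvPolynomial (Fin 2) ℂ} (hF : ∀ s ∈ F.support, s 0 ≤ ρ ∧ s 1 ≤ k) :
    (hom ρ A B Polynomial.X F).natDegree ≤ ρ * (a + 1) + k ∧ ∀ s : Fin 2 →₀ ℕ, s 0 ≤ ρ → s 1 = k →
      ((hom ρ A B Polynomial.X F).coeff (ρ * (a + 1) + k)).coeff (ρ - s 0) = F.coeff s := by
  have h1 : ∀ j, j ≤ ρ → (A ^ j * B ^ (ρ - j)).natDegree ≤ ρ * (a + 1) ∧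
      (A ^ j * B ^ (ρ - j)).coeff (ρ * (a + 1)) = Polynomial.X ^ (ρ - j) := by
    intro j hj
    obtain ⟨d, rfl⟩ := Nat.exists_eq_add_of_le hj
    have a1 := natDegree_pow_le_of_le j hA
    have a2 := natDegree_pow_le_of_le d hB
    rw [Nat.add_sub_cancel_left, add_mul]
    refine ⟨natDegree_mul_le_of_le a1 a2, ?_⟩
    rw [coeff_mul_add_eq_of_natDegree_le a1 a2, coeff_pow_of_natDegree_le hA,
      coeff_pow_of_natDegree_le hB, hA', hB', one_pow, one_mul]
  rw [hom_eq]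
  refine ⟨natDegree_sum_le_of_forall_le _ _ fun s hs => (natDegree_smul_le _ _).trans
    (natDegree_mul_le_of_le (h1 _ (hF s hs).1).1 ((natDegree_X_pow_le _).trans (hF s hs).2)),
    fun s h0 hk => ?_⟩
  rw [finsetSum_coeff, finsetSum_coeff, Finset.sum_eq_single s]
  · rw [Polynomial.coeff_smul, hk, Polynomial.coeff_mul_X_pow, (h1 _ h0).2, Polynomial.coeff_smul,
      Polynomial.coeff_X_pow, if_pos rfl, smul_eq_mul, mul_one]
  · intro t ht hts
    obtain ⟨b0, b1⟩ := hF t ht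
    rw [Polynomial.coeff_smul, Polynomial.coeff_smul]
    rcases b1.eq_or_lt with b2 | b2
    · rw [← b2, Polynomial.coeff_mul_X_pow, (h1 _ b0).2, Polynomial.coeff_X_pow,
        if_neg fun h2 => hts (fin2_ext (by omega) (by omega)), smul_zero]
    · rw [coeff_eq_zero_of_natDegree_lt ((natDegree_mul_le_of_le (h1 _ b0).1
        (natDegree_X_pow_le _)).trans_lt (by omega)), Polynomial.coeff_zero, smul_zero]
  · intro hs
    rw [notMem_support_iff.1 hs, zero_smul, Polynomial.coeff_zero, Polynomial.coeff_zero]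

/-- The matrix of the values of `y ^ j` and `x y ^ j`. -/
def mat {A : Type} [CommRing A] {r0 r1 : ℕ} (x y : Fin r0 ⊕ Fin r1 → A) :
    Matrix (Fin r0 ⊕ Fin r1) (Fin r0 ⊕ Fin r1) A :=
  fun k => Sum.elim (fun j => y k ^ (j : ℕ)) fun j => x k * y k ^ (j : ℕ)

open Polynomial in
lemma mat_mulVec {r0 r1 : ℕ} (x y : Fin r0 ⊕ Fin r1 → ℂ) (p : degreeLT ℂ r0) (q : degreeLT ℂ r1)
    (k : Fin r0 ⊕ Fin r1) :
    (mat x y).mulVec (Sum.elim (degreeLTEquiv ℂ r0 p) (degreeLTEquiv ℂ r1 q)) k =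
      p.1.eval (y k) + q.1.eval (y k) * x k := by
  rw [eval_eq_sum_degreeLTEquiv p.2, eval_eq_sum_degreeLTEquiv q.2, Finset.sum_mul]
  simp only [Matrix.mulVec, dotProduct, mat, Fintype.sum_sum_type, Sum.elim_inl, Sum.elim_inr]
  congr 1
  · exact Finset.sum_congr rfl fun j _ => mul_comm _ _
  · exact Finset.sum_congr rfl fun j _ => by ring

open Polynomial in
lemma vec_surj {r0 r1 : ℕ} (v : Fin r0 ⊕ Fin r1 → ℂ) : ∃ (p : degreeLT ℂ r0) (q : degreeLT ℂ r1),
    v = Sum.elim (degreeLTEquiv ℂ r0 p) (degreeLTEquiv ℂ r1 q) :=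
  ⟨(degreeLTEquiv ℂ r0).symm (v ∘ Sum.inl), (degreeLTEquiv ℂ r1).symm (v ∘ Sum.inr), by
    rw [LinearEquiv.apply_symm_apply, LinearEquiv.apply_symm_apply, Sum.elim_comp_inl_inr]⟩

open Polynomial in
lemma generic {n r0 r1 : ℕ} (g : Fin r0 ⊕ Fin r1 → Fin n) (hg : Function.Injective g) :
    ∃ Φ : MvPolynomial (Fin n × Fin 2) ℂ, Φ ≠ 0 ∧ ∀ P : Fin n → Fin 2 → ℂ,
      MvPolynomial.eval (fun x : Fin n × Fin 2 => P x.1 x.2) Φ ≠ 0 →
      (∀ p ∈ degreeLT ℂ r0, ∀ q ∈ degreeLT ℂ r1,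
        (∀ k, p.eval (P (g k) 1) + q.eval (P (g k) 1) * P (g k) 0 = 0) → q = 0) ∧
      ∀ v : Fin r0 ⊕ Fin r1 → ℂ, ∃ p ∈ degreeLT ℂ r0, ∃ q ∈ degreeLT ℂ r1,
        ∀ k, p.eval (P (g k) 1) + q.eval (P (g k) 1) * P (g k) 0 = v k := by
  have key : ∀ P : Fin n → Fin 2 → ℂ, MvPolynomial.eval (fun x : Fin n × Fin 2 => P x.1 x.2)
      (mat (fun k => MvPolynomial.X (g k, 0)) fun k => MvPolynomial.X (g k, 1)).det =
      (mat (fun k => P (g k) 0) fun k => P (g k) 1).det := by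
    intro P
    rw [RingHom.map_det]
    congr 1
    ext k k'
    rcases k' with j | j <;> simp [mat]
  refine ⟨(mat (fun k => MvPolynomial.X (g k, 0)) fun k => MvPolynomial.X (g k, 1)).det,
    fun h0 => ?_, fun P hP => ?_⟩
  · have h1 := key fun i => ![((i : ℕ) : ℂ) ^ r0, ((i : ℕ) : ℂ)]
    rw [h0, map_zero] at h1
    obtain ⟨v, hv, h2⟩ := Matrix.exists_mulVec_eq_zero_iff.2 h1.symm
    obtain ⟨p, q, rfl⟩ := vec_surj v
    have hp := mem_degreeLT.1 p.2
    have hq := mem_degreeLT.1 q.2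
    have h3 : p.1 + q.1 * Polynomial.X ^ r0 = 0 := by
      refine eq_zero_of_degree_lt_of_eval_index_eq_zero (v := fun k => ((g k : ℕ) : ℂ))
        Finset.univ (fun k _ k' _ e => hg (Fin.ext (Nat.cast_injective e))) ?_ fun k _ => ?_
      · rw [Finset.card_univ, Fintype.card_sum, Fintype.card_fin, Fintype.card_fin,
          degree_lt_iff_coeff_zero]
        intro j hj
        obtain ⟨d, rfl⟩ := Nat.exists_eq_add_of_le' (le_trans (Nat.le_add_right r0 r1) hj)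
        rw [Polynomial.coeff_add, Polynomial.coeff_mul_X_pow,
          (degree_lt_iff_coeff_zero _ _).1 hp _ (by omega),
          (degree_lt_iff_coeff_zero _ _).1 hq _ (by omega), add_zero]
      · have h4 := congrFun h2 k
        rw [mat_mulVec] at h4
        simpa using h4
    have h5 : q.1 = 0 := by
      ext j
      have h6 := congrArg (Polynomial.coeff · (j + r0)) h3
      simp only [Polynomial.coeff_add, Polynomial.coeff_mul_X_pow, Polynomial.coeff_zero] at h6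
      rwa [(degree_lt_iff_coeff_zero _ _).1 hp _ (by omega), zero_add] at h6
    rw [h5, zero_mul, add_zero] at h3
    apply hv
    rw [show p = 0 from Subtype.ext h3, show q = 0 from Subtype.ext h5, map_zero, map_zero,
      Sum.elim_zero_zero]
  · rw [key] at hP
    have hu := (Matrix.isUnit_iff_isUnit_det _).2 (Ne.isUnit hP)
    refine ⟨fun p hp q hq h => ?_, fun v => ?_⟩
    · have h1 : Sum.elim (degreeLTEquiv ℂ r0 ⟨p, hp⟩) (degreeLTEquiv ℂ r1 ⟨q, hq⟩) = 0 :=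
        Matrix.mulVec_injective_iff_isUnit.2 hu (funext fun k => by
          rw [mat_mulVec, Matrix.mulVec_zero]
          exact h k)
      have h2 : degreeLTEquiv ℂ r1 ⟨q, hq⟩ = 0 := funext fun j => congrFun h1 (Sum.inr j)
      exact congrArg Subtype.val ((degreeLTEquiv ℂ r1).map_eq_zero_iff.1 h2)
    · obtain ⟨u, hu'⟩ := Matrix.mulVec_surjective_iff_isUnit.2 hu v
      obtain ⟨p, q, rfl⟩ := vec_surj u
      exact ⟨p.1, p.2, q.1, q.2, fun k => by rw [← hu', mat_mulVec]⟩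

open Polynomial in
lemma quo_mem {a : ℕ} {β : ℂ} {p : ℂ[X]}
    (h : (Polynomial.X - Polynomial.C β) * p ∈ degreeLT ℂ (a + 1)) : p ∈ degreeLT ℂ a := by
  by_cases hp : p = 0
  · rw [hp]
    exact zero_mem _
  · rw [mem_degreeLT, ← natDegree_lt_iff_degree_lt (mul_ne_zero (X_sub_C_ne_zero β) hp),
      (monic_X_sub_C β).natDegree_mul' hp, natDegree_X_sub_C] at h
    rw [mem_degreeLT, ← natDegree_lt_iff_degree_lt hp]
    omega

open Polynomial in
lemma nat_le {a : ℕ} {p : ℂ[X]} (h : p ∈ degreeLT ℂ (a + 1)) : p.natDegree ≤ a :=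
  natDegree_le_iff_coeff_eq_zero.2 fun _ hN =>
    (degree_lt_iff_coeff_zero _ _).1 (mem_degreeLT.1 h) _ hN

open Polynomial in
lemma pow_add_mem {a : ℕ} {p : ℂ[X]} (h : p ∈ degreeLT ℂ a) :
    Polynomial.X ^ a + p ∈ degreeLT ℂ (a + 1) ∧ (Polynomial.X ^ a + p).coeff a = 1 := by
  refine ⟨add_mem (mem_degreeLT.2 ?_) (degreeLT_mono (Nat.le_succ a) h), ?_⟩
  · rw [degree_X_pow]
    exact_mod_cast Nat.lt_succ_self a
  · rw [Polynomial.coeff_add, Polynomial.coeff_X_pow, if_pos rfl,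
      (degree_lt_iff_coeff_zero _ _).1 (mem_degreeLT.1 h) _ le_rfl, add_zero]

open Polynomial in
lemma data (a : ℕ) (Φ : MvPolynomial (Fin (2 * a + 1) × Fin 2) ℂ) (hΦ : Φ ≠ 0) :
    ∃ (P : Fin (2 * a + 1) → Fin 2 → ℂ) (p0 q0 p1 q1 : ℂ[X]),
      MvPolynomial.eval (fun x : Fin (2 * a + 1) × Fin 2 => P x.1 x.2) Φ ≠ 0 ∧
      (∀ i j, i ≠ j → P i 1 ≠ P j 1) ∧ p0.natDegree ≤ a ∧ q0.natDegree ≤ a ∧ q0.coeff a = 1 ∧
      p1.natDegree ≤ a + 1 ∧ p1.coeff (a + 1) = 1 ∧ q1.natDegree ≤ a ∧ q1.coeff a = 0 ∧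
      (∀ i, p0.eval (P i 1) + q0.eval (P i 1) * P i 0 = 0) ∧
      (∀ i, p1.eval (P i 1) + q1.eval (P i 1) * P i 0 = 0) ∧ ∀ i, q0.eval (P i 1) ≠ 0 := by
  let g0 : Fin (a + 1) ⊕ Fin a ≃ Fin (2 * a + 1) := finSumFinEquiv.trans (finCongr (by omega))
  let g1 : Fin a ⊕ Fin a ≃ Fin (2 * a) := finSumFinEquiv.trans (finCongr (by omega))
  obtain ⟨Φ0, hΦ0, H0⟩ := generic g0 g0.injective
  choose Φ1 hΦ1 H1 using fun i : Fin (2 * a + 1) => generic (fun k => i.succAbove (g1 k))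
    (Fin.succAbove_right_injective.comp g1.injective)
  have hΨ : (∏ x ∈ (Finset.univ : Finset (Fin (2 * a + 1))).offDiag,
      (MvPolynomial.X (x.1, 1) - MvPolynomial.X (x.2, 1) :
        MvPolynomial (Fin (2 * a + 1) × Fin 2) ℂ)) ≠ 0 :=
    Finset.prod_ne_zero_iff.2 fun x hx => sub_ne_zero.2 fun h =>
      (Finset.mem_offDiag.1 hx).2.2 (congrArg Prod.fst (MvPolynomial.X_injective h))
  obtain ⟨P, hP⟩ := exists_pt _ (mul_ne_zero (mul_ne_zero hΦ hΦ0)
    (mul_ne_zero (Finset.prod_ne_zero_iff.2 fun i (_ : i ∈ Finset.univ) => hΦ1 i) hΨ))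
  simp only [map_mul, map_prod, mul_ne_zero_iff, Finset.prod_ne_zero_iff] at hP
  obtain ⟨⟨e1, e2⟩, e3, e4⟩ := hP
  have hd : ∀ i j, i ≠ j → P i 1 ≠ P j 1 := fun i j hij => by
    have h := e4 (i, j) (Finset.mem_offDiag.2 ⟨Finset.mem_univ _, Finset.mem_univ _, hij⟩)
    rw [map_sub, MvPolynomial.eval_X, MvPolynomial.eval_X] at h
    exact sub_ne_zero.1 h
  obtain ⟨p0, hp0, q0, hq0, h0⟩ := (H0 P e2).2 fun k => -(P (g0 k) 1 ^ a * P (g0 k) 0)
  obtain ⟨p1, hp1, q1, hq1, h1⟩ := (H0 P e2).2 fun k => -(P (g0 k) 1 ^ (a + 1))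
  have hQ := pow_add_mem hq0
  have hR := pow_add_mem hp1
  have v0 : ∀ i, p0.eval (P i 1) + (Polynomial.X ^ a + q0).eval (P i 1) * P i 0 = 0 := fun i => by
    obtain ⟨k, rfl⟩ := g0.surjective i
    rw [Polynomial.eval_add, Polynomial.eval_pow, Polynomial.eval_X]
    linear_combination h0 k
  refine ⟨P, p0, Polynomial.X ^ a + q0, Polynomial.X ^ (a + 1) + p1, q1, e1, hd, nat_le hp0,
    nat_le hQ.1, hQ.2, nat_le hR.1, hR.2, nat_le (degreeLT_mono (Nat.le_succ a) hq1),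
    (degree_lt_iff_coeff_zero _ _).1 (mem_degreeLT.1 hq1) _ le_rfl, v0, fun i => ?_,
    fun i hi => ?_⟩
  · obtain ⟨k, rfl⟩ := g0.surjective i
    rw [Polynomial.eval_add, Polynomial.eval_pow, Polynomial.eval_X]
    linear_combination h1 k
  · have hi' := v0 i
    rw [hi, zero_mul, add_zero] at hi'
    obtain ⟨q, hq⟩ := dvd_iff_isRoot.2 hi
    obtain ⟨p, hp⟩ := dvd_iff_isRoot.2 hi'
    have h2 := (H1 i P (e3 i (Finset.mem_univ _))).1 p (quo_mem (hp ▸ hp0)) q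
      (quo_mem (hq ▸ hQ.1)) fun k => by
        have h3 := v0 (i.succAbove (g1 k))
        rw [hq, hp, Polynomial.eval_mul, Polynomial.eval_mul, mul_assoc, ← mul_add,
          Polynomial.eval_sub, Polynomial.eval_X, Polynomial.eval_C] at h3
        exact (mul_eq_zero.1 h3).resolve_left
          (sub_ne_zero.2 (hd _ _ (Fin.succAbove_ne i _)))
    have h4 := hQ.2
    rw [hq, h2, mul_zero, Polynomial.coeff_zero] at h4
    exact zero_ne_one h4

/-- The polynomial `p (y) + q (y) x`. -/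
noncomputable def lin (p q : Polynomial ℂ) : MvPolynomial (Fin 2) ℂ :=
  Polynomial.aeval (X 1) p + Polynomial.aeval (X 1) q * X 0

lemma eval_lin (v : Fin 2 → ℂ) (p q : Polynomial ℂ) :
    eval v (lin p q) = p.eval (v 1) + q.eval (v 1) * v 0 := by
  have h : ∀ r : Polynomial ℂ, eval v (Polynomial.aeval (X 1 : MvPolynomial (Fin 2) ℂ) r) =
      r.eval (v 1) := fun r => by
    have h1 := Polynomial.aeval_algHom_apply (aeval v : MvPolynomial (Fin 2) ℂ →ₐ[ℂ] ℂ) (X 1) r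
    rw [aeval_X, Polynomial.coe_aeval_eq_eval] at h1
    exact h1.symm
  rw [lin, map_add, map_mul, h, h, eval_X]

lemma sg_X1 : sg (X 1) = Polynomial.X := by simp [sg]

lemma sg_lin {a : ℕ} {p q : Polynomial ℂ} (hp : p.natDegree ≤ a + 1) (hq : q.natDegree ≤ a) :
    (sg (lin p q)).natDegree ≤ a + 1 ∧ (sg (lin p q)).coeff (a + 1) =
      Polynomial.C (p.coeff (a + 1)) + Polynomial.C (q.coeff a) * Polynomial.X := by
  have h : sg (lin p q) = p.map Polynomial.C +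
      q.map Polynomial.C * Polynomial.C Polynomial.X * Polynomial.X := by
    rw [lin, map_add, map_mul, ← Polynomial.aeval_algHom_apply, ← Polynomial.aeval_algHom_apply,
      sg_X1, mul_assoc]
    congr 2
    simp [sg]
  rw [h]
  refine ⟨Polynomial.natDegree_add_le_of_degree_le (Polynomial.natDegree_map_le.trans hp)
    (Polynomial.natDegree_mul_le_of_le ((Polynomial.natDegree_mul_C_le _ _).trans
      (Polynomial.natDegree_map_le.trans hq)) Polynomial.natDegree_X_le), ?_⟩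
  rw [Polynomial.coeff_add, Polynomial.coeff_mul_X, Polynomial.coeff_mul_C, Polynomial.coeff_map,
    Polynomial.coeff_map]

lemma lin_split {p0 q0 p1 q1 : Polynomial ℂ} {v : Fin 2 → ℂ}
    (h0 : p0.eval (v 1) + q0.eval (v 1) * v 0 = 0) (h1 : p1.eval (v 1) + q1.eval (v 1) * v 0 = 0)
    (hq : q0.eval (v 1) ≠ 0) : ∃ l, lin p1 q1 - C (q1.eval (v 1) / q0.eval (v 1)) * lin p0 q0 =
      (X 1 - C (v 1)) * l := by
  have e1 : q1.eval (v 1) = q1.eval (v 1) / q0.eval (v 1) * q0.eval (v 1) := by field_simp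
  generalize q1.eval (v 1) / q0.eval (v 1) = z at e1 ⊢
  obtain ⟨q, hq'⟩ := Polynomial.dvd_iff_isRoot.2
    (show (q1 - Polynomial.C z * q0).IsRoot (v 1) by
      rw [Polynomial.IsRoot, Polynomial.eval_sub, Polynomial.eval_C_mul, ← e1, sub_self])
  obtain ⟨p, hp'⟩ := Polynomial.dvd_iff_isRoot.2
    (show (p1 - Polynomial.C z * p0).IsRoot (v 1) by
      rw [Polynomial.IsRoot, Polynomial.eval_sub, Polynomial.eval_C_mul]
      linear_combination h1 - z * h0 - v 0 * e1)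
  have a1 := congrArg (Polynomial.aeval (X 1 : MvPolynomial (Fin 2) ℂ)) hq'
  have a2 := congrArg (Polynomial.aeval (X 1 : MvPolynomial (Fin 2) ℂ)) hp'
  simp only [map_sub, map_mul, Polynomial.aeval_C, Polynomial.aeval_X, algebraMap_eq] at a1 a2
  refine ⟨lin p q, ?_⟩
  simp only [lin]
  linear_combination a2 + X 0 * a1

end Elem

open Elem

theorem elem (a m m1 ρ ν c μ e : ℕ) (h1 : m + m1 = ρ) (h2 : μ + ν = ρ)
    (h3 : c + a * ρ + μ = (2 * a + 1) * m)
    (h : KE (tri ν) (fun _ : Fin (2 * a + 1) => m1) e) : Loc (ρ + 1) c μ m (2 * a + 1) e := by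
  obtain ⟨Φ, hΦ, hgen⟩ := gen (tri_finite ν) h
  obtain ⟨P, p0, q0, p1, q1, e1, hd, d0, d1, c1, d2, c2, d3, c3, v0, v1, hq⟩ := data a Φ hΦ
  have hrk := hgen P e1
  obtain ⟨s0, t0⟩ := sg_lin (d0.trans (Nat.le_succ a)) d1
  obtain ⟨s1, t1⟩ := sg_lin d2 d3
  rw [Polynomial.coeff_eq_zero_of_natDegree_lt (Nat.lt_succ_of_le d0), c1, map_zero, map_one,
    zero_add, one_mul] at t0
  rw [c2, c3, map_zero, map_one, zero_mul, add_zero] at t1
  have hL0 : lin p0 q0 ≠ 0 := fun h0 => by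
    rw [h0, map_zero, Polynomial.coeff_zero] at t0
    exact Polynomial.X_ne_zero t0.symm
  set T := hom ρ (lin p1 q1) (lin p0 q0) (X 1) with hT
  set P' : Fin (2 * a + 1) → Fin 2 → ℂ := fun i => ![q1.eval (P i 1) / q0.eval (P i 1), P i 1]
    with hP'
  set π : MvPolynomial (Fin 2) ℂ := ∏ i, (X 1 - C (P i 1)) ^ m with hπ
  have hπm : (sg π).Monic ∧ (sg π).natDegree = (2 * a + 1) * m := by
    have e : sg π = ∏ i, (Polynomial.X - Polynomial.C (Polynomial.C (P i 1))) ^ m := by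
      simp only [hπ, map_prod, map_pow, map_sub, sg_X1, algHom_C]
      rfl
    have hm : ∀ i ∈ Finset.univ,
        ((Polynomial.X - Polynomial.C (Polynomial.C (P i 1))) ^ m).Monic := fun i _ =>
      (Polynomial.monic_X_sub_C _).pow m
    rw [e, Polynomial.natDegree_prod_of_monic _ _ hm]
    refine ⟨Polynomial.monic_prod_of_monic _ _ hm, ?_⟩
    simp only [Polynomial.natDegree_pow, Polynomial.natDegree_X_sub_C, mul_one, Finset.sum_const,
      Finset.card_univ, Fintype.card_fin, smul_eq_mul]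
  have top : ∀ (k : ℕ) (F : MvPolynomial (Fin 2) ℂ), (∀ s ∈ F.support, s 0 ≤ ρ ∧ s 1 ≤ k) →
      (sg (T F)).natDegree ≤ ρ * (a + 1) + k ∧ ∀ s : Fin 2 →₀ ℕ, s 0 ≤ ρ → s 1 = k →
        ((sg (T F)).coeff (ρ * (a + 1) + k)).coeff (ρ - s 0) = F.coeff s := fun k F hF => by
    rw [hT, hom_map, sg_X1]
    exact hom_top s1 s0 t1 t0 hF
  have quo : ∀ F : MvPolynomial (Fin 2) ℂ, (∀ s ∈ F.support, s 0 ≤ ρ) →
      (∀ i, F ∈ RingHom.ker (eval (P' i)) ^ m) →
      ∃ G, T F = π * G ∧ ∀ i, G ∈ RingHom.ker (eval (P i)) ^ m1 := by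
    intro F hF hv
    have loc : ∀ i, ∃ G ∈ RingHom.ker (eval (P i)) ^ m1, T F = (X 1 - C (P i 1)) ^ m * G := by
      intro i
      obtain ⟨l, hl⟩ := lin_split (v0 i) (v1 i) (hq i)
      have a1 := hom_tr ρ (lin p1 q1) (lin p0 q0) (X 1) hL0 (P' i) F hF
      have a2 : P' i 0 = q1.eval (P i 1) / q0.eval (P i 1) := rfl
      have a3 : P' i 1 = P i 1 := rfl
      rw [a2, a3, hl, ← h1] at a1
      rw [hT, ← h1, a1]
      refine hom_van m m1 l _ _ _ ?_ ?_ _ fun s hs => ⟨h1 ▸ tr_deg _ hF s hs, ?_⟩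
      · rw [RingHom.mem_ker, eval_lin, v0]
      · simp [RingHom.mem_ker]
      · by_contra hc
        refine mem_support_iff.1 hs ((van_iff _ _ _).1 (hv i) s ?_)
        rw [Lower.degree_two]
        omega
    choose G hG hG' using loc
    obtain ⟨H, hH⟩ : π ∣ T F := by
      refine Fintype.prod_dvd_of_coprime (fun i j hij => IsCoprime.pow ?_) fun i => ⟨G i, hG' i⟩
      have a1 := (Polynomial.isCoprime_X_sub_C_of_isUnit_sub
        (Ne.isUnit (sub_ne_zero.2 (hd i j hij)))).map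
        (Polynomial.aeval (X 1 : MvPolynomial (Fin 2) ℂ)).toRingHom
      simpa using a1
    refine ⟨H, hH, fun i => ?_⟩
    have a2 : (∏ j ∈ Finset.univ.erase i, (X 1 - C (P j 1))) ^ m * H = G i := by
      refine mul_left_cancel₀ (pow_ne_zero m (Lower.lin_ne (P i 1))) ?_
      rw [← hG' i, hH, hπ, ← Finset.mul_prod_erase _ _ (Finset.mem_univ i), ← Finset.prod_pow,
        mul_assoc]
    refine Horace.cancel_pow (P i) _ H ?_ m m1 (a2 ▸ hG i)
    rw [map_prod]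
    refine Finset.prod_ne_zero_iff.2 fun j hj => ?_
    rw [map_sub, eval_X, eval_C]
    exact sub_ne_zero.2 (hd i j (Finset.ne_of_mem_erase hj).symm)
  have deg : ∀ G : MvPolynomial (Fin 2) ℂ, sg G ≠ 0 →
      (sg (π * G)).natDegree = (2 * a + 1) * m + (sg G).natDegree := fun G hG => by
    rw [map_mul, hπm.1.natDegree_mul' hG, hπm.2]
  have hρ : ρ * (a + 1) = a * ρ + ρ := by ring
  refine ⟨P', ?_, fun F k hF s hk hs => ?_⟩
  · have fin := sys_fin (tri_finite ν) P fun _ => m1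
    have hmap : ∀ F ∈ sys (rows (ρ + 1) fun _ => c) P' fun _ => m,
        T F ∈ (sys (tri ν) P fun _ => m1).map (LinearMap.mulLeft ℂ π) := by
      intro F hF
      obtain ⟨b1, b2⟩ := mem_sys.1 hF
      obtain ⟨G, hG, hG'⟩ := quo F (fun s hs => Nat.lt_succ_iff.1 (b1 s hs).1) b2
      refine ⟨G, mem_sys.2 ⟨fun s hs => ?_, hG'⟩, hG.symm⟩
      obtain ⟨b3, b4⟩ := sg_deg hs
      rcases Nat.eq_zero_or_pos c with hc | hc
      · have b5 : F = 0 := by
          rw [← support_eq_empty, Finset.eq_empty_iff_forall_notMem]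
          exact fun t ht => Nat.not_lt_zero _ ((b1 t ht).2.trans_eq hc)
        rw [b5, map_zero] at hG
        have b6 := congrArg sg hG
        rw [map_zero, map_mul] at b6
        exact absurd b6.symm (mul_ne_zero hπm.1.ne_zero b3)
      · have b5 := (top (c - 1) F fun t ht =>
          ⟨Nat.lt_succ_iff.1 (b1 t ht).1, Nat.le_sub_one_of_lt (b1 t ht).2⟩).1
        rw [hG, deg G b3] at b5
        change s 0 + s 1 < ν
        omega
    have hinj : Function.Injective (T.restrict hmap) := by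
      rw [injective_iff_map_eq_zero]
      rintro ⟨F, hF⟩ h0
      have b0 : T F = 0 := congrArg Subtype.val h0
      have b1 := (mem_sys.1 hF).1
      by_contra hne
      obtain ⟨s, hs, hmax⟩ := F.support.exists_max_image (fun s => s 1)
        (support_nonempty.2 fun b2 => hne (Subtype.ext b2))
      have b3 := (top (s 1) F fun t ht => ⟨Nat.lt_succ_iff.1 (b1 t ht).1, hmax t ht⟩).2 s
        (Nat.lt_succ_iff.1 (b1 s hs).1) rfl
      rw [b0, map_zero, Polynomial.coeff_zero, Polynomial.coeff_zero] at b3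
      exact mem_support_iff.1 hs b3.symm
    exact (LinearMap.finrank_le_finrank_of_injective hinj).trans
      ((Submodule.finrank_map_le _ _).trans hrk)
  · obtain ⟨b1, b2⟩ := mem_sys.1 hF
    by_contra hne
    have b3 := Nat.lt_succ_iff.1 (b1 s (mem_support_iff.2 hne)).1
    obtain ⟨G, hG, -⟩ := quo F (fun s hs => Nat.lt_succ_iff.1 (b1 s hs).1) b2
    obtain ⟨b4, b5⟩ := top k F fun t ht =>
      ⟨Nat.lt_succ_iff.1 (b1 t ht).1, Nat.lt_succ_iff.1 (b1 t ht).2⟩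
    apply hne
    rw [← b5 s b3 hk, hG]
    by_cases b6 : sg G = 0
    · rw [map_mul, b6, mul_zero, Polynomial.coeff_zero, Polynomial.coeff_zero]
    · rw [hG, deg G b6] at b4
      obtain ⟨d, hd'⟩ : ∃ d, ρ * (a + 1) + k = (2 * a + 1) * m + d :=
        Nat.exists_eq_add_of_le (by omega)
      rw [hd', map_mul, Polynomial.coeff_mul_add_eq_of_natDegree_le hπm.2.le (by omega),
        ← hπm.2, hπm.1.coeff_natDegree, one_mul]
      exact sg_high G (by omega)

end Pool.Agent.P.MP_8707bd_ag.Ex
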