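import Mathlib
import Pool.Agent.P.MP_8707bd_ag.Ex.OddDefs
import Pool.Agent.P.MP_8707bd_ag.Ex.Gen
import Pool.Agent.P.MP_8707bd_ag.Ex.Lower
import Pool.Agent.P.MP_8707bd_ag.Win.GlueE
import Pool.Agent.P.MP_8707bd_ag.Win.Horace

/-!
Vertical gluing of clusters in a strip (helper file only).
-/

namespace Pool.Agent.P.MP_8707bd_ag.Ex

open MvPolynomial Win All Irr

namespace GlueV

open All.Glue

/-- Scaling of the second variable. -/
noncomputable def sc2 {A : Type} [CommRing A] (t : A) :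
    MvPolynomial (Fin 2) A →ₐ[A] MvPolynomial (Fin 2) A := aeval ![X 0, C t * X 1]

lemma coeff_sc2 {A : Type} [CommRing A] (t : A) (H : MvPolynomial (Fin 2) A) (s : Fin 2 →₀ ℕ) :
    (sc2 t H).coeff s = t ^ s 1 * H.coeff s := by
  classical
  induction H using MvPolynomial.induction_on' with
  | monomial s' c =>
    have h1 : sc2 t (monomial s' c) = C (t ^ s' 1) * monomial s' c := by
      rw [sc2, aeval_monomial, monomial_eq, Finsupp.prod_fintype _ _ (by simp),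
        Finsupp.prod_fintype _ _ (by simp)]
      simp only [Fin.prod_univ_two, algebraMap_eq, map_pow, Matrix.cons_val_zero,
        Matrix.cons_val_one]
      ring
    rw [h1, coeff_C_mul, coeff_monomial]
    split_ifs with h
    · rw [h]
    · simp
  | add F G hF hG => rw [map_add, coeff_add, coeff_add, hF, hG, mul_add]

lemma eval_sc2 {A : Type} [CommRing A] (t : A) (q : Fin 2 → A) (H : MvPolynomial (Fin 2) A) :
    eval q (sc2 t H) = eval ![q 0, t * q 1] H := by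
  induction H using MvPolynomial.induction_on with
  | C a => simp [sc2]
  | add f g hf hg => simp only [map_add, hf, hg]
  | mul_X f k hf =>
    simp only [map_mul, hf]
    fin_cases k <;> simp [sc2]

lemma tr_row (v : Fin 2 → ℂ) (R : ℕ) (G : MvPolynomial (Fin 2) ℂ)
    (hG : ∀ s ∈ G.support, s 0 < R) : ∀ s ∈ (tr v G).support, s 0 < R := by
  classical
  intro s hs
  rw [G.as_sum, map_sum] at hs
  obtain ⟨s', h1, h2⟩ := Finset.mem_biUnion.1 (support_sum hs)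
  refine lt_of_le_of_lt ((monomial_le_degreeOf 0 h2).trans ?_) (hG s' h1)
  rw [tr, aeval_monomial, Finsupp.prod_fintype _ _ (by simp), Fin.prod_univ_two, algebraMap_eq]
  have h3 : degreeOf 0 (X 0 + C (v 0) : MvPolynomial (Fin 2) ℂ) ≤ 1 :=
    (degreeOf_add_le _ _ _).trans (by simp)
  have h4 : degreeOf 0 (X 1 + C (v 1) : MvPolynomial (Fin 2) ℂ) ≤ 0 :=
    (degreeOf_add_le _ _ _).trans (by simp [degreeOf_X])
  have h5 := (degreeOf_pow_le 0 (X 0 + C (v 0) : MvPolynomial (Fin 2) ℂ) (s' 0)).trans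
    (Nat.mul_le_mul_left _ h3)
  have h6 := (degreeOf_pow_le 0 (X 1 + C (v 1) : MvPolynomial (Fin 2) ℂ) (s' 1)).trans
    (Nat.mul_le_mul_left _ h4)
  have h7 := degreeOf_mul_le 0 ((X 0 + C (v 0) : MvPolynomial (Fin 2) ℂ) ^ s' 0)
    ((X 1 + C (v 1)) ^ s' 1)
  refine (degreeOf_mul_le _ _ _).trans ?_
  rw [degreeOf_C]
  omega

lemma divide (p : Fin 2 → ℂ) (c μ : ℕ) (F : MvPolynomial (Fin 2) ℂ)
    (h1 : ∀ s : Fin 2 →₀ ℕ, s 1 < c → (tr p F).coeff s = 0)
    (h2 : ∀ s : Fin 2 →₀ ℕ, s 0 + s 1 < c + μ → (tr p F).coeff s = 0) :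
    ∃ H ∈ RingHom.ker (eval p) ^ μ, F = (X 1 - C (p 1)) ^ c * H := by
  have h3 : (tr p F).modMonomial (Finsupp.single 1 c) = 0 := by
    ext s
    by_cases hs : Finsupp.single 1 c ≤ s
    · rw [coeff_modMonomial_of_le _ hs, coeff_zero]
    · rw [coeff_modMonomial_of_not_le _ hs, coeff_zero]
      exact h1 s (by simpa using hs)
  have h4 := divMonomial_add_modMonomial (tr p F) (Finsupp.single 1 c)
  rw [h3, add_zero, ← X_pow_eq_monomial] at h4
  refine ⟨tr (-p) ((tr p F).divMonomial (Finsupp.single 1 c)), ?_, ?_⟩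
  · rw [van_iff]
    intro s hs
    rw [tr_tr, add_neg_cancel, tr_zero, coeff_divMonomial]
    rw [Lower.degree_two] at hs
    refine h2 _ ?_
    simp only [Finsupp.add_apply, Finsupp.single_eq_same, Finsupp.single_eq_of_ne
      (show (0 : Fin 2) ≠ 1 by decide)]
    omega
  · have h5 := congrArg (tr (-p)) h4
    have h6 : tr (-p) (X 1) = X 1 - C (p 1) := by simp [tr, sub_eq_add_neg]
    rw [tr_tr, neg_add_cancel, tr_zero, map_mul, map_pow, h6] at h5
    exact h5.symm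

lemma quot_rows {ι : Type} [Fintype ι] (y : ι → ℂ) (c : ι → ℕ) {R : ℕ} {len : ℕ → ℕ}
    (F : MvPolynomial (Fin 2) ℂ) (h : ∀ s ∈ ((∏ i, (X 1 - C (y i)) ^ c i) * F).support,
      s ∈ rows R fun j => len j + ∑ i, c i) : ∀ s ∈ F.support, s ∈ rows R len := by
  intro s hs
  set π : Polynomial ℂ := ∏ i, (Polynomial.X - Polynomial.C (y i)) ^ c i with hπ
  have hm : π.Monic := Polynomial.monic_prod_of_monic _ _ fun i _ =>
    (Polynomial.monic_X_sub_C _).pow _
  have hd : π.natDegree = ∑ i, c i := by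
    rw [hπ, Polynomial.natDegree_prod_of_monic _ _ fun i _ => (Polynomial.monic_X_sub_C _).pow _]
    simp
  have h1 : toPP (∏ i, (X 1 - C (y i)) ^ c i : MvPolynomial (Fin 2) ℂ) = Polynomial.C π := by
    simp [hπ, toPP, map_prod]
  set q := (toPP F).coeff (s 0) with hq
  have h2 : q.coeff (s 1) ≠ 0 := by
    rw [hq, toPP_coeff]
    exact mem_support_iff.1 hs
  have h3 : q ≠ 0 := fun h0 => h2 (by simp [h0])
  have h4 := Polynomial.le_natDegree_of_ne_zero h2
  have h5 := toPP_coeff ((∏ i, (X 1 - C (y i)) ^ c i) * F)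
    (Finsupp.single 0 (s 0) + Finsupp.single 1 (π.natDegree + q.natDegree))
  have h6 := h _ (mem_support_iff.2 (by
    rw [← h5, map_mul, h1, Polynomial.coeff_C_mul]
    simpa [← hq, Polynomial.coeff_mul_degree_add_degree, hm.leadingCoeff] using h3))
  have h7 : s 0 < R ∧ π.natDegree + q.natDegree < len (s 0) + ∑ i, c i := by
    simpa [rows] using h6
  exact ⟨h7.1, by omega⟩

lemma coprime_lin {a b : ℂ} (h : a ≠ b) :
    IsCoprime (X 1 - C a : MvPolynomial (Fin 2) ℂ) (X 1 - C b) := by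
  refine ⟨C (b - a)⁻¹, -C (b - a)⁻¹, ?_⟩
  have h1 : (C (b - a)⁻¹ * (C b - C a) : MvPolynomial (Fin 2) ℂ) = 1 := by
    rw [← map_sub, ← map_mul, inv_mul_cancel₀ (sub_ne_zero.2 h.symm), map_one]
  linear_combination h1

lemma factor {ι : Type} [Fintype ι] (P : ι → Fin 2 → ℂ) (hP : ∀ i j, i ≠ j → P i 1 ≠ P j 1)
    (c μ : ι → ℕ) (F : MvPolynomial (Fin 2) ℂ)
    (h : ∀ i, ∃ H ∈ RingHom.ker (eval (P i)) ^ μ i, F = (X 1 - C (P i 1)) ^ c i * H) :
    ∃ G, F = (∏ i, (X 1 - C (P i 1)) ^ c i) * G ∧ ∀ i, G ∈ RingHom.ker (eval (P i)) ^ μ i := by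
  classical
  obtain ⟨G, hG⟩ : (∏ i, (X 1 - C (P i 1)) ^ c i) ∣ F :=
    Finset.prod_dvd_of_coprime (fun i _ j _ hij => (coprime_lin (hP i j hij)).pow)
      fun i _ => by obtain ⟨H, -, hH⟩ := h i; exact ⟨H, hH⟩
  refine ⟨G, hG, fun i => ?_⟩
  obtain ⟨H, h1, h2⟩ := h i
  rw [h2, ← Finset.mul_prod_erase _ _ (Finset.mem_univ i), mul_assoc] at hG
  have h3 := mul_left_cancel₀ (pow_ne_zero _ (Lower.lin_ne _)) hG
  refine Horace.cancel_pow (P i) (∏ j ∈ Finset.univ.erase i, (X 1 - C (P j 1)) ^ c j) G ?_ 1 _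
    (by rwa [pow_one, ← h3])
  rw [map_prod]
  refine Finset.prod_ne_zero_iff.2 fun j hj => ?_
  rw [map_pow, map_sub, eval_X, eval_C]
  exact pow_ne_zero _ (sub_ne_zero.2 (hP i j (Finset.ne_of_mem_erase hj).symm))

/-- The point of the cluster at `p` with local coordinates `q`. -/
noncomputable def pt (p q : Fin 2 → ℂ) : Fin 2 → HahnSeries ℤ ℂ :=
  ![HahnSeries.C (q 0), HahnSeries.single 1 1 * HahnSeries.C (q 1)] + fun k => HahnSeries.C (p k)

/-- The local expansion at `p`. -/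
noncomputable def loc (p : Fin 2 → ℂ) (g : ℤ) (F : MvPolynomial (Fin 2) (HahnSeries ℤ ℂ)) :
    MvPolynomial (Fin 2) ℂ :=
  cf g (sc2 (HahnSeries.single 1 1) (tr (fun k => (HahnSeries.C (p k) : HahnSeries ℤ ℂ)) F))

lemma coeff_loc (p : Fin 2 → ℂ) (g : ℤ) (F : MvPolynomial (Fin 2) (HahnSeries ℤ ℂ))
    (s : Fin 2 →₀ ℕ) : (loc p g F).coeff s = (tr p (cf (g - s 1) F)).coeff s := by
  rw [← cf_tr, loc, coeff_cf, coeff_cf, coeff_sc2, HahnSeries.single_pow,
    HahnSeries.coeff_single_mul]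
  simp

lemma loc_van (p q : Fin 2 → ℂ) (g : ℤ) (n : ℕ) (F : MvPolynomial (Fin 2) (HahnSeries ℤ ℂ))
    (h : F ∈ RingHom.ker (eval (pt p q)) ^ n) : loc p g F ∈ RingHom.ker (eval q) ^ n := by
  set t : HahnSeries ℤ ℂ := HahnSeries.single 1 1 with ht
  have h1 : sc2 t (tr (fun k => (HahnSeries.C (p k) : HahnSeries ℤ ℂ)) F) ∈
      RingHom.ker (eval fun k => (HahnSeries.C (q k) : HahnSeries ℤ ℂ)) ^ n := by
    refine pow_map_mem (((sc2 t).comp
      (tr fun k => (HahnSeries.C (p k) : HahnSeries ℤ ℂ))).toRingHom) _ _ (fun b hb => ?_) _ F h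
    change eval _ (sc2 t (tr _ b)) = 0
    rw [eval_sc2, eval_tr]
    exact hb
  exact Horace.cf_van g q n _ h1

lemma cf_supp (g : ℤ) (F : MvPolynomial (Fin 2) (HahnSeries ℤ ℂ)) :
    ∀ s ∈ (cf g F).support, s ∈ F.support := by
  intro s hs
  rw [mem_support_iff] at hs ⊢
  intro h0
  rw [coeff_cf, h0] at hs
  exact hs rfl

lemma loc_supp (p : Fin 2 → ℂ) {w : ℤ} {R : ℕ} (k : ℕ) {F : MvPolynomial (Fin 2) (HahnSeries ℤ ℂ)}
    (hw : Horace.Lw w F) (hR : ∀ s ∈ F.support, s 0 < R) :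
    ∀ s ∈ (loc p (w + k) F).support, s ∈ rows R fun _ => k + 1 := by
  intro s hs
  rw [mem_support_iff, coeff_loc] at hs
  refine ⟨tr_row p R _ (fun s' h => hR s' (cf_supp _ _ s' h)) s (mem_support_iff.2 hs), ?_⟩
  by_contra h
  replace h : ¬ s 1 < k + 1 := h
  rw [hw.cf_zero (by omega), map_zero, coeff_zero] at hs
  exact hs rfl

lemma exists_lead {F : MvPolynomial (Fin 2) (HahnSeries ℤ ℂ)} (h : F ≠ 0) :
    ∃ w, Horace.Lw w F ∧ cf w F ≠ 0 := by
  obtain ⟨s0, hs0, hmin⟩ := Finset.exists_min_image F.support (fun s => (F.coeff s).order)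
    (support_nonempty.mpr h)
  refine ⟨(F.coeff s0).order, fun s g hg => ?_, fun h0 => ?_⟩
  · by_cases hs : s ∈ F.support
    · exact HahnSeries.coeff_eq_zero_of_lt_order (hg.trans_le (hmin s hs))
    · rw [notMem_support_iff.mp hs]
      rfl
  · have := congrArg (fun G : MvPolynomial (Fin 2) ℂ => G.coeff s0) h0
    simp only [coeff_cf, coeff_zero] at this
    exact mem_support_iff.mp hs0 (HahnSeries.coeff_order_eq_zero.mp this)

end GlueV

open GlueV

theorem glueV {ι : Type} [Fintype ι] (R : ℕ) (len : ℕ → ℕ) (μ c n f : ι → ℕ) (e m : ℕ)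
    (h : KE (rows R len) μ e) (hQ : ∀ i, Loc R (c i) (μ i) m (n i) (f i))
    (r : ℕ) (hr : r = ∑ i, n i) :
    KE (rows R fun j => len j + ∑ i, c i) (fun _ : Fin r => m) (e + ∑ i, f i) := by
  classical
  obtain ⟨Φ, hΦ, hgen⟩ := gen (rows_finite R len) h
  have hD : (∏ x ∈ Finset.univ.offDiag, (X (x.1, 1) - X (x.2, 1)) :
      MvPolynomial (ι × Fin 2) ℂ) ≠ 0 :=
    Finset.prod_ne_zero_iff.2 fun x hx => sub_ne_zero.2 fun h0 =>
      (Finset.mem_offDiag.1 hx).2.2 (congrArg Prod.fst (X_injective h0))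
  obtain ⟨P, hP⟩ := exists_pt _ (mul_ne_zero hΦ hD)
  rw [map_mul, mul_ne_zero_iff, map_prod, Finset.prod_ne_zero_iff] at hP
  have hP1 : ∀ i j, i ≠ j → P i 1 ≠ P j 1 := fun i j hij => by
    simpa [sub_ne_zero] using hP.2 (i, j) (by simpa using hij)
  have := sys_fin (rows_finite R len) P μ
  obtain ⟨E, hE⟩ := Fill.fill e ((sys (rows R len) P μ).map
    (LinearMap.mulLeft ℂ (∏ i, (X 1 - C (P i 1)) ^ c i))) inferInstance
    ((Submodule.finrank_map_le _ _).trans (hgen P hP.1))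
  choose Q hQ1 hQ2 using hQ
  choose S hS using fun i => Fill.fill (f i) _ (sys_fin (rows_finite _ _) _ _) (hQ1 i)
  obtain ⟨Z, hZ1, hZ2⟩ : ∃ Z : (Fin e ⊕ Σ i, Fin (f i)) → Fin 2 → HahnSeries ℤ ℂ,
      (∀ a, Z (Sum.inl a) = fun k => HahnSeries.C (E a k)) ∧
        ∀ i b, Z (Sum.inr ⟨i, b⟩) = pt (P i) (S i b) :=
    ⟨Sum.elim (fun a k => HahnSeries.C (E a k)) fun b => pt (P b.1) (S b.1 b.2),
      fun _ => rfl, fun _ _ => rfl⟩
  have main : ∀ F : MvPolynomial (Fin 2) (HahnSeries ℤ ℂ),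
      (∀ s ∈ F.support, s ∈ rows R fun j => len j + ∑ i, c i) →
      (∀ a : Σ i, Fin (n i), F ∈ RingHom.ker (eval (pt (P a.1) (Q a.1 a.2))) ^ m) →
      (∀ a, F ∈ RingHom.ker (eval (Z a)) ^ 1) → F = 0 := by
    intro F h1 h2 h4
    by_contra hne
    obtain ⟨w, hw, hF0⟩ := exists_lead hne
    have hs := fun i (k : ℕ) => loc_supp (P i) k hw fun s hs => (h1 s hs).1
    have hv := fun i (k : ℕ) a => loc_van (P i) (Q i a) (w + k) m F (h2 ⟨i, a⟩)
    have hc : ∀ i (s : Fin 2 →₀ ℕ), (tr (P i) (Glue.cf w F)).coeff s =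
        (loc (P i) (w + s 1) F).coeff s := fun i s => by
      rw [coeff_loc, add_sub_cancel_right]
    have h5 : ∀ i (k : ℕ), k < c i → loc (P i) (w + k) F = 0 := fun i k hk => by
      refine hS i _ (mem_sys.2 ⟨fun s' h6 => rows_mono le_rfl (fun _ _ => hk)
        (hs i _ s' h6), hv i _⟩) fun b => ?_
      have h7 := h4 (Sum.inr ⟨i, b⟩)
      rw [hZ2] at h7
      have h8 := loc_van _ _ (w + k) 1 F h7
      rwa [pow_one, RingHom.mem_ker] at h8
    obtain ⟨G, hG, hG'⟩ := factor P hP1 c μ (Glue.cf w F) fun i => divide _ _ _ _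
      (fun s h6 => by rw [hc, h5 i _ h6, coeff_zero]) fun s h6 => by
        rw [hc]
        exact hQ2 i _ _ (mem_sys.2 ⟨hs i _, hv i _⟩) s rfl h6
    refine hF0 (hE _ ⟨G, mem_sys.2 ⟨quot_rows (fun i => P i 1) c G ?_, hG'⟩, hG.symm⟩ fun a => ?_)
    · rw [← hG]
      exact fun s hs => h1 s (cf_supp _ _ s hs)
    · have h7 := h4 (Sum.inl a)
      rw [hZ1] at h7
      have h8 := Horace.cf_van w (E a) 1 F h7
      rwa [pow_one, RingHom.mem_ker] at h8
  have key := ke_of_fun (K := HahnSeries ℤ ℂ) (ι := Σ i, Fin (n i)) _ (rows_finite _ _)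
    (fun a => pt (P a.1) (Q a.1 a.2)) (fun _ => m) (fun a => (aeval (Z a)).toLinearMap)
    fun F h1 h2 h3 => main F h1 h2 fun a => by
      rw [pow_one, RingHom.mem_ker, ← coe_aeval_eq_eval]
      exact h3 a
  have hc : Fintype.card (Fin e ⊕ Σ i, Fin (f i)) = e + ∑ i, f i := by simp
  rw [hc] at key
  have hc2 : Fintype.card (Fin r) = Fintype.card (Σ i, Fin (n i)) := by simp [hr]
  exact key.reindex (Fintype.equivOfCardEq hc2) _ fun _ => rfl

end Pool.Agent.P.MP_8707bd_ag.Ex
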