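import Mathlib
import Pool.Agent.P.MP_8707bd_ag.Ex.Elem
import Pool.Agent.P.MP_8707bd_ag.Ex.GlueV
import Pool.Agent.P.MP_8707bd_ag.Win.DesignM

/-!
The criterion for a design whose groups are clusters of an odd square number of points
(helper file only).
-/

namespace Pool.Agent.P.MP_8707bd_ag.Ex

open MvPolynomial Win All Irr

/-- The same group with another size. -/
def reMu (t : Ty) (μ : ℕ) : Ty := { t with mu := μ }

lemma pp_smul {c : ℝ} (hc : 0 < c) (x y : ℝ) : pp (x - c * y) = c * pp (x / c - y) := by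
  unfold pp
  rw [mul_max_of_nonneg _ _ hc.le, mul_zero, mul_sub, mul_div_cancel₀ _ hc.ne']

lemma ratio_smul {c : ℝ} (hc : c ≠ 0) (a b a' b' : ℝ) :
    (c * a - c * b) * (c * a' - c * b')⁻¹ = (a - b) * (a' - b')⁻¹ := by
  rw [← mul_sub, ← mul_sub, mul_inv, mul_mul_mul_comm, mul_inv_cancel₀ hc, one_mul]

lemma kap_smul {c : ℝ} (hc : c ≠ 0) (X : ℕ → ℝ) (t : Ty) (μ w : ℕ) :
    kap (fun w => c * X w) (reMu t μ) w = kap X t w := by
  simp only [kap, reMu, ratio_smul hc]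

lemma shape_smul {t : Ty} {n μ : ℕ} {X : ℕ → ℝ} {σ c : ℝ} (h : ShapeR t n X σ)
    (hμ : (μ : ℝ) = c * σ) : (reMu t μ).Shape n fun w => c * X w := by
  rcases h with ⟨a1, a2, a3, a4, a5⟩ | ⟨a1, a2, a3, a4, a5⟩ | ⟨a1, a2, a3, a4, a5⟩
  · exact Or.inl ⟨a1, a2, by simp only [reMu]; rw [hμ, a3], a4, a5⟩
  · exact Or.inr (Or.inl ⟨a1, a2, a3, by simp only [reMu]; rw [hμ, a4]; ring, a5⟩)
  · exact Or.inr (Or.inr ⟨a1, a2, a3, a4, by simp only [reMu]; rw [hμ, a5]; ring⟩)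

lemma prof_smul {t : Ty} {n μ : ℕ} {X : ℕ → ℝ} {σ c : ℝ} (hc : 0 < c) (h : ShapeR t n X σ)
    (hμ : (μ : ℝ) = c * σ) (x : ℝ) :
    prof (fun w => c * X w) (reMu t μ) x = c * profR X t (x / c) := by
  have h0 : a0 (fun w => c * X w) (reMu t μ) = c * a0R X t := by
    simp only [a0, a0R, reMu]
    split_ifs with hp
    · rcases h with a | a | a
      · rw [hμ, a.2.2.1]; ring
      · exact absurd hp a.1
      · exact absurd hp a.1
    · ring
  rw [prof, h0, profR]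
  simp only [U, reMu, ratio_smul hc.ne', pp_smul hc]
  ring

lemma shape_nonneg {t : Ty} {n : ℕ} {X : ℕ → ℝ} {σ : ℝ} (X0 : X 0 = 0)
    (hX : ∀ a b, a < b → b ≤ n → X a < X b) (h : ShapeR t n X σ) (h2 : t.Ord n) :
    0 ≤ σ ∧ (0 < t.e2 → t.e1 < n → 0 < σ) := by
  have hle : ∀ a b, a ≤ b → b ≤ n → X a ≤ X b := fun a b h h' => by
    rcases h.lt_or_eq with h | h
    · exact (hX a b h h').le
    · rw [h]
  have hp : t.p ≤ n := by rcases h2 with h | h | h <;> omega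
  have hq : t.q ≤ n := by rcases h2 with h | h | h <;> omega
  rcases h with ⟨-, -, a3, -, a5⟩ | ⟨-, -, -, a4, a5⟩ | ⟨-, a2, -, -, a5⟩
  · have := hle 0 _ (Nat.zero_le _) a5
    exact ⟨by linarith, fun b _ => by have := hX 0 _ b a5; linarith⟩
  · have := hle _ n (a5.trans hp) le_rfl
    exact ⟨by linarith, fun _ b => by have := hX _ n b le_rfl; linarith⟩
  · have := hX _ _ a2 hq
    exact ⟨by linarith, fun _ _ => by linarith⟩

/-- The cluster below the critical width. -/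
lemma loc_low {K m ρ : ℕ} {W : ℝ} (hK : Odd K) (hρ : m ≤ ρ) (hJ : (ρ : ℝ) = W * m)
    (hm : 0 < m) (h0 : 0 ≤ szK K W) :
    ∃ μ c : ℕ, (μ : ℝ) = m * szK K W ∧ (c : ℝ) = m * fbK K W ∧ Loc (ρ + 1) c μ m (K ^ 2) 0 := by
  obtain ⟨b, rfl⟩ := hK
  have hm' : (0 : ℝ) < m := by exact_mod_cast hm
  have e1 : (m : ℝ) * szK (2 * b + 1) W = (2 * b + 1) * m - 2 * b * ρ := by
    rw [szK, hJ]; push_cast; ring
  have h1 : 2 * b * ρ ≤ (2 * b + 1) * m := by
    have : (0 : ℝ) ≤ (2 * b + 1) * m - 2 * b * ρ := e1 ▸ mul_nonneg hm'.le h0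
    have h : (2 * b * ρ : ℝ) ≤ (2 * b + 1) * m := by linarith
    exact_mod_cast h
  obtain ⟨μ, hμ⟩ := Nat.exists_eq_add_of_le h1
  obtain ⟨m1, rfl⟩ := Nat.exists_eq_add_of_le hρ
  have hμ' : ((2 * b + 1) * m : ℝ) = 2 * b * ((m + m1 : ℕ) : ℝ) + μ := by exact_mod_cast hμ
  have e2 : (2 * b + 1) ^ 2 = 2 * (2 * b * (b + 1)) + 1 := by ring
  refine ⟨μ, 2 * b * (μ + b * (m + m1)), by rw [e1]; linarith, ?_, ?_⟩
  · have e3 : (m : ℝ) * fbK (2 * b + 1) W = 2 * b * ((2 * b + 1) * m - b * (W * m)) := by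
      rw [fbK]; push_cast; ring
    rw [e3, ← hJ, hμ']
    push_cast
    ring
  · have h := sq_nag (2 * b + 1) m1
    rw [e2] at h ⊢
    refine elem _ m m1 _ _ _ μ 0 rfl (by nlinarith) ?_ h
    have : m = μ + 2 * b * m1 := by nlinarith
    subst this
    ring

/-- The cluster above the critical width. -/
lemma loc_up {K S ρ : ℕ} {W : ℝ} (hK : Odd K) (hρ : S + 1 ≤ ρ) (hJ : (ρ : ℝ) = W * S)
    (hS : 0 < S) (h0 : 0 < szK K W) :
    ∃ μ c f : ℕ, (μ : ℝ) = S * szK K W ∧ (c : ℝ) = S * fbK K W + (K ^ 2 + 1) ∧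
      f + K ^ 2 * (S + 1 + 1).choose 2 = μ.choose 2 + (ρ + 1) * c ∧
      Loc (ρ + 1) c (μ - 1) (S + 1) (K ^ 2) f := by
  obtain ⟨b, rfl⟩ := hK
  have hm' : (0 : ℝ) < S := by exact_mod_cast hS
  have e1 : (S : ℝ) * szK (2 * b + 1) W = (2 * b + 1) * S - 2 * b * ρ := by
    rw [szK, hJ]; push_cast; ring
  have h1 : 2 * b * ρ < (2 * b + 1) * S := by
    have : (0 : ℝ) < (2 * b + 1) * S - 2 * b * ρ := e1 ▸ mul_pos hm' h0
    have h : (2 * b * ρ : ℝ) < (2 * b + 1) * S := by linarith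
    exact_mod_cast h
  obtain ⟨μ, hμ⟩ := Nat.exists_eq_add_of_lt h1
  obtain ⟨m1, rfl⟩ := Nat.exists_eq_add_of_le hρ
  have hμ' : ((2 * b + 1) * S : ℝ) = 2 * b * ((S + 1 + m1 : ℕ) : ℝ) + μ + 1 := by
    exact_mod_cast hμ
  have e2 : (2 * b + 1) ^ 2 = 2 * (2 * b * (b + 1)) + 1 := by ring
  have hS' : S = μ + 1 + 2 * b * (m1 + 1) := by nlinarith
  obtain ⟨f, f1, f2⟩ := sq_up (2 * b + 1) m1 ((2 * b + 1) * (m1 + 1) + 1) (by nlinarith)
  refine ⟨μ + 1, 2 * b * (μ + 1 + b * (S + 1 + m1)) + (2 * b + 1) ^ 2 + 1, f,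
    by rw [e1]; push_cast at hμ' ⊢; linarith, ?_, ?_, ?_⟩
  · have e3 : (S : ℝ) * fbK (2 * b + 1) W = 2 * b * ((2 * b + 1) * S - b * (W * S)) := by
      rw [fbK]; push_cast; ring
    rw [e3, ← hJ, hμ']
    push_cast
    ring
  · have ch : ∀ x : ℕ, 2 * (x + 1).choose 2 = x * (x + 1) := fun x => by
      induction x with
      | zero => rfl
      | succ x ih => rw [Nat.choose_succ_succ' (x + 1) 1, mul_add, ih, Nat.choose_one_right]; ring
    have c1 := ch m1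
    have c2 := ch ((2 * b + 1) * (m1 + 1) + 1)
    have c3 := ch (S + 1)
    have c4 := ch μ
    refine Nat.eq_of_mul_eq_mul_left (by norm_num : 0 < 2) ?_
    refine Nat.add_right_cancel (m := (2 * b + 1) ^ 2 * (2 * (m1 + 1).choose 2)) ?_
    have g1 : 2 * (f + (2 * b + 1) ^ 2 * (S + 1 + 1).choose 2) +
        (2 * b + 1) ^ 2 * (2 * (m1 + 1).choose 2) =
        2 * (f + (2 * b + 1) ^ 2 * (m1 + 1).choose 2) +
        (2 * b + 1) ^ 2 * (2 * (S + 1 + 1).choose 2) := by ring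
    rw [g1, f1, c2, c3, c1, mul_add 2 ((μ + 1).choose 2), c4, hS']
    ring
  · rw [e2] at f2 ⊢
    rw [Nat.add_sub_cancel]
    refine elem _ (S + 1) m1 _ _ _ μ f rfl (by rw [hS']; ring) ?_ f2
    rw [hS']
    ring

section
variable {ι : Type} [Fintype ι] {ty : ι → Ty} {n s P : ℕ} {par lev rl : ℕ → ℕ}

/-- The design at scale one, for integral sizes `μ u = c * σ u`. -/
theorem core_scale (T : Tree n s P par lev rl) (X : ℕ → ℝ) (X0 : X 0 = 0)
    (hX : ∀ a b, a < b → b ≤ n → X a < X b) (N : ι → ℕ)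
    (hv : ∀ u, (ty u).v < s) (σ : ι → ℝ) (s1 : ∀ u, ShapeR (ty u) n X (σ u))
    (s2 : ∀ u, (ty u).Ord n)
    (s3 : ∀ u, (ty u).p < (ty u).z → (ty u).z < (ty u).q → Level ty par lev rl (ty u))
    (sup : ∀ k, 0 < k → k < s → ∀ w, 0 < w → w < n → lev k < rl w →
      (∀ u, Below par k (ty u).v → (ty u).z ≠ w) ∨
        0 < below ty par (fun u => N u * kap X (ty u) w) k)
    (c : ℝ) (hc : 0 < c) (μ : ι → ℕ) (hμ : ∀ u, (μ u : ℝ) = c * σ u)
    (J : ℕ) (hJ : (J : ℝ) = X n * c) :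
    (∀ j ≤ J, 0 ≤ c * ∑ u, N u * profR X (ty u) (j / c)) ∧
    (∀ len : ℕ → ℕ, (∀ j ≤ J, (len j : ℝ) ≤ c * ∑ u, N u * profR X (ty u) (j / c)) →
      KE (rows (J + 1) len) (fun a : Σ u, Fin (N u) => μ a.1) 0) ∧
    ∀ len : ℕ → ℕ, (∀ j ≤ J, c * ∑ u, N u * profR X (ty u) (j / c) + 2 ^ s ≤ (len j : ℝ)) →
      ∃ e, e + ∑ u, N u * (μ u).choose 2 = ∑ j ∈ Finset.range (J + 1), len j ∧
        KE (rows (J + 1) len) (fun a : Σ u, Fin (N u) => μ a.1 - 1) e := by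
  set Y : ℕ → ℝ := fun w => c * X w with hY
  set ty' : ι → Ty := fun u => reMu (ty u) (μ u) with hty
  have Y0 : Y 0 = 0 := by simp only [hY, X0, mul_zero]
  have hY' : ∀ a b, a < b → b ≤ n → Y a < Y b := fun a b h1 h2 =>
    mul_lt_mul_of_pos_left (hX a b h1 h2) hc
  have hv' : ∀ u, (ty' u).v < s := hv
  have t1 : ∀ u, (ty' u).Shape n Y := fun u => shape_smul (s1 u) (hμ u)
  have t2 : ∀ u, (ty' u).Ord n := s2
  have hJ' : (J : ℝ) = Y n := by rw [hJ, mul_comm]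
  have hp : ∀ x, ∑ u, N u * prof Y (ty' u) x = c * ∑ u, N u * profR X (ty u) (x / c) := by
    intro x
    rw [Finset.mul_sum]
    refine Finset.sum_congr rfl fun u _ => ?_
    rw [prof_smul hc (s1 u) (hμ u)]
    ring
  obtain ⟨g, hg, hc'⟩ := design_prices (ty := ty') T Y hY' N hv' t1 t2 s3 (by
    intro k k0 ks w w0 wn h
    refine (sup k k0 ks w w0 wn h).imp id fun h1 => ?_
    have : (fun u => N u * kap Y (ty' u) w) = fun u => N u * kap X (ty u) w :=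
      funext fun u => by rw [kap_smul hc.ne']
    rw [this]
    exact h1)
  have cov : ∀ u, ∃ h : Fin (P + 2) → ℝ, ∀ x, 0 ≤ x → x ≤ Y n →
      prof Y (ty' u) x ≤ 0 ∨
        Irr.Cov (RankRel (g (ty' u).v) h x) ((ty' u).mu - prof Y (ty' u) x) := by
    intro u
    obtain ⟨C, K, c1, c2, c3, c4, c5, c6⟩ := hc' u
    exact cov_ty n Y Y0 hY' _ C K c1 c2 c3 c4 c5 T.n0 (ty' u) (t1 u) (t2 u) c6
  have covl : ∀ u, ((ty' u).mu : ℝ) ≤ Y n ∧ ∃ h : Fin (P + 2) → ℝ, ∀ x, 0 ≤ x → x ≤ Y n →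
      0 ≤ prof Y (ty' u) x ∧
        CovL (Cheap (Y n) (g (ty' u).v) h x) ((ty' u).mu - prof Y (ty' u) x) := by
    intro u
    obtain ⟨C, K, c1, c2, c3, c4, c5, c6⟩ := hc' u
    exact covl_ty n Y Y0 hY' _ C K c1 c2 c3 c4 c5 T.n0 (ty' u) (t1 u) (t2 u) c6
  choose h hh using cov
  choose hm h' hh' using covl
  refine ⟨fun j hj => ?_, fun len hlen => ?_, fun len hlen => ?_⟩
  · rw [← hp]
    exact Finset.sum_nonneg fun u _ => mul_nonneg (Nat.cast_nonneg _)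
      (hh' u j (Nat.cast_nonneg _) (by rw [← hJ']; exact_mod_cast hj)).1
  · have h1 := cont_low (Y n) s T.s0 N (fun u => (ty' u).mu) (fun u => (ty' u).v) hv' par
      (fun k a b => (T.vert k a b).1) lev (fun k a b => (T.vert k a b).2.2.2.1) g
      (fun k x => below ty' par (fun u => N u * prof Y (ty' u) x) k) hg h
      (fun u x => prof Y (ty' u) x) hh
      (fun k k0 _ x _ _ => (below_vert T hv' (fun u => N u * prof Y (ty' u) x) k k0).ge)
      1 J one_pos (by rw [hJ']; simp) (fun j => Finset.range (len j)) (fun j hj => by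
        rw [below_root T hv' (fun u => N u * prof Y (ty' u) (j / (1 : ℕ))), hp]
        simpa using hlen j hj)
    rw [rows_eq]
    simp only [mul_one] at h1
    exact h1
  · obtain ⟨e, he, h1⟩ := cont_up (Y n) s T.s0 N (fun u => (ty' u).mu) (fun u => (ty' u).v) hv'
      par (fun k a b => (T.vert k a b).1) lev (fun k a b => (T.vert k a b).2.2.2.1) g
      (fun k x => below ty' par (fun u => N u * prof Y (ty' u) x) k) hg h'
      (fun u x => prof Y (ty' u) x) hm hh'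
      (fun k _ _ x x0 x1 => Finset.sum_nonneg fun u _ => by
        split_ifs
        · exact mul_nonneg (Nat.cast_nonneg _) (hh' u x x0 x1).1
        · exact le_rfl)
      (fun k k0 _ x _ _ => (below_vert T hv' (fun u => N u * prof Y (ty' u) x) k k0).le)
      1 J one_pos (by rw [hJ']; simp) (fun j => Finset.range (len j)) (fun j hj => by
        rw [below_root T hv' (fun u => N u * prof Y (ty' u) (j / (1 : ℕ))), hp]
        simpa using hlen j hj)
    rw [rows_eq]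
    simp only [mul_one, Finset.card_range] at he h1
    exact ⟨e, he, h1⟩

lemma sum_sig (N f : ι → ℕ) : ∑ a : Σ u, Fin (N u), f a.1 = ∑ u, N u * f u := by
  rw [Fintype.sum_sigma]
  simp

theorem odd_low (T : Tree n s P par lev rl) (X : ℕ → ℝ) (X0 : X 0 = 0)
    (hX : ∀ a b, a < b → b ≤ n → X a < X b) (N : ι → ℕ)
    (hv : ∀ u, (ty u).v < s) (s1 : ∀ u, ShapeR (ty u) n X (szK (ty u).mu (X n)))
    (s2 : ∀ u, (ty u).Ord n)
    (s3 : ∀ u, (ty u).p < (ty u).z → (ty u).z < (ty u).q → Level ty par lev rl (ty u))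
    (sup : ∀ k, 0 < k → k < s → ∀ w, 0 < w → w < n → lev k < rl w →
      (∀ u, Below par k (ty u).v → (ty u).z ≠ w) ∨
        0 < below ty par (fun u => N u * kap X (ty u) w) k)
    (hodd : ∀ u, Odd (ty u).mu) (r : ℕ) (hr : r = ∑ u, N u * (ty u).mu ^ 2)
    (m ρ : ℕ) (hm : 0 < m) (hρ : m ≤ ρ) (hJ : (ρ : ℝ) = X n * m) (len : ℕ → ℕ)
    (hlen : ∀ j ≤ ρ, (len j : ℝ) ≤
      m * ∑ u, N u * (fbK (ty u).mu (X n) + profR X (ty u) (j / m))) :
    KE (rows (ρ + 1) len) (fun _ : Fin r => m) 0 := by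
  have hm' : (0 : ℝ) < m := by exact_mod_cast hm
  choose μ c hμ hc hL using fun u =>
    loc_low (hodd u) hρ hJ hm (shape_nonneg X0 hX (s1 u) (s2 u)).1
  obtain ⟨k0, k1, -⟩ := core_scale T X X0 hX N hv _ s1 s2 s3 sup m hm' μ hμ ρ hJ
  set C : ℕ := ∑ a : Σ u, Fin (N u), c a.1 with hC
  have hC' : (C : ℝ) = m * ∑ u, N u * fbK (ty u).mu (X n) := by
    rw [hC, sum_sig, Finset.mul_sum]
    push_cast
    exact Finset.sum_congr rfl fun u _ => by rw [hc]; ring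
  have h1 := k1 (fun j => len j - C) fun j hj => by
    rcases le_total (len j) C with h | h
    · rw [Nat.sub_eq_zero_of_le h, Nat.cast_zero]
      exact k0 j hj
    · have := hlen j hj
      simp only [mul_add, Finset.sum_add_distrib] at this
      rw [Nat.cast_sub h, hC']
      linarith
  have h2 := glueV _ _ _ (fun a => c a.1) (fun a => (ty a.1).mu ^ 2) (fun _ => 0) 0 m h1
    (fun a => hL a.1) r (by rw [hr, sum_sig N fun u => (ty u).mu ^ 2])
  simp only [Finset.sum_const_zero, add_zero] at h2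
  exact h2.mono (rows_mono le_rfl fun j _ => le_tsub_add)

theorem odd_up (T : Tree n s P par lev rl) (X : ℕ → ℝ) (X0 : X 0 = 0)
    (hX : ∀ a b, a < b → b ≤ n → X a < X b) (N : ι → ℕ)
    (hv : ∀ u, (ty u).v < s) (s1 : ∀ u, ShapeR (ty u) n X (szK (ty u).mu (X n)))
    (s2 : ∀ u, (ty u).Ord n)
    (s3 : ∀ u, (ty u).p < (ty u).z → (ty u).z < (ty u).q → Level ty par lev rl (ty u))
    (sup : ∀ k, 0 < k → k < s → ∀ w, 0 < w → w < n → lev k < rl w →
      (∀ u, Below par k (ty u).v → (ty u).z ≠ w) ∨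
        0 < below ty par (fun u => N u * kap X (ty u) w) k)
    (hodd : ∀ u, Odd (ty u).mu) (hpos : ∀ u, 0 < (ty u).e2 ∧ (ty u).e1 < n)
    (r : ℕ) (hr : r = ∑ u, N u * (ty u).mu ^ 2)
    (S ρ : ℕ) (hS : 0 < S) (hρ : S + 1 ≤ ρ) (hJ : (ρ : ℝ) = X n * S) (len : ℕ → ℕ)
    (hlen : ∀ j ≤ ρ, S * (∑ u, N u * (fbK (ty u).mu (X n) + profR X (ty u) (j / S))) +
      (∑ u, (N u : ℝ) * ((ty u).mu ^ 2 + 1)) + 2 ^ s ≤ (len j : ℝ)) :
    ∃ e, e + r * (S + 1 + 1).choose 2 = ∑ j ∈ Finset.range (ρ + 1), len j ∧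
      KE (rows (ρ + 1) len) (fun _ : Fin r => S + 1) e := by
  have hm' : (0 : ℝ) < S := by exact_mod_cast hS
  choose μ c f hμ hc hf hL using fun u =>
    loc_up (hodd u) hρ hJ hS ((shape_nonneg X0 hX (s1 u) (s2 u)).2 (hpos u).1 (hpos u).2)
  obtain ⟨k0, -, k1⟩ := core_scale T X X0 hX N hv _ s1 s2 s3 sup S hm' μ hμ ρ hJ
  set C : ℕ := ∑ a : Σ u, Fin (N u), c a.1 with hC
  have hC' : (C : ℝ) = S * ∑ u, N u * fbK (ty u).mu (X n) +
      ∑ u, (N u : ℝ) * ((ty u).mu ^ 2 + 1) := by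
    rw [hC, sum_sig, Finset.mul_sum, ← Finset.sum_add_distrib]
    push_cast
    exact Finset.sum_congr rfl fun u _ => by rw [hc]; ring
  have hl : ∀ j ≤ ρ, S * ∑ u, N u * profR X (ty u) (j / S) + 2 ^ s + C ≤ (len j : ℝ) := by
    intro j hj
    have := hlen j hj
    rw [Finset.sum_congr rfl fun u _ => mul_add (N u : ℝ) (fbK (ty u).mu (X n)) _,
      Finset.sum_add_distrib, mul_add] at this
    rw [hC']
    linarith
  have hle : ∀ j ≤ ρ, C ≤ len j := fun j hj => by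
    have h1 := hl j hj
    have h2 := k0 j hj
    have h3 : (0 : ℝ) < 2 ^ s := by positivity
    have : (C : ℝ) ≤ len j := by linarith
    exact_mod_cast this
  obtain ⟨e, he, h1⟩ := k1 (fun j => len j - C) fun j hj => by
    rw [Nat.cast_sub (hle j hj)]
    linarith [hl j hj]
  have h2 := glueV _ _ _ (fun a => c a.1) (fun a => (ty a.1).mu ^ 2) (fun a => f a.1) e (S + 1) h1
    (fun a => hL a.1) r (by rw [hr, sum_sig N fun u => (ty u).mu ^ 2])
  refine ⟨_, ?_, h2.mono (rows_mono le_rfl fun j _ => le_tsub_add)⟩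
  have h3 : ∑ j ∈ Finset.range (ρ + 1), len j =
      ∑ j ∈ Finset.range (ρ + 1), (len j - C) + (ρ + 1) * C := by
    rw [← Finset.card_range (ρ + 1), ← smul_eq_mul, ← Finset.sum_const, Finset.card_range,
      ← Finset.sum_add_distrib]
    exact Finset.sum_congr rfl fun j hj =>
      (Nat.sub_add_cancel (hle j (Nat.lt_succ_iff.1 (Finset.mem_range.1 hj)))).symm
  rw [h3, ← he, hC, sum_sig N c, sum_sig N f, hr, add_assoc e, add_assoc e, Finset.sum_mul,
    Finset.mul_sum, ← Finset.sum_add_distrib, ← Finset.sum_add_distrib]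
  congr 1
  refine Finset.sum_congr rfl fun u _ => ?_
  rw [mul_assoc, ← mul_add, hf u]
  ring

end

end Pool.Agent.P.MP_8707bd_ag.Ex
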