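import Mathlib
import Pool.Agent.P.MP_8707bd_ag.Ex.ContS
import Pool.Agent.P.MP_8707bd_ag.Win.DesignM

/-!
The sharp criterion for a design with points of size one (helper file only).
-/

namespace Pool.Agent.P.MP_8707bd_ag.Ex

open MvPolynomial Win All Irr

lemma covw_left {P : ℕ} (c : ℝ) (g : ℝ → Fin (P + 2) → ℝ) (hwall : ∀ x, g x 0 = pp (x - c))
    (h1 : ∀ x, g x 1 = 0) : ∃ h : Fin (P + 2) → ℝ, ∀ x, 0 ≤ x → x ≤ c →
      U 1 0 0 0 0 1 x ≤ 0 ∨ CovW c (RankRel g h x) (1 - U 1 0 0 0 0 1 x) := by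
  refine ⟨fun j => if j = 1 then 1 else 0, fun x h0 hx => ?_⟩
  have eU : U 1 0 0 0 0 1 x = 1 - x + pp (x - 1) := by
    rw [U, pp_of_ge h0]; ring
  rw [eU]
  rcases le_total 1 x with e | e
  · left; rw [pp_of_ge e]; linarith
  · right
    refine Or.inl fun y ⟨y0, hy⟩ => ?_
    have a0 := hy 0 fun j hj => absurd hj (Fin.not_lt_zero j)
    have a1 := hy 1 fun j hj => by
      rw [Shape.lt_one hj]
      refine le_antisymm a0 ?_
      simp only [hwall, pp_of_le hx, Fin.zero_eq_one_iff]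
      simpa using pp_nonneg _
    have a2 : y ≤ x := by simpa [h1] using a1
    rw [pp_of_le e]
    linarith

lemma covw_right {P : ℕ} (c : ℝ) (g : ℝ → Fin (P + 2) → ℝ) (hwall : ∀ x, g x 0 = pp (x - c))
    (h1 : ∀ x, g x 1 = 0) : ∃ h : Fin (P + 2) → ℝ, ∀ x, 0 ≤ x → x ≤ c →
      U 0 (c - 1) c c c c x ≤ 0 ∨ CovW c (RankRel g h x) (1 - U 0 (c - 1) c c c c x) := by
  refine ⟨fun j => if j = 1 then -1 else 0, fun x h0 hx => ?_⟩
  have eU : U 0 (c - 1) c c c c x = pp (x - (c - 1)) := by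
    rw [U, pp_of_le hx]; ring
  rw [eU]
  rcases le_total x (c - 1) with e | e
  · left; rw [pp_of_le e]
  · right
    refine Or.inr fun y ⟨y0, hy⟩ => ?_
    have a0 := hy 0 fun j hj => absurd hj (Fin.not_lt_zero j)
    have a1 := hy 1 fun j hj => by
      rw [Shape.lt_one hj]
      refine le_antisymm a0 ?_
      simp only [hwall, pp_of_le hx, Fin.zero_eq_one_iff]
      simpa using pp_nonneg _
    have a2 : x ≤ y := by simpa [h1] using a1
    rw [pp_of_ge e]
    linarith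

lemma covlw_left {P : ℕ} (c : ℝ) (g : ℝ → Fin (P + 2) → ℝ) (hwall : ∀ x, g x 0 = pp (x - c))
    (h1 : ∀ x, g x 1 = 0) : ∃ h : Fin (P + 2) → ℝ, ∀ x, 0 ≤ x → x ≤ c →
      0 ≤ U 1 0 0 0 0 1 x ∧ CovLW c (Cheap c g h x) (1 - U 1 0 0 0 0 1 x) := by
  refine ⟨fun j => if j = 1 then 1 else 0, fun x h0 hx => ?_⟩
  have eU : U 1 0 0 0 0 1 x = 1 - x + pp (x - 1) := by
    rw [U, pp_of_ge h0]; ring
  rw [eU]
  have key : ∀ y, 0 < y → y < x → Cheap c g (fun j => if j = 1 then 1 else 0) x y := by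
    intro y a b
    refine ⟨a.le, by linarith, fun hy => ?_⟩
    have a1 := hy 1 fun j hj => by
      rw [Shape.lt_one hj]
      simp [hwall, pp_of_le hx, pp_of_le (by linarith : y ≤ c)]
    have a2 : x ≤ y := by simpa [h1] using a1
    linarith
  refine ⟨by linarith [le_pp (x - 1)], ?_⟩
  rcases le_total 1 x with e | e
  · rw [pp_of_ge e]
    exact ⟨by linarith, Or.inl fun y u v => key y u (by linarith)⟩
  · rw [pp_of_le e]
    exact ⟨by linarith, Or.inl fun y u v => key y u (by linarith)⟩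

lemma covlw_right {P : ℕ} (c : ℝ) (g : ℝ → Fin (P + 2) → ℝ) (hwall : ∀ x, g x 0 = pp (x - c))
    (h1 : ∀ x, g x 1 = 0) : ∃ h : Fin (P + 2) → ℝ, ∀ x, 0 ≤ x → x ≤ c →
      0 ≤ U 0 (c - 1) c c c c x ∧ CovLW c (Cheap c g h x) (1 - U 0 (c - 1) c c c c x) := by
  refine ⟨fun j => if j = 1 then -1 else 0, fun x h0 hx => ?_⟩
  have eU : U 0 (c - 1) c c c c x = pp (x - (c - 1)) := by
    rw [U, pp_of_le hx]; ring
  rw [eU]
  have key : ∀ y, x < y → y < c → Cheap c g (fun j => if j = 1 then -1 else 0) x y := by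
    intro y a b
    refine ⟨by linarith, b.le, fun hy => ?_⟩
    have a1 := hy 1 fun j hj => by
      rw [Shape.lt_one hj]
      simp [hwall, pp_of_le hx, pp_of_le b.le]
    have a2 : y ≤ x := by simpa [h1] using a1
    linarith
  refine ⟨pp_nonneg _, ?_⟩
  rcases le_total x (c - 1) with e | e
  · rw [pp_of_le e]
    exact ⟨by linarith, Or.inr fun y u v => key y (by linarith) v⟩
  · rw [pp_of_ge e]
    exact ⟨by linarith, Or.inr fun y u v => key y (by linarith) v⟩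

/-- The profile of a ramp of size one. -/
lemma prof_ramp {n : ℕ} {X : ℕ → ℝ} (X0 : X 0 = 0) (hn : 0 < n) {t : Ty} (s1 : t.Shape n X)
    (s2 : t.Ord n) (hmu : t.mu = 1) (hp : ¬ t.p < t.z) :
    (∀ x, prof X t x = U 1 0 0 0 0 1 x) ∨
      ∀ x, prof X t x = U 0 (X n - 1) (X n) (X n) (X n) (X n) x := by
  rcases s2 with ⟨a1, a2, a3⟩ | ⟨a1, a2, a3⟩ | ⟨a1, -, -⟩
  · rcases s1 with ⟨-, b2, b3, -, -⟩ | b | b
    · left
      intro x
      simp only [prof, a0, a1, a2, a3, b2, b3, X0, if_true, sub_zero, hmu, Nat.cast_one]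
    · exact absurd a1 b.1
    · exact absurd a1 b.1
  · rcases s1 with b | ⟨b1, -, b3, b4, -⟩ | b
    · omega
    · right
      intro x
      have b0 : a0 X t = 0 := if_neg b1
      simp only [prof, b0, a1, a2, a3, b3, b4, hmu, Nat.cast_one]
    · omega
  · exact absurd a1 hp

section
variable {ι : Type} [Fintype ι] {ty : ι → Ty} {n s P : ℕ} {par lev rl : ℕ → ℕ}

/-- The loss of a group. -/
noncomputable def loss (t : Ty) : ℝ := if t.p < t.z then 1 / 2 else 0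

lemma loss_nonneg (t : Ty) : 0 ≤ loss t := by
  unfold loss
  split_ifs <;> norm_num

/-- The loss below a vertex. -/
noncomputable def Loss (ty : ι → Ty) (par : ℕ → ℕ) (N : ι → ℕ) (k : ℕ) : ℝ :=
  if k = 0 then ∑ u, N u * loss (ty u) else below ty par (fun u => N u * loss (ty u)) k

lemma Loss_zero (N : ι → ℕ) :
    Loss ty par N 0 = (∑ u, if (ty u).p < (ty u).z then (N u : ℝ) else 0) / 2 := by
  rw [Loss, if_pos rfl, Finset.sum_div]
  refine Finset.sum_congr rfl fun u _ => ?_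
  unfold loss
  split_ifs <;> ring

lemma Loss_nonneg (N : ι → ℕ) (k : ℕ) : 0 ≤ Loss ty par N k := by
  unfold Loss below
  split_ifs
  · exact Finset.sum_nonneg fun u _ => mul_nonneg (Nat.cast_nonneg _) (loss_nonneg _)
  · refine Finset.sum_nonneg fun u _ => ?_
    split_ifs
    · exact mul_nonneg (Nat.cast_nonneg _) (loss_nonneg _)
    · exact le_rfl

lemma Loss_rec (T : Tree n s P par lev rl) (hv : ∀ u, (ty u).v < s) (N : ι → ℕ) (k : ℕ) :
    (∑ u, if (ty u).v = k then N u * loss (ty u) else 0) +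
      (∑ k' ∈ Finset.Ioo 0 s, if par k' = k then Loss ty par N k' else 0) ≤ Loss ty par N k := by
  have h1 : (∑ k' ∈ Finset.Ioo 0 s, if par k' = k then Loss ty par N k' else 0) =
      ∑ k' ∈ Finset.Ioo 0 s,
        if par k' = k then below ty par (fun u => N u * loss (ty u)) k' else 0 := by
    refine Finset.sum_congr rfl fun k' hk' => ?_
    rw [Loss, if_neg (Finset.mem_Ioo.1 hk').1.ne']
  rw [h1]
  rcases Nat.eq_zero_or_pos k with rfl | k0
  · rw [below_root T hv (fun u => N u * loss (ty u)), Loss, if_pos rfl]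
  · rw [below_vert T hv (fun u => N u * loss (ty u)) k k0, Loss, if_neg k0.ne']

theorem design_low2 (T : Tree n s P par lev rl) (X : ℕ → ℝ) (X0 : X 0 = 0)
    (hX : ∀ a b, a < b → b ≤ n → X a < X b) (N : ι → ℕ)
    (hv : ∀ u, (ty u).v < s) (s1 : ∀ u, (ty u).Shape n X) (s2 : ∀ u, (ty u).Ord n)
    (s3 : ∀ u, (ty u).p < (ty u).z → (ty u).z < (ty u).q → Level ty par lev rl (ty u))
    (sup : ∀ k, 0 < k → k < s → ∀ w, 0 < w → w < n → lev k < rl w →
      (∀ u, Below par k (ty u).v → (ty u).z ≠ w) ∨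
        0 < below ty par (fun u => N u * kap X (ty u) w) k)
    (hmu : ∀ u, (ty u).mu = 1) (r : ℕ) (hr : r = ∑ u, N u)
    (m R : ℕ) (hR : (R : ℝ) = X n * (m + 1 / 2)) (len : ℕ → ℕ)
    (hlen : ∀ j < R, (len j : ℝ) + (∑ u, if (ty u).p < (ty u).z then (N u : ℝ) else 0) / 2 ≤
      (m + 1 / 2) * ∑ u, N u * prof X (ty u) ((j + 1 / 2) / (m + 1 / 2))) :
    KE (rows R len) (fun _ : Fin r => m) 0 := by
  obtain ⟨g, hg, hc⟩ := design_prices T X hX N hv s1 s2 s3 sup
  have cov : ∀ u, ∃ h : Fin (P + 2) → ℝ, ∀ x, 0 ≤ x → x ≤ X n → 0 ≤ loss (ty u) ∧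
      (prof X (ty u) x ≤ 0 ∨
        (1 / 2 ≤ loss (ty u) ∧ Irr.Cov (RankRel (g (ty u).v) h x) (1 - prof X (ty u) x)) ∨
        CovW (X n) (RankRel (g (ty u).v) h x) (1 - prof X (ty u) x)) := by
    intro u
    obtain ⟨C, K, c1, c2, c3, c4, c5, c6⟩ := hc u
    by_cases hp : (ty u).p < (ty u).z
    · obtain ⟨h, hh⟩ := cov_ty n X X0 hX _ C K c1 c2 c3 c4 c5 T.n0 (ty u) (s1 u) (s2 u) c6
      refine ⟨h, fun x x0 x1 => ⟨loss_nonneg _, (hh x x0 x1).imp id fun h1 => Or.inl ⟨?_, ?_⟩⟩⟩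
      · rw [loss, if_pos hp]
      · rwa [hmu, Nat.cast_one] at h1
    · rcases prof_ramp X0 T.n0 (s1 u) (s2 u) (hmu u) hp with e | e
      · obtain ⟨h, hh⟩ := covw_left (X n) _ c1 c2
        refine ⟨h, fun x x0 x1 => ⟨loss_nonneg _, ?_⟩⟩
        rw [e]
        exact (hh x x0 x1).imp id Or.inr
      · obtain ⟨h, hh⟩ := covw_right (X n) _ c1 c2
        refine ⟨h, fun x x0 x1 => ⟨loss_nonneg _, ?_⟩⟩
        rw [e]
        exact (hh x x0 x1).imp id Or.inr
  choose h hh using cov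
  have h1 := cont_low2 (X n) s T.s0 N (fun u => (ty u).v) hv par
    (fun k a b => (T.vert k a b).1) lev (fun k a b => (T.vert k a b).2.2.2.1) g
    (fun k x => below ty par (fun u => N u * prof X (ty u) x) k) hg h
    (fun u x => prof X (ty u) x) (fun u => loss (ty u)) hh
    (fun k k0 _ x _ _ => (below_vert T hv (fun u => N u * prof X (ty u) x) k k0).ge)
    (Loss ty par N) (fun k _ => Loss_rec T hv N k) m R hR len (fun j hj => by
      rw [below_root T hv (fun u => N u * prof X (ty u) ((j + 1 / 2) / (m + 1 / 2))), Loss_zero]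
      exact hlen j hj)
  exact h1.reindex (Fintype.equivOfCardEq (α := Fin r) (by simp [hr])) _ fun _ => rfl

theorem design_up2 (T : Tree n s P par lev rl) (X : ℕ → ℝ) (X0 : X 0 = 0)
    (hX : ∀ a b, a < b → b ≤ n → X a < X b) (N : ι → ℕ)
    (hv : ∀ u, (ty u).v < s) (s1 : ∀ u, (ty u).Shape n X) (s2 : ∀ u, (ty u).Ord n)
    (s3 : ∀ u, (ty u).p < (ty u).z → (ty u).z < (ty u).q → Level ty par lev rl (ty u))
    (sup : ∀ k, 0 < k → k < s → ∀ w, 0 < w → w < n → lev k < rl w →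
      (∀ u, Below par k (ty u).v → (ty u).z ≠ w) ∨
        0 < below ty par (fun u => N u * kap X (ty u) w) k)
    (hmu : ∀ u, (ty u).mu = 1) (r : ℕ) (hr : r = ∑ u, N u)
    (m R : ℕ) (hR : (R : ℝ) = X n * (m + 1 / 2)) (len : ℕ → ℕ)
    (hlen : ∀ j < R, (m + 1 / 2) * (∑ u, N u * prof X (ty u) ((j + 1 / 2) / (m + 1 / 2))) +
      (∑ u, if (ty u).p < (ty u).z then (N u : ℝ) else 0) / 2 + 2 ^ s ≤ (len j : ℝ)) :
    ∃ e, e + r * (m + 1).choose 2 = ∑ j ∈ Finset.range R, len j ∧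
      KE (rows R len) (fun _ : Fin r => m) e := by
  obtain ⟨g, hg, hc⟩ := design_prices T X hX N hv s1 s2 s3 sup
  have cov : ∀ u, 1 ≤ X n ∧ ∃ h : Fin (P + 2) → ℝ, ∀ x, 0 ≤ x → x ≤ X n → 0 ≤ loss (ty u) ∧
      0 ≤ prof X (ty u) x ∧
      ((1 / 2 ≤ loss (ty u) ∧ CovL (Cheap (X n) (g (ty u).v) h x) (1 - prof X (ty u) x)) ∨
        CovLW (X n) (Cheap (X n) (g (ty u).v) h x) (1 - prof X (ty u) x)) := by
    intro u
    obtain ⟨C, K, c1, c2, c3, c4, c5, c6⟩ := hc u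
    obtain ⟨hW, h, hh⟩ := covl_ty n X X0 hX _ C K c1 c2 c3 c4 c5 T.n0 (ty u) (s1 u) (s2 u) c6
    rw [hmu, Nat.cast_one] at hW hh
    refine ⟨hW, ?_⟩
    by_cases hp : (ty u).p < (ty u).z
    · refine ⟨h, fun x x0 x1 => ⟨loss_nonneg _, (hh x x0 x1).1, Or.inl ⟨?_, (hh x x0 x1).2⟩⟩⟩
      rw [loss, if_pos hp]
    · rcases prof_ramp X0 T.n0 (s1 u) (s2 u) (hmu u) hp with e | e
      · obtain ⟨h', hh'⟩ := covlw_left (X n) _ c1 c2
        refine ⟨h', fun x x0 x1 => ⟨loss_nonneg _, ?_⟩⟩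
        rw [e]
        exact (hh' x x0 x1).imp id Or.inr
      · obtain ⟨h', hh'⟩ := covlw_right (X n) _ c1 c2
        refine ⟨h', fun x x0 x1 => ⟨loss_nonneg _, ?_⟩⟩
        rw [e]
        exact (hh' x x0 x1).imp id Or.inr
  choose hW h hh using cov
  obtain ⟨e, he, h1⟩ := cont_up2 (X n) s T.s0 N (fun u => (ty u).v) hv par
    (fun k a b => (T.vert k a b).1) lev (fun k a b => (T.vert k a b).2.2.2.1) g
    (fun k x => below ty par (fun u => N u * prof X (ty u) x) k) hg h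
    (fun u x => prof X (ty u) x) (fun u => loss (ty u)) hW hh
    (fun k _ _ x x0 x1 => Finset.sum_nonneg fun u _ => by
      split_ifs
      · exact mul_nonneg (Nat.cast_nonneg _) (hh u x x0 x1).2.1
      · exact le_rfl)
    (fun k k0 _ x _ _ => (below_vert T hv (fun u => N u * prof X (ty u) x) k k0).le)
    (Loss ty par N) (Loss_nonneg N) (fun k _ => Loss_rec T hv N k) m R hR len (fun j hj => by
      rw [below_root T hv (fun u => N u * prof X (ty u) ((j + 1 / 2) / (m + 1 / 2))), Loss_zero]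
      exact hlen j hj)
  exact ⟨e, by rw [hr]; exact he,
    h1.reindex (Fintype.equivOfCardEq (α := Fin r) (by simp [hr])) _ fun _ => rfl⟩

end

end Pool.Agent.P.MP_8707bd_ag.Ex
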