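import Pool.Agent.P.MP_8707bd_ag.Ex.NearOne

namespace Pool.Agent.P.MP_8707bd_ag.Ex

open MvPolynomial Win All Irr

private theorem near_phase {c1 c2 V : ℝ} (h1 : 0 < c1) (h2 : 0 < c2) (hc : c1 + 2 * c2 ≤ 1 / 2)
    (m : ℕ) (h : ¬ (c2 ≤ Int.fract (V * (m + 1 / 2)) ∧ Int.fract (V * (m + 1 / 2)) ≤ 1 - c2)) :
    c1 ≤ Int.fract ((2 * V - 1) * (m + 1 / 2)) ∧
      Int.fract ((2 * V - 1) * (m + 1 / 2)) ≤ 1 - c1 := by
  have a0 := Int.fract_nonneg (V * (m + 1 / 2))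
  have a1 := Int.fract_lt_one (V * (m + 1 / 2))
  have a2 := Int.floor_add_fract (V * (m + 1 / 2))
  set θ := Int.fract (V * (m + 1 / 2)) with hθ
  set z := ⌊V * (m + 1 / 2)⌋ with hz
  rcases not_and_or.1 h with h | h
  · have e : Int.fract ((2 * V - 1) * (m + 1 / 2)) = 2 * θ + 1 / 2 := by
      refine Int.fract_eq_iff.2 ⟨by linarith, by linarith [not_le.1 h], 2 * z - m - 1, ?_⟩
      push_cast
      linarith
    rw [e]
    constructor <;> linarith [not_le.1 h]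
  · have e : Int.fract ((2 * V - 1) * (m + 1 / 2)) = 2 * θ - 3 / 2 := by
      refine Int.fract_eq_iff.2 ⟨by linarith [not_le.1 h], by linarith, 2 * z - m + 1, ?_⟩
      push_cast
      linarith
    rw [e]
    constructor <;> linarith [not_le.1 h]

theorem near {W1 W2 c1 c2 : ℝ} (hW : W1 = 2 * W2 - 1) (hW1 : 0 < W1) (h1 : 0 < c1) (h2 : 0 < c2)
    (hc : c1 + 2 * c2 ≤ 1 / 2) (H1 : StripSharp W1 c1) (H2 : StripSharp W2 c2) : NearMain := by
  have hW2 : 0 < W2 := by linarith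
  obtain ⟨M1, η1, hM1, hη1, G1⟩ := near_one hW1 h1 H1
  obtain ⟨M2, η2, hM2, hη2, G2⟩ := near_one hW2 h2 H2
  obtain ⟨y, hy⟩ := exists_nat_gt (1 / η1 + 1 / η2)
  have p1 : 0 < 1 / η1 := by positivity
  have p2 : 0 < 1 / η2 := by positivity
  have hy0 : 0 < y := by
    have : (0 : ℝ) < y := by linarith
    exact_mod_cast this
  set δ := M1 * M2 * y with hδ
  have hδ0 : 0 < δ := by positivity
  have hyδ : (y : ℝ) ≤ δ := by
    exact_mod_cast Nat.le_mul_of_pos_left y (Nat.mul_pos hM1 hM2)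
  have hδR : (0 : ℝ) < δ := by exact_mod_cast hδ0
  have b1 : 1 < η1 * δ := by
    have : 1 / η1 < δ := by linarith
    rwa [div_lt_iff₀ hη1, mul_comm] at this
  have b2 : 1 < η2 * δ := by
    have : 1 / η2 < δ := by linarith
    rwa [div_lt_iff₀ hη2, mul_comm] at this
  obtain ⟨r1, G1⟩ := G1 δ ⟨M2 * y, by rw [hδ]; ring⟩ hδ0
  obtain ⟨r2, G2⟩ := G2 (2 * δ) ⟨2 * M1 * y, by rw [hδ]; ring⟩ (by omega)
  obtain ⟨r3, hr3⟩ := exists_nat_ge ((2 * δ * W2) ^ 2)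
  refine ⟨max r1 (max r2 r3), fun r m d hr hrm hd μ hμ hs => ?_⟩
  have hr1 : r1 ≤ r := (le_max_left _ _).trans hr
  have hr2 : r2 ≤ r := ((le_max_left _ _).trans (le_max_right _ _)).trans hr
  have hr3' : r3 ≤ r := ((le_max_right _ _).trans (le_max_right _ _)).trans hr
  have hsq : 2 * δ * W2 ≤ √(r : ℝ) :=
    Real.le_sqrt_of_sq_le (hr3.trans (by exact_mod_cast hr3'))
  set k := ⌊√(r : ℝ) - 2 * δ * W2⌋₊ with hk
  have k1 : (k : ℝ) ≤ √(r : ℝ) - 2 * δ * W2 := Nat.floor_le (by linarith)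
  have k2 : √(r : ℝ) - 2 * δ * W2 < k + 1 := Nat.lt_floor_add_one _
  set V : ℝ := (√(r : ℝ) - k) / ((2 * δ : ℕ) : ℝ) with hV
  have hV' : 2 * δ * V = √(r : ℝ) - k := by
    rw [hV]
    push_cast
    field_simp
  have v1 : 0 ≤ δ * (V - W2) := by linarith
  have v2 : 2 * (δ * (V - W2)) < 1 := by linarith
  have v3 : 0 ≤ V - W2 := (mul_nonneg_iff_of_pos_left hδR).1 v1
  by_cases h : c2 ≤ Int.fract (V * (m + 1 / 2)) ∧ Int.fract (V * (m + 1 / 2)) ≤ 1 - c2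
  · refine G2 r m d k hr2 hrm hd ?_ h.1 h.2 μ hμ hs
    rw [← hV, abs_of_nonneg v3]
    refine lt_of_mul_lt_mul_left (a := (δ : ℝ)) ?_ hδR.le
    nlinarith
  · have e : (√(r : ℝ) - ((k + δ : ℕ) : ℝ)) / δ = 2 * V - 1 := by
      rw [div_eq_iff hδR.ne']
      push_cast
      linarith
    obtain ⟨f1, f2⟩ := near_phase h1 h2 hc m h
    refine G1 r m d (k + δ) hr1 hrm hd ?_ (by rwa [e]) (by rwa [e]) μ hμ hs
    rw [e, hW, show 2 * V - 1 - (2 * W2 - 1) = 2 * (V - W2) by ring,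
      abs_of_nonneg (by linarith)]
    refine lt_of_mul_lt_mul_left (a := (δ : ℝ)) ?_ hδR.le
    nlinarith

end Pool.Agent.P.MP_8707bd_ag.Ex
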