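import Mathlib
import Pool.Agent.P.MP_8707bd_ag.Ex.DesignO

/-!
From the real data of a design with odd clusters to the sharp strip (helper file only).
-/

namespace Pool.Agent.P.MP_8707bd_ag.Ex

open MvPolynomial Win All Irr

lemma sharpO_eta {a b c d : ℝ} (ha : 0 < a) (hb : 0 < b) (hc : 0 < c) (hd : 0 < d)
    {p q : ℝ} (hp : 0 < p) (hq : 0 < q) :
    ∃ η : ℝ, 0 < η ∧ η * p ≤ a ∧ η ≤ b ∧ η * q ≤ c ∧ η ≤ d := by
  refine ⟨min (min (a / p) b) (min (c / q) d), by positivity, ?_, ?_, ?_, ?_⟩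
  · rw [← le_div_iff₀ hp]
    exact (min_le_left _ _).trans (min_le_left _ _)
  · exact (min_le_left _ _).trans (min_le_right _ _)
  · rw [← le_div_iff₀ hq]
    exact (min_le_right _ _).trans (min_le_left _ _)
  · exact (min_le_right _ _).trans (min_le_right _ _)

lemma sharpO_sum {ι : Type} [Fintype ι] (N μ : ι → ℕ) {K0 s : ℕ} (hK : 0 < K0)
    (h : ∀ u, K0 ≤ μ u) (hs : s = ∑ u, N u * μ u ^ 2) :
    ∑ u, (N u : ℝ) * ((μ u : ℝ) ^ 2 + 1) ≤ s * (1 + 1 / (K0 : ℝ) ^ 2) := by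
  have k0 : (0 : ℝ) < K0 := by exact_mod_cast hK
  rw [hs]
  push_cast
  rw [Finset.sum_mul]
  refine Finset.sum_le_sum fun u _ => ?_
  have a1 : (K0 : ℝ) ≤ μ u := by exact_mod_cast h u
  have a2 : (1 : ℝ) ≤ (μ u : ℝ) ^ 2 * (1 / (K0 : ℝ) ^ 2) := by
    rw [mul_one_div, le_div_iff₀ (by positivity), one_mul]
    exact pow_le_pow_left₀ k0.le a1 2
  have a3 : (0 : ℝ) ≤ N u := Nat.cast_nonneg _
  have a4 := mul_le_mul_of_nonneg_left a2 a3
  nlinarith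

lemma sharpO_low {W0 W γ c η κ th D d2 : ℝ} (hγ : 0 < γ) (hD : 0 ≤ D)
    (hd0 : 0 ≤ d2) (hd : d2 ≤ η * D) (hW : W ≤ W0 + η) (a : c ≤ th) (b : th ≤ 1)
    (h : η * (3 / 2 + γ / 2) + κ ≤ γ * (c + 1 - W0 / 2) - 1 / 2) :
    D / 2 + d2 * (th + 1 / 2) + κ * D ≤ γ * (th + 1 - W / 2) * D := by
  have a1 : d2 * (th + 1 / 2) ≤ d2 * (3 / 2) := mul_le_mul_of_nonneg_left (by linarith) hd0
  have a2 : γ * (c + 1 - (W0 + η) / 2) ≤ γ * (th + 1 - W / 2) :=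
    mul_le_mul_of_nonneg_left (by linarith) hγ.le
  have a3 := mul_le_mul_of_nonneg_right a2 hD
  have a4 := mul_le_mul_of_nonneg_right h hD
  nlinarith

lemma sharpO_up {W0 W γ c η κ th D d2 q E : ℝ} (hγ : 0 < γ) (hη : 0 < η) (hD : 0 ≤ D)
    (hd0 : 0 ≤ d2) (hd : d2 ≤ η * D) (hW0 : 0 ≤ W) (hW : W ≤ W0 + η) (hW1 : W0 - η ≤ W)
    (hW2 : W ≤ 2 * W0) (a : c ≤ th) (b : th ≤ 1) (hq0 : 0 ≤ q) (hq : q ≤ 2) (hE0 : 0 ≤ E)
    (hE : 1 ≤ η * D)
    (h : η * (4 + 8 * W0 ^ 2 + E + 1 / 2 + 3 * γ / 2) + κ ≤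
      γ * (c + 3 * W0 / 2 - 1) - (2 * W0 * q - 3 / 2)) :
    (2 * D * W + d2 * W ^ 2) * q + E ≤
      3 / 2 * D + d2 * (1 / 2 - th) - κ * D + γ * (th + 3 * W / 2 - 1) * D := by
  have a1 : d2 * (-1 / 2) ≤ d2 * (1 / 2 - th) := mul_le_mul_of_nonneg_left (by linarith) hd0
  have a2 : γ * (c + 3 * (W0 - η) / 2 - 1) ≤ γ * (th + 3 * W / 2 - 1) :=
    mul_le_mul_of_nonneg_left (by linarith) hγ.le
  have a3 := mul_le_mul_of_nonneg_right a2 hD
  have a4 := mul_le_mul_of_nonneg_right h hD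
  have a5 : E ≤ E * (η * D) := le_mul_of_one_le_right hE0 hE
  have a6 : W ^ 2 ≤ (2 * W0) ^ 2 := pow_le_pow_left₀ hW0 hW2 2
  have a7 : d2 * W ^ 2 * q ≤ η * D * (2 * W0) ^ 2 * 2 :=
    mul_le_mul (mul_le_mul hd a6 (by positivity) (by positivity)) hq hq0 (by positivity)
  have a8 : W * q ≤ W0 * q + η * 2 := by
    have := mul_le_mul_of_nonneg_right hW hq0
    have := mul_le_mul_of_nonneg_left hq hη.le
    nlinarith
  have a9 := mul_le_mul_of_nonneg_left a8 hD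
  nlinarith

theorem sharp_of_odd {W0 γ c : ℝ} {K0 : ℕ} (hW : 1 < W0) (hγ : 0 < γ) (hc : 0 < c) (hK : 0 < K0)
    (h1 : 1 / 2 < γ * (c + 1 - W0 / 2))
    (h2 : 2 * W0 * (1 + 1 / (K0 : ℝ) ^ 2) - 3 / 2 < γ * (c + 3 * W0 / 2 - 1))
    (H : OddData W0 γ K0) : StripSharp W0 c := by
  obtain ⟨ι, _, ty, n, S, P, par, lev, rl, M0, η0, T, hv, s2, s3, hmu, hpos, hM0, hη0, H⟩ := H
  obtain ⟨κ, hκ, κ1, κ2⟩ : ∃ κ : ℝ, 0 < κ ∧ 2 * κ ≤ γ * (c + 1 - W0 / 2) - 1 / 2 ∧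
      2 * κ ≤ γ * (c + 3 * W0 / 2 - 1) - (2 * W0 * (1 + 1 / (K0 : ℝ) ^ 2) - 3 / 2) := by
    refine ⟨min (γ * (c + 1 - W0 / 2) - 1 / 2)
      (γ * (c + 3 * W0 / 2 - 1) - (2 * W0 * (1 + 1 / (K0 : ℝ) ^ 2) - 3 / 2)) / 2, ?_, ?_, ?_⟩
    · exact half_pos (lt_min (by linarith) (by linarith))
    · rw [mul_div_cancel₀ _ (two_ne_zero)]
      exact min_le_left _ _
    · rw [mul_div_cancel₀ _ (two_ne_zero)]
      exact min_le_right _ _
  have h2S : (0 : ℝ) < 2 ^ S := by positivity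
  obtain ⟨η, hη, e1, e2, e3, e4⟩ := sharpO_eta hη0 (show 0 < (W0 - 1) / 4 by linarith) hκ
    (show (0 : ℝ) < 1 / 2 by norm_num) (show 0 < 8 * W0 by linarith)
    (show 0 < 4 + 8 * W0 ^ 2 + 2 ^ S + 1 / 2 + 3 * γ / 2 by positivity)
  have e0 : 8 * η ≤ η0 := by
    have := mul_le_mul_of_nonneg_left hW.le hη.le
    linarith
  refine ⟨M0, η, κ, hM0, hη, hκ, fun δ k s W hδ δ0 hk hWW hs m R len hm => ?_⟩
  have k0 : (0 : ℝ) ≤ k := Nat.cast_nonneg _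
  have m0 : (0 : ℝ) ≤ m := Nat.cast_nonneg _
  have d1 : (1 : ℝ) ≤ δ := by exact_mod_cast δ0
  obtain ⟨N, hN, H⟩ := H δ k s W hδ δ0
    (hk.trans (mul_le_mul_of_nonneg_right (by linarith) k0)) (by linarith) hs
  obtain ⟨w1, w2⟩ := abs_lt.1 hWW
  have dk : (0 : ℝ) ≤ δ * k := by positivity
  have d2 : (0 : ℝ) ≤ (δ : ℝ) ^ 2 := by positivity
  have b1 : (δ : ℝ) ^ 2 ≤ η * (δ * k) := by
    linarith [mul_le_mul_of_nonneg_left hk (by linarith : (0 : ℝ) ≤ δ)]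
  have b2 : 1 ≤ η * (δ * k) := (one_le_pow₀ d1).trans b1
  have m2 : (2 : ℝ) ≤ m := by linarith [mul_le_mul_of_nonneg_right e4 m0]
  have b3 : 2 ≤ (W - 1) * m := by
    have : 2 * η ≤ W - 1 := by linarith
    linarith [mul_le_mul_of_nonneg_right this m0]
  have W1 : 1 < W := by linarith
  refine ⟨fun a b hlen => ?_, fun a b hlen => ?_⟩
  · have hM : (0 : ℝ) < m := by linarith
    have hR : (m : ℝ) + 1 ≤ R := by linarith
    have hR' : m + 1 ≤ R := by exact_mod_cast hR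
    obtain ⟨ρ, rfl⟩ : ∃ ρ, R = ρ + 1 := ⟨R - 1, by omega⟩
    push_cast at a b
    obtain ⟨τ, hτ⟩ : ∃ τ : ℝ, τ * m = W * m - ρ := ⟨(W * m - ρ) / m, div_mul_cancel₀ _ hM.ne'⟩
    have c0 : 0 < c + 1 - W / 2 := by
      by_contra hcon
      have a1 : γ * (c + 1 - W / 2) ≤ 0 := mul_nonpos_of_nonneg_of_nonpos hγ.le (not_lt.1 hcon)
      have a2 : γ * (W - W0) ≤ γ * η := mul_le_mul_of_nonneg_left w2.le hγ.le
      have a3 : 0 ≤ η * (4 + 8 * W0 ^ 2 + 2 ^ S + 1 / 2) := by positivity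
      have a4 : 0 ≤ η * γ := by positivity
      linarith
    have τ0 : 0 ≤ τ := le_of_mul_le_mul_right (by linarith) hM
    have τ1 : τ < η0 := lt_of_mul_lt_mul_right
      (by linarith [mul_le_mul_of_nonneg_right e0 m0]) hM.le
    obtain ⟨X, X0, hX, Xn, s1, sup, hlo, -⟩ := H τ (abs_lt.2 ⟨by linarith, τ1⟩)
    refine odd_low T X X0 hX N hv s1 s2 s3 sup (fun u => (hmu u).1) s hN m ρ
      (by exact_mod_cast hM) (by omega) (by rw [Xn]; linarith) len fun j hj => ?_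
    have hj' : (j : ℝ) ≤ ρ := by exact_mod_cast hj
    have hx : (j : ℝ) / m * m = j := div_mul_cancel₀ _ hM.ne'
    have a1 := mul_le_mul_of_nonneg_left
      (hlo τ0 (j / m) (by positivity) (by rw [div_le_iff₀ hM]; linarith)) hM.le
    have a2 := hlen j (by omega)
    have a3 : (m : ℝ) * (δ * k + δ ^ 2 * (W - τ - j / m) + γ * τ * (δ * k)) =
        m * (δ * k) + δ ^ 2 * (ρ - j) +
          γ * (W * (m + 1 / 2) - (ρ + 1) + 1 - W / 2) * (δ * k) := by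
      linear_combination (γ * (δ * k) - δ ^ 2) * hτ - δ ^ 2 * hx
    have a4 := sharpO_low (W0 := W0) (W := W) (κ := κ) hγ dk d2 b1 (by linarith) a b (by
      have a3 : 0 ≤ η * (8 * W0 ^ 2 + 2 ^ S) := by positivity
      have a4 : 0 ≤ η * γ := by positivity
      linarith)
    linarith
  · have hR : (m : ℝ) + 1 ≤ R := by linarith
    have hR' : m + 1 ≤ R := by exact_mod_cast hR
    have hm2 : 2 ≤ m := by exact_mod_cast m2
    obtain ⟨ρ, rfl⟩ : ∃ ρ, R = ρ + 1 := ⟨R - 1, by omega⟩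
    obtain ⟨m', rfl⟩ : ∃ m', m = m' + 1 := ⟨m - 1, by omega⟩
    push_cast at a b hm m2 hlen
    have hM : (0 : ℝ) < m' := by linarith
    obtain ⟨τ, hτ⟩ : ∃ τ : ℝ, τ * m' = W * m' - ρ :=
      ⟨(W * m' - ρ) / m', div_mul_cancel₀ _ hM.ne'⟩
    have τ0 : τ ≤ 0 := le_of_mul_le_mul_right (by linarith) hM
    have τ1 : -η0 < τ := by
      refine lt_of_mul_lt_mul_right ?_ hM.le
      have a1 : 1 ≤ 2 * (η * m') := by linarith
      have a2 := mul_le_mul_of_nonneg_right e1 hM.le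
      have a3 := mul_le_mul_of_nonneg_left a1 (show 0 ≤ 4 * W0 by linarith)
      linarith
    obtain ⟨X, X0, hX, Xn, s1, sup, -, hup⟩ := H τ (abs_lt.2 ⟨τ1, by linarith⟩)
    refine odd_up T X X0 hX N hv s1 s2 s3 sup (fun u => (hmu u).1) hpos s hN m' ρ
      (by exact_mod_cast hM) (by omega) (by rw [Xn]; linarith) len fun j hj => ?_
    have hj' : (j : ℝ) ≤ ρ := by exact_mod_cast hj
    have hx : (j : ℝ) / m' * m' = j := div_mul_cancel₀ _ hM.ne'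
    have a1 := mul_le_mul_of_nonneg_left
      (hup τ0 (j / m') (by positivity) (by rw [div_le_iff₀ hM]; linarith)) hM.le
    have a2 := hlen j (by omega)
    have a3 : (m' : ℝ) * (δ * k + δ ^ 2 * (W - τ - j / m') + γ * τ * (δ * k)) =
        m' * (δ * k) + δ ^ 2 * (ρ - j) -
          γ * (ρ + 1 - W * (m' + 1 + 1 / 2) + 3 * W / 2 - 1) * (δ * k) := by
      linear_combination (γ * (δ * k) - δ ^ 2) * hτ - δ ^ 2 * hx
    have q0 : (0 : ℝ) ≤ 1 / (K0 : ℝ) ^ 2 := by positivity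
    have q1 : 1 / (K0 : ℝ) ^ 2 ≤ 1 := by
      have : (1 : ℝ) ≤ K0 := by exact_mod_cast hK
      rw [div_le_one (by positivity)]
      exact one_le_pow₀ this
    have a4 := sharpO_up (W0 := W0) (W := W) (κ := κ) (q := 1 + 1 / (K0 : ℝ) ^ 2) (E := 2 ^ S)
      hγ hη dk d2 b1 (by linarith) (by linarith) (by linarith) (by linarith) a b (by linarith)
      (by linarith) h2S.le b2 (by linarith)
    have a5 := sharpO_sum N (fun u => (ty u).mu) hK (fun u => (hmu u).2) hN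
    rw [hs] at a5
    linarith

end Pool.Agent.P.MP_8707bd_ag.Ex
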