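import Mathlib
import Pool.Agent.P.MP_8707bd_ag.Ex.AllDeg
import Pool.Agent.P.MP_8707bd_ag.Win.Final

/-!
The exact result for all large numbers of points (helper file only).
-/

namespace Pool.Agent.P.MP_8707bd_ag.Ex

open MvPolynomial Win All Irr

theorem final_exact (H : NearMain) : ∃ r0 : ℕ, ∀ r m d : ℕ, r0 ≤ r → 1 ≤ m →
    ∃ Φ : MvPolynomial (Fin r × Fin 3) ℂ, Φ ≠ 0 ∧ ∀ p : Fin r → Fin 3 → ℂ,
      MvPolynomial.eval (fun ij : Fin r × Fin 3 => p ij.1 ij.2) Φ ≠ 0 →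
      Module.finrank ℂ (fat p (fun _ => m) d) = (d + 2).choose 2 - r * (m + 1).choose 2 ∧
      ∀ (F : MvPolynomial (Fin 3) ℂ) (e : ℕ) (n : Fin r → ℕ), F ≠ 0 → F.IsHomogeneous e →
        (∀ i, F ∉ ptIdeal (p i) ^ (n i + 1)) → ∑ i, n i + 1 = 3 * e →
        (∀ G ∈ fat p (fun _ => m) d, F ^ 2 ∣ G) → fat p (fun _ => m) d = ⊥ := by
  obtain ⟨r1, H1⟩ := all_deg H
  obtain ⟨r2, H2⟩ := no_exc H
  refine ⟨r1 + r2 + 1, fun r m d hr hm => ?_⟩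
  by_cases h76 : 76 * (m + 1) ≤ r
  · exact main r m d hm h76
  have hX : (∏ i : Fin r, X (i, 2) : MvPolynomial (Fin r × Fin 3) ℂ) ≠ 0 :=
    Finset.prod_ne_zero_iff.2 fun i _ => X_ne_zero _
  obtain ⟨Φ0, h0, hΦ0⟩ := transferE _ d _ (H1 r m d (by omega) (by omega))
  suffices h : ∃ Φ : MvPolynomial (Fin r × Fin 3) ℂ, Φ ≠ 0 ∧ ∀ p : Fin r → Fin 3 → ℂ,
      MvPolynomial.eval (fun ij : Fin r × Fin 3 => p ij.1 ij.2) Φ ≠ 0 → (∀ i, p i 2 ≠ 0) →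
      Module.finrank ℂ (fat p (fun _ => m) d) = (d + 2).choose 2 - r * (m + 1).choose 2 →
      ∀ (F : MvPolynomial (Fin 3) ℂ) (e : ℕ) (n : Fin r → ℕ), F ≠ 0 → F.IsHomogeneous e →
        (∀ i, F ∉ ptIdeal (p i) ^ (n i + 1)) → ∑ i, n i + 1 = 3 * e →
        (∀ G ∈ fat p (fun _ => m) d, F ^ 2 ∣ G) → fat p (fun _ => m) d = ⊥ by
    obtain ⟨Φ, h1, hΦ⟩ := h
    refine ⟨(∏ i, X (i, 2)) * (Φ0 * Φ), mul_ne_zero hX (mul_ne_zero h0 h1), fun p hp => ?_⟩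
    simp only [map_mul, map_prod, eval_X, mul_ne_zero_iff, Finset.prod_ne_zero_iff,
      Finset.mem_univ, forall_const] at hp
    have e1 := le_antisymm (hΦ0 p hp.2.1) (lower_bound p hp.1 m d)
    exact ⟨e1, hΦ p hp.2.2 hp.1 e1⟩
  by_cases ha : (d + 2).choose 2 ≤ r * (m + 1).choose 2
  · exact ⟨1, one_ne_zero, fun p _ _ e1 _ _ _ _ _ _ _ _ =>
      Submodule.finrank_eq_zero.1 (by omega)⟩
  by_cases hb : r * (m + 1).choose 2 ≤ (d + 1).choose 2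
  · have hpos : 0 < r * (m + 1).choose 2 := Nat.mul_pos (by omega) (Nat.choose_pos (by omega))
    obtain ⟨d, rfl⟩ : ∃ d', d = d' + 1 := by
      rcases d with _ | d
      · exact absurd (hpos.trans_le hb) (by simp)
      · exact ⟨d, rfl⟩
    obtain ⟨Φ, h1, hΦ⟩ := transferE _ d _ (H1 r m d (by omega) (by omega))
    refine ⟨Φ, h1, fun p hp hp2 _ F e n _ hF _ hs hall => ?_⟩
    have c1 := hΦ p hp
    have hb' : r * (m + 1).choose 2 ≤ (d + 2).choose 2 := hb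
    exact absurd (fun G hG => (dvd_pow_self F two_ne_zero).trans (hall G hG))
      (nofix p hp2 m d (by omega) F e (by omega) hF)
  have hG : ∀ x : Fin (d + 1) × (Fin r → Fin (3 * d + 1)),
      ∃ Φ : MvPolynomial (Fin r × Fin 3) ℂ, Φ ≠ 0 ∧ ∀ p : Fin r → Fin 3 → ℂ,
        MvPolynomial.eval (fun ij : Fin r × Fin 3 => p ij.1 ij.2) Φ ≠ 0 →
        2 * (x.1 : ℕ) ≤ d → ∑ i, (x.2 i : ℕ) + 1 = 3 * x.1 →
        Module.finrank ℂ (fat p (fun i => m - x.2 i - x.2 i) (d - 2 * x.1)) ≤ 0 := fun x => by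
    by_cases hx : 2 * (x.1 : ℕ) ≤ d ∧ ∑ i, (x.2 i : ℕ) + 1 = 3 * x.1
    · obtain ⟨Φ, h1, hΦ⟩ := transferE _ _ _
        (H2 r m d (by omega) (by omega) (by omega) (by omega) x.1 (fun i => x.2 i) hx.1 hx.2)
      exact ⟨Φ, h1, fun p hp _ _ => hΦ p hp⟩
    · exact ⟨1, one_ne_zero, fun _ _ a b => absurd ⟨a, b⟩ hx⟩
  choose Φ hΦ1 hΦ using hG
  refine ⟨∏ x, Φ x, Finset.prod_ne_zero_iff.2 fun x _ => hΦ1 x,
    fun p hp hp2 _ F e n hF0 hF hn hs hall => ?_⟩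
  simp only [map_prod, Finset.prod_ne_zero_iff, Finset.mem_univ, forall_const] at hp
  rw [eq_bot_iff]
  intro G hG
  by_contra hG0
  obtain ⟨K, rfl⟩ := hall G hG
  rw [mem_fat] at hG
  have hK0 : K ≠ 0 := right_ne_zero_of_mul hG0
  have q := hom_of_mul (hF.pow 2) (pow_ne_zero 2 hF0) hG.1
  have he : 2 * e ≤ d := by
    rw [mul_comm 2 e]
    exact q.2 hK0
  have hK : K ∈ fat p (fun i => m - n i - n i) (d - 2 * e) := by
    refine mem_fat.2 ⟨by rw [mul_comm 2 e]; exact q.1, fun i => ?_⟩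
    refine mem_pow_of_mul _ (hp2 i) F _ _ _ (hn i) (mem_pow_of_mul _ (hp2 i) F _ _ _ (hn i) ?_)
    rw [← mul_assoc, ← pow_two]
    exact hG.2 i
  have hni : ∀ i, n i < 3 * d + 1 := fun i => by
    have := Finset.single_le_sum (f := n) (fun _ _ => Nat.zero_le _) (Finset.mem_univ i)
    omega
  have h1 := hΦ (⟨e, by omega⟩, fun i => ⟨n i, hni i⟩) p (hp _) he hs
  have h2 : fat p (fun i => m - n i - n i) (d - 2 * e) = ⊥ :=
    Submodule.finrank_eq_zero.1 (Nat.le_zero.1 h1)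
  rw [h2] at hK
  exact hK0 hK

end Pool.Agent.P.MP_8707bd_ag.Ex
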