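import Mathlib
import Pool.Agent.P.MP_8707bd_ag.Ex.Near
import Pool.Agent.P.MP_8707bd_ag.Ex.SharpO
import Pool.Agent.P.MP_8707bd_ag.Ex.DataO1
import Pool.Agent.P.MP_8707bd_ag.Ex.DataO2

/-!
The statement near the critical degree, from the two designs (helper file only).
-/

namespace Pool.Agent.P.MP_8707bd_ag.Ex

theorem nearMain : NearMain :=
  near (W1 := 101 / 100) (W2 := 201 / 200) (c1 := 1 / 6) (c2 := 1 / 6) (by norm_num) (by norm_num)
    (by norm_num) (by norm_num) (by norm_num)
    (sharp_of_odd (by norm_num) (by norm_num) (by norm_num) (by norm_num) (by norm_num)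
      (by norm_num) odd1)
    (sharp_of_odd (by norm_num) (by norm_num) (by norm_num) (by norm_num) (by norm_num)
      (by norm_num) odd2)

end Pool.Agent.P.MP_8707bd_ag.Ex
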