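import Pool.Agent.P.MP_8707bd_ag.Ex.Gen
import Pool.Agent.P.MP_8707bd_ag.Ex.Wronski

/-!
Transversality of the top row, by inversion of the second coordinate (helper file only).
-/

namespace Pool.Agent.P.MP_8707bd_ag.Ex

open MvPolynomial Win All Irr

namespace TransAux

/-- The image of a monomial under the inversion. -/
noncomputable def gm (len : ℕ → ℕ) (y : ℂ) (s : Fin 2 →₀ ℕ) : MvPolynomial (Fin 2) ℂ :=
  X 0 ^ s 0 * (X 1 - C y) ^ (len (s 0) - 1 - s 1)

/-- The inversion. -/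
noncomputable def psi (len : ℕ → ℕ) (y : ℂ) :
    MvPolynomial (Fin 2) ℂ →ₗ[ℂ] MvPolynomial (Fin 2) ℂ :=
  (basisMonomials (Fin 2) ℂ).constr ℂ (gm len y)

lemma psi_eq (len : ℕ → ℕ) (y : ℂ) (F : MvPolynomial (Fin 2) ℂ) :
    psi len y F = ∑ s ∈ F.support, F.coeff s • gm len y s := by
  conv_lhs => rw [F.as_sum]
  rw [map_sum]
  refine Finset.sum_congr rfl fun s _ => ?_
  have e : (monomial s (F.coeff s) : MvPolynomial (Fin 2) ℂ) =
      F.coeff s • basisMonomials (Fin 2) ℂ s := by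
    simp [smul_monomial]
  rw [e, map_smul, psi, Module.Basis.constr_basis]

lemma rowc_gm (len : ℕ → ℕ) (y : ℂ) (s : Fin 2 →₀ ℕ) (j : ℕ) : rowc j (gm len y s) =
    if j = s 0 then (Polynomial.X - Polynomial.C y) ^ (len (s 0) - 1 - s 1) else 0 := by
  have e : toPP (gm len y s) = Polynomial.X ^ s 0 *
      Polynomial.C ((Polynomial.X - Polynomial.C y) ^ (len (s 0) - 1 - s 1)) := by
    simp [gm, toPP]
  change (toPP (gm len y s)).coeff j = _
  rw [e, Polynomial.coeff_mul_C, Polynomial.coeff_X_pow]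
  split_ifs <;> simp

lemma psi_supp {R : ℕ} {len : ℕ → ℕ} (y : ℂ) {F : MvPolynomial (Fin 2) ℂ}
    (hF : ∀ s ∈ F.support, s ∈ rows R len) : psi len y F ∈ restrictSupport ℂ (rows R len) := by
  rw [psi_eq]
  refine Submodule.sum_mem _ fun s hs => Submodule.smul_mem _ _ fun t ht => ?_
  have h1 : (gm len y s).coeff t ≠ 0 := mem_support_iff.1 ht
  rw [← rowc_coeff, rowc_gm] at h1
  split_ifs at h1 with h2
  · have h3 := Polynomial.le_natDegree_of_ne_zero h1
    rw [Polynomial.natDegree_pow, Polynomial.natDegree_X_sub_C, mul_one] at h3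
    obtain ⟨h4, h5⟩ := hF s hs
    exact ⟨h2 ▸ h4, by rw [h2]; omega⟩
  · exact (h1 (Polynomial.coeff_zero _)).elim

lemma psi_inj {R : ℕ} {len : ℕ → ℕ} (y : ℂ) {F : MvPolynomial (Fin 2) ℂ}
    (hF : ∀ s ∈ F.support, s ∈ rows R len) (h : psi len y F = 0) : F = 0 := by
  rw [← support_eq_empty, Finset.eq_empty_iff_forall_notMem]
  intro t ht
  have h1 := congrArg (fun G => (Polynomial.taylor y (rowc (t 0) G)).coeff (len (t 0) - 1 - t 1)) h
  simp only [psi_eq, map_sum, map_smul, map_zero, Polynomial.finsetSum_coeff,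
    Polynomial.coeff_smul, Polynomial.coeff_zero, rowc_gm] at h1
  have e : ∀ k, Polynomial.taylor y ((Polynomial.X - Polynomial.C y) ^ k) = Polynomial.X ^ k :=
    fun k => by simp [Polynomial.taylor_apply]
  rw [Finset.sum_eq_single t] at h1
  · rw [if_pos rfl, e, Polynomial.coeff_X_pow, if_pos rfl, smul_eq_mul, mul_one] at h1
    exact mem_support_iff.1 ht h1
  · intro s hs hne
    split_ifs with h2
    · rw [e, Polynomial.coeff_X_pow, if_neg, smul_zero]
      intro h3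
      have h4 := (hF s hs).2
      have h5 := (hF t ht).2
      rw [← h2] at h3 h4
      refine hne (Finsupp.ext fun i => ?_)
      fin_cases i
      · exact h2.symm
      · change s 1 = t 1
        omega
    · simp
  · exact fun h2 => (h2 ht).elim

lemma psi_dvd {R b : ℕ} {len : ℕ → ℕ} (y : ℂ) {F : MvPolynomial (Fin 2) ℂ}
    (hF : ∀ s ∈ F.support, s ∈ rows (R + 1) (Function.update len R b)) :
    (Polynomial.X - Polynomial.C y) ^ (len R - b) ∣ rowc R (psi len y F) := by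
  rw [psi_eq, map_sum]
  refine Finset.dvd_sum fun s hs => ?_
  rw [map_smul, rowc_gm]
  refine dvd_smul_of_dvd _ ?_
  split_ifs with h
  · have h1 := (hF s hs).2
    rw [← h, Function.update_self] at h1
    rw [← h]
    exact pow_dvd_pow _ (by omega)
  · exact dvd_zero _

lemma psi_van {R c l : ℕ} {len : ℕ → ℕ} (hlen : ∀ j ≤ R, len j + c * j = l) {y : ℂ}
    {p : Fin 2 → ℂ} (hy : p 1 - y ≠ 0) (n : ℕ) {F : MvPolynomial (Fin 2) ℂ}
    (hF : ∀ s ∈ F.support, s ∈ rows (R + 1) len)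
    (h : F ∈ RingHom.ker (eval ![p 0 * (p 1 - y)⁻¹ ^ c, (p 1 - y)⁻¹]) ^ n) :
    psi len y F ∈ RingHom.ker (eval p) ^ n := by
  set I : Ideal (MvPolynomial (Fin 2) ℂ) := RingHom.ker (eval p) with hI
  let π := Ideal.Quotient.mkₐ ℂ (I ^ n)
  let J := I.map (Ideal.Quotient.mk (I ^ n))
  have hJ : J ^ n = ⊥ := by rw [← Ideal.map_pow, Ideal.map_quotient_self]
  have hx : ∀ k, π (X k) - algebraMap ℂ _ (p k) ∈ J := fun k => by
    have : π (X k - C (p k)) ∈ J := Ideal.mem_map_of_mem _ (by simp [hI, RingHom.mem_ker])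
    rwa [map_sub, ← algebraMap_eq, AlgHom.commutes] at this
  have hw : π (X 1 - C y) = (π (X 1) - algebraMap ℂ _ (p 1)) + algebraMap ℂ _ (p 1 - y) := by
    rw [map_sub, ← algebraMap_eq, AlgHom.commutes, map_sub]
    ring
  have hu : IsUnit (π (X 1 - C y)) := by
    rw [hw]
    refine IsNilpotent.isUnit_add_right_of_commute ⟨n, ?_⟩
      ((IsUnit.mk0 _ hy).map (algebraMap ℂ _)) (Commute.all _ _)
    have := Ideal.pow_mem_pow (hx 1) n
    rwa [hJ, Ideal.mem_bot] at this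
  obtain ⟨u, hu⟩ := hu.exists_right_inv
  let θ : MvPolynomial (Fin 2) ℂ →ₐ[ℂ] _ := aeval ![π (X 0) * u ^ c, u]
  have e0 : ∀ k, Ideal.Quotient.mkₐ ℂ J (π (X k)) = algebraMap ℂ _ (p k) := fun k =>
    (Ideal.Quotient.eq.2 (hx k)).trans ((Ideal.Quotient.mkₐ ℂ J).commutes _)
  have e1 : Ideal.Quotient.mkₐ ℂ J u = algebraMap ℂ _ (p 1 - y)⁻¹ := by
    have h1 := congrArg (Ideal.Quotient.mkₐ ℂ J) hu
    rw [map_mul, map_one, map_sub π, ← algebraMap_eq, AlgHom.commutes, map_sub, e0,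
      AlgHom.commutes, ← map_sub] at h1
    rw [← one_mul (Ideal.Quotient.mkₐ ℂ J u), ← map_one (algebraMap ℂ _), ← inv_mul_cancel₀ hy,
      map_mul, mul_assoc, h1, mul_one]
  have e2 : (Ideal.Quotient.mkₐ ℂ J).comp θ =
      (Algebra.ofId ℂ _).comp (aeval ![p 0 * (p 1 - y)⁻¹ ^ c, (p 1 - y)⁻¹]) := by
    refine algHom_ext fun k => ?_
    fin_cases k
    · simp only [θ, AlgHom.comp_apply, aeval_X, Fin.zero_eta, Matrix.cons_val_zero, map_mul,
        map_pow, e0, e1, Algebra.ofId_apply]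
    · simp only [θ, AlgHom.comp_apply, aeval_X, Fin.mk_one, Matrix.cons_val_one,
        Matrix.cons_val_zero, e1, Algebra.ofId_apply]
  have e3 := pow_map_mem θ.toRingHom _ J (fun G hG => by
    have h1 := congrArg (fun f : MvPolynomial (Fin 2) ℂ →ₐ[ℂ] _ => f G) e2
    simp only [AlgHom.comp_apply] at h1
    rw [show aeval ![p 0 * (p 1 - y)⁻¹ ^ c, (p 1 - y)⁻¹] G = 0 from hG, map_zero] at h1
    exact Ideal.Quotient.eq_zero_iff_mem.1 h1) n F h
  rw [hJ, Ideal.mem_bot] at e3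
  have e4 : π (psi len y F) = π (X 1 - C y) ^ (l - 1) * θ F := by
    conv_rhs => rw [F.as_sum]
    rw [psi_eq, map_sum, map_sum, Finset.mul_sum]
    refine Finset.sum_congr rfl fun s hs => ?_
    obtain ⟨h1, h2⟩ := hF s hs
    have h3 := hlen (s 0) (by omega)
    have h4 : l - 1 = (len (s 0) - 1 - s 1) + (c * s 0 + s 1) := by omega
    have h5 : π (X 1 - C y) ^ (c * s 0 + s 1) * u ^ (c * s 0 + s 1) = 1 := by
      rw [← mul_pow, hu, one_pow]
    rw [map_smul, gm, map_mul, map_pow, map_pow, h4, aeval_monomial,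
      Finsupp.prod_fintype _ _ (by simp), Fin.prod_univ_two, Algebra.smul_def]
    simp only [Matrix.cons_val_zero, Matrix.cons_val_one]
    generalize π (X 1 - C y) = w at h5
    rw [mul_pow, ← pow_mul]
    rw [pow_add u] at h5
    rw [pow_add w]
    linear_combination (-(algebraMap ℂ _ (coeff s F) * π (X 0) ^ s 0 *
      w ^ (len (s 0) - 1 - s 1))) * h5
  rw [show θ F = 0 from e3, mul_zero] at e4
  exact Ideal.Quotient.eq_zero_iff_mem.1 e4

lemma finrank_split {M N : Type} [AddCommGroup M] [Module ℂ M] [AddCommGroup N] [Module ℂ N]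
    (f : M →ₗ[ℂ] N) (S : Submodule ℂ M) [FiniteDimensional ℂ S] :
    Module.finrank ℂ (S.map f) + Module.finrank ℂ ↥(S ⊓ LinearMap.ker f) = Module.finrank ℂ S := by
  rw [← LinearMap.finrank_range_add_finrank_ker (f.domRestrict S), LinearMap.range_domRestrict,
    LinearMap.ker_domRestrict, ← Submodule.map_comap_subtype, Submodule.finrank_map_subtype_eq]

lemma finrank_dvd (A D : Submodule ℂ (Polynomial ℂ)) {y : ℂ} {n : ℕ} (hA : D ≤ A)
    (hy : ¬ ∃ f ∈ A, f ≠ 0 ∧ (Polynomial.X - Polynomial.C y) ^ Module.finrank ℂ A ∣ f)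
    (hD : ∀ f ∈ D, (Polynomial.X - Polynomial.C y) ^ n ∣ f) :
    Module.finrank ℂ D ≤ Module.finrank ℂ A - n := by
  let T : D →ₗ[ℂ] (Fin (Module.finrank ℂ A - n) → ℂ) :=
    LinearMap.pi fun k => Polynomial.lcoeff ℂ (n + k) ∘ₗ Polynomial.taylor y ∘ₗ D.subtype
  have hT : Function.Injective T := by
    refine (injective_iff_map_eq_zero _).2 fun f hf => Subtype.ext ?_
    by_contra h0
    refine hy ⟨f.1, hA f.2, h0, ?_⟩
    have h1 := hD f.1 f.2
    rw [Polynomial.X_sub_C_pow_dvd_iff, Polynomial.X_pow_dvd_iff] at h1 ⊢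
    intro d hd
    by_cases h2 : d < n
    · exact h1 d h2
    · have h3 := congrFun hf ⟨d - n, by omega⟩
      change (Polynomial.taylor y f.1).coeff (n + (d - n)) = 0 at h3
      rwa [show n + (d - n) = d by omega] at h3
  simpa using LinearMap.finrank_le_finrank_of_injective hT

end TransAux

open TransAux in
theorem trans {ι : Type} [Fintype ι] (R c l : ℕ) (len : ℕ → ℕ) (hlen : ∀ j ≤ R, len j + c * j = l)
    (μ : ι → ℕ) (e a b : ℕ) (hb : b ≤ len R) (h1 : KE (rows R len) μ e)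
    (h2 : KE (rows (R + 1) len) μ a) :
    KE (rows (R + 1) (Function.update len R b)) μ (max e (a + b - len R)) := by
  obtain ⟨Φ₁, p1, g1⟩ := gen (rows_finite _ _) h1
  obtain ⟨Φ₂, p2, g2⟩ := gen (rows_finite _ _) h2
  obtain ⟨P, hP⟩ := exists_pt _ (mul_ne_zero p1 p2)
  rw [map_mul, mul_ne_zero_iff] at hP
  replace g1 := g1 P hP.1
  replace g2 := g2 P hP.2
  have f1 := sys_fin (rows_finite R len) P μ
  have f2 := sys_fin (rows_finite (R + 1) len) P μ
  set U := sys (rows (R + 1) len) P μ with hU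
  obtain ⟨y, hy⟩ := ((wronski (U.map (rowc R))).union (Set.finite_range fun i => P i 1)).exists_notMem
  rw [Set.mem_union, not_or] at hy
  have hy2 : ∀ i, P i 1 - y ≠ 0 := fun i h => hy.2 ⟨i, sub_eq_zero.1 h⟩
  refine ke_of_rank (rows_finite _ _)
    (fun i => ![P i 0 * (P i 1 - y)⁻¹ ^ c, (P i 1 - y)⁻¹]) μ _ ?_
  set V := sys (rows (R + 1) (Function.update len R b))
    (fun i => ![P i 0 * (P i 1 - y)⁻¹ ^ c, (P i 1 - y)⁻¹]) μ with hV
  have hsub : rows (R + 1) (Function.update len R b) ⊆ rows (R + 1) len :=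
    rows_mono le_rfl fun j _ => by
      by_cases h : j = R
      · rw [h, Function.update_self]; exact hb
      · rw [Function.update_of_ne h]
  have hVU : V.map (psi len y) ≤ U := by
    rintro _ ⟨F, hF, rfl⟩
    obtain ⟨s1, s2⟩ := mem_sys.1 hF
    exact ⟨psi_supp y fun s hs => hsub (s1 s hs), mem_vans.2 fun i =>
      psi_van hlen (hy2 i) _ (fun s hs => hsub (s1 s hs)) (s2 i)⟩
  have f3 := sys_fin (rows_finite (R + 1) (Function.update len R b))
    (fun i => ![P i 0 * (P i 1 - y)⁻¹ ^ c, (P i 1 - y)⁻¹]) μ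
  have d1 := finrank_split (psi len y) V
  have d2 : V ⊓ LinearMap.ker (psi len y) = ⊥ := (Submodule.eq_bot_iff _).2 fun F hF =>
    psi_inj y (fun s hs => hsub ((mem_sys.1 hF.1).1 s hs)) hF.2
  rw [d2, finrank_bot, add_zero] at d1
  have d3 := finrank_split (rowc R) (V.map (psi len y))
  have d4 := finrank_split (rowc R) U
  have d5 : Module.finrank ℂ ↥(V.map (psi len y) ⊓ LinearMap.ker (rowc R)) ≤
      Module.finrank ℂ ↥(U ⊓ LinearMap.ker (rowc R)) :=
    Submodule.finrank_mono (inf_le_inf_right _ hVU)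
  have d6 : Module.finrank ℂ ↥(U ⊓ LinearMap.ker (rowc R)) ≤
      Module.finrank ℂ (sys (rows R len) P μ) := by
    refine Submodule.finrank_mono fun F hF => ?_
    obtain ⟨s1, s2⟩ := mem_sys.1 hF.1
    refine mem_sys.2 ⟨fun s hs => ⟨?_, (s1 s hs).2⟩, s2⟩
    refine lt_of_le_of_ne (Nat.lt_succ_iff.1 (s1 s hs).1) fun h => mem_support_iff.1 hs ?_
    rw [← rowc_coeff, h, show rowc R F = 0 from hF.2, Polynomial.coeff_zero]
  have d7 := finrank_dvd (U.map (rowc R)) ((V.map (psi len y)).map (rowc R)) (n := len R - b)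
    (Submodule.map_mono hVU) hy.1 (by
      rintro _ ⟨_, ⟨F, hF, rfl⟩, rfl⟩
      exact psi_dvd y (mem_sys.1 hF).1)
  omega

end Pool.Agent.P.MP_8707bd_ag.Ex
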