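import Mathlib
import Pool.Agent.P.MP_8707bd_ag.Ex.Trans
import Pool.Agent.P.MP_8707bd_ag.Ex.Cluster
import Pool.Agent.P.MP_8707bd_ag.Ex.Degen

/-!
A row shared between the strip and the smaller triangle (helper file only).
-/

namespace Pool.Agent.P.MP_8707bd_ag.Ex

open MvPolynomial Win All Irr

namespace ShareAux

lemma monoSp_eq (S : Finset ℕ) :
    monoSp S = Submodule.span ℂ
      (Set.range fun a : S => (Polynomial.X : Polynomial ℂ) ^ (a : ℕ)) := by
  rw [monoSp]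
  congr 1
  ext f
  constructor
  · rintro ⟨a, ha, rfl⟩
    exact ⟨⟨a, ha⟩, rfl⟩
  · rintro ⟨a, rfl⟩
    exact ⟨a, a.2, rfl⟩

lemma monoSp_fin (S : Finset ℕ) : FiniteDimensional ℂ (monoSp S) := by
  rw [monoSp_eq]
  exact FiniteDimensional.span_of_finite ℂ (Set.finite_range _)

lemma monoSp_rank (S : Finset ℕ) : Module.finrank ℂ (monoSp S) ≤ S.card := by
  rw [monoSp_eq]
  have := finrank_range_le_card (R := ℂ) fun a : S => (Polynomial.X : Polynomial ℂ) ^ (a : ℕ)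
  rwa [Fintype.card_coe] at this

lemma resC_z (δ : ℕ) (G : MvPolynomial (Fin 2) ℂ) :
    resC δ ((X 0 - X 1 ^ δ) ^ (0 + 1) * G) = 0 := by
  simp [resC]

lemma resC_bas (δ : ℕ) (s : Fin 2 →₀ ℕ) (hs : s 0 = 0) (c : ℂ) :
    resC δ (C c * Horace.bas δ s) = Polynomial.monomial (s 1) c := by
  have e : (Polynomial.X : Polynomial ℂ) ^ s 1 =
      (Polynomial.X ^ δ) ^ (s 1 / δ) * Polynomial.X ^ (s 1 % δ) := by
    rw [← pow_mul, ← pow_add, Nat.div_add_mod]
  rw [← Polynomial.C_mul_X_pow_eq_monomial, e]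
  simp [resC, Horace.bas, hs]

lemma resC_lin (δ : ℕ) (A : MvPolynomial (Fin 2) ℂ) (hA : ∀ s ∈ A.support, s 0 = 0) :
    resC δ (Horace.lin δ A) = ∑ s ∈ A.support, Polynomial.monomial (s 1) (A.coeff s) := by
  rw [Horace.lin_eq, map_sum]
  exact Finset.sum_congr rfl fun s hs => resC_bas δ s (hA s hs) _

lemma lin_zero (δ : ℕ) (A : MvPolynomial (Fin 2) ℂ) (hA : ∀ s ∈ A.support, s 0 = 0)
    (h : resC δ (Horace.lin δ A) = 0) : A = 0 := by
  classical
  rw [← support_eq_empty, Finset.eq_empty_iff_forall_notMem]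
  intro s hs
  have h1 := congrArg (fun f : Polynomial ℂ => f.coeff (s 1)) h
  simp only [resC_lin δ A hA, Polynomial.finsetSum_coeff, Polynomial.coeff_monomial,
    Polynomial.coeff_zero] at h1
  rw [Finset.sum_eq_single s, if_pos rfl] at h1
  · exact mem_support_iff.1 hs h1
  · intro t ht hne
    rw [if_neg]
    intro h2
    apply hne
    ext i
    fin_cases i
    · exact (hA t ht).trans (hA s hs).symm
    · exact h2
  · exact fun h2 => absurd hs h2

lemma res_mem (d δ R : ℕ) (hδ : 0 < δ) (hR : R * δ ≤ d) (G : MvPolynomial (Fin 2) ℂ)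
    (hG : ∀ s ∈ G.support, s ∈ tri (d + 1 - R * δ)) : resC δ G ∈ monoSp (thin d δ R) := by
  have e : d + 1 - R * δ = d - R * δ + 1 := by omega
  rw [e] at hG
  obtain ⟨A, G', hA, -, rfl⟩ := Horace.decomp (d - R * δ) δ 0 hδ G hG
  rw [map_add, resC_z, add_zero, resC_lin δ A fun s hs => Nat.le_zero.1 (hA s hs).1]
  refine Submodule.sum_mem _ fun s hs => ?_
  rw [← Polynomial.smul_X_eq_monomial]
  refine Submodule.smul_mem _ _ (Submodule.subset_span ⟨s 1, ?_, rfl⟩)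
  have h1 := (hA s hs).2
  rw [Nat.le_zero.1 (hA s hs).1] at h1
  obtain ⟨a, b, h2, h3, h4⟩ := mem_thin.1 h1
  exact Finset.mem_coe.2 (mem_thin.2 ⟨a, b, h2, by omega, h4⟩)

lemma ker_le {κ : Type} (d δ R : ℕ) (hδ : 0 < δ) (hR : R * δ ≤ d) (Q : κ → Fin 2 → ℂ) (ν : κ → ℕ)
    (hz : ∀ i, eval (Q i) (X 0 - X 1 ^ δ : MvPolynomial (Fin 2) ℂ) ≠ 0) :
    sys (tri (d + 1 - R * δ)) Q ν ⊓ LinearMap.ker (resC δ) ≤
      (sys (tri (d + 1 - (R + 1) * δ)) Q ν).map
        (LinearMap.mulLeft ℂ ((X 0 - X 1 ^ δ : MvPolynomial (Fin 2) ℂ) ^ (0 + 1))) := by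
  rintro G ⟨h1, h2⟩
  obtain ⟨hG, hv⟩ := mem_sys.1 h1
  have e : d + 1 - R * δ = d - R * δ + 1 := by omega
  rw [e] at hG
  obtain ⟨A, G', hA, hG', rfl⟩ := Horace.decomp (d - R * δ) δ 0 hδ G hG
  have h3 : resC δ (Horace.lin δ A + (X 0 - X 1 ^ δ) ^ (0 + 1) * G') = 0 := h2
  rw [map_add, resC_z, add_zero] at h3
  have h4 := lin_zero δ A (fun s hs => Nat.le_zero.1 (hA s hs).1) h3
  subst h4
  simp only [map_zero, zero_add (_ * G')] at hv ⊢
  refine ⟨G', mem_sys.2 ⟨fun s hs => ?_, fun i => Horace.cancel_pow (Q i) _ _ (hz i) _ _ (hv i)⟩,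
    rfl⟩
  have h5 : s 0 + s 1 < d - R * δ + 1 - (0 + 1) * δ := hG' s hs
  change s 0 + s 1 < d + 1 - (R + 1) * δ
  rw [add_mul, one_mul]
  rw [zero_add, one_mul] at h5
  omega

lemma rank_add {V W : Type} [AddCommGroup V] [Module ℂ V] [AddCommGroup W] [Module ℂ W]
    (S : Submodule ℂ V) [FiniteDimensional ℂ S] (f : V →ₗ[ℂ] W) :
    Module.finrank ℂ (S.map f) + Module.finrank ℂ ↥(S ⊓ LinearMap.ker f) =
      Module.finrank ℂ S := by
  have h1 := LinearMap.finrank_range_add_finrank_ker (f.domRestrict S)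
  rw [LinearMap.range_domRestrict, LinearMap.ker_domRestrict] at h1
  rw [← h1, ← Submodule.map_comap_subtype, Submodule.finrank_map_subtype_eq]

lemma curve_ne {κ : Type} [Fintype κ] (δ : ℕ) :
    (∏ i : κ, (X (i, 0) - X (i, 1) ^ δ : MvPolynomial (κ × Fin 2) ℂ)) ≠ 0 := by
  refine Finset.prod_ne_zero_iff.2 fun i _ h => ?_
  have := congrArg (eval fun x : κ × Fin 2 => if x.2 = 0 then (0 : ℂ) else 1) h
  simp at this

end ShareAux

open ShareAux

theorem share {ι κ : Type} [Fintype ι] [Fintype κ] (d δ R l : ℕ) (hδ : 0 < δ) (hR : R * δ ≤ d)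
    (hlen : ∀ j ≤ R, rowLen d δ j + δ ^ 2 * j = l) (μ : ι → ℕ) (ν : κ → ℕ) (e₁ e₂ a b : ℕ)
    (h1 : KE (rows R (rowLen d δ)) μ e₁) (h2 : KE (rows (R + 1) (rowLen d δ)) μ a)
    (h3 : KE (tri (d + 1 - (R + 1) * δ)) ν e₂) (h4 : KE (tri (d + 1 - R * δ)) ν b) :
    KE (tri (d + 1)) (Sum.elim μ ν) (max (e₁ + e₂) (a + b - rowLen d δ R)) := by
  obtain ⟨Φ₃, n3, g3⟩ := gen (tri_finite _) h3
  obtain ⟨Φ₄, n4, g4⟩ := gen (tri_finite _) h4
  obtain ⟨Q, hQ⟩ := exists_pt _ (mul_ne_zero (mul_ne_zero n3 n4) (curve_ne (κ := κ) δ))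
  rw [map_mul, map_mul, map_prod] at hQ
  have r3 := g3 Q (left_ne_zero_of_mul (left_ne_zero_of_mul hQ))
  have r4 := g4 Q (right_ne_zero_of_mul (left_ne_zero_of_mul hQ))
  have hz : ∀ i, eval (Q i) (X 0 - X 1 ^ δ : MvPolynomial (Fin 2) ℂ) ≠ 0 := by
    intro i
    have := Finset.prod_ne_zero_iff.1 (right_ne_zero_of_mul hQ) i (Finset.mem_univ i)
    simpa using this
  have f3 := sys_fin (tri_finite (d + 1 - (R + 1) * δ)) Q ν
  have f4 := sys_fin (tri_finite (d + 1 - R * δ)) Q ν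
  have hsum := rank_add (sys (tri (d + 1 - R * δ)) Q ν) (resC δ)
  have hk : Module.finrank ℂ ↥(sys (tri (d + 1 - R * δ)) Q ν ⊓ LinearMap.ker (resC δ)) ≤ e₂ :=
    ((Submodule.finrank_mono (ker_le d δ R hδ hR Q ν hz)).trans
      (Submodule.finrank_map_le _ _)).trans r3
  have fm := monoSp_fin (thin d δ R)
  have hB : (sys (tri (d + 1 - R * δ)) Q ν).map (resC δ) ≤ monoSp (thin d δ R) := by
    rintro _ ⟨G, hG, rfl⟩
    exact res_mem d δ R hδ hR G (mem_sys.1 hG).1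
  have hb : Module.finrank ℂ ((sys (tri (d + 1 - R * δ)) Q ν).map (resC δ)) ≤ rowLen d δ R := by
    rw [← thin_card]
    exact (Submodule.finrank_mono hB).trans (monoSp_rank _)
  have ht := trans R (δ ^ 2) l (rowLen d δ) hlen μ e₁ a _ hb h1 h2
  obtain ⟨P, hf, hP⟩ := cluster (R + 1) (fun j => if j < R then monoSp (thin d δ j) else
      (sys (tri (d + 1 - R * δ)) Q ν).map (resC δ)) (fun j => by
        by_cases h : j < R
        · rw [if_pos h]
          exact monoSp_fin _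
        · rw [if_neg h]
          infer_instance) μ _ (ht.mono (rows_mono le_rfl fun j hj => by
        by_cases h : j < R
        · rw [if_pos h, Function.update_of_ne h.ne, ← thin_card]
          exact monoSp_rank _
        · have hj' : j = R := by omega
          rw [if_neg h, hj', Function.update_self]))
  refine (degen d δ R hδ hR P μ Q ν hz _ _ hf hP le_rfl).more ?_
  omega

end Pool.Agent.P.MP_8707bd_ag.Ex
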