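import Mathlib
import Pool.Agent.P.MP_8707bd_ag.Ex.Share
import Pool.Agent.P.MP_8707bd_ag.Ex.Lower
import Pool.Agent.P.MP_8707bd_ag.Win.Square

/-!
The exact result near the critical degree from one sharp strip (helper file only).
-/

namespace Pool.Agent.P.MP_8707bd_ag.Ex

open MvPolynomial Win All Irr

theorem no_rowLen (d δ j : ℕ) (h : (j + 1) * δ ≤ d + 1) :
    2 * rowLen d δ j + δ * δ + 2 * (δ ^ 2 * j) = 2 * δ * (d + 1) + δ := by
  obtain ⟨t, ht⟩ : ∃ t, d + 1 = j * δ + t := ⟨d + 1 - j * δ, by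
    rw [add_mul, one_mul] at h
    omega⟩
  have h1 : δ ≤ t + 1 := by
    rw [add_mul, one_mul] at h
    omega
  rw [sq_rowLen d δ j t ht, sq_sum_sub δ t h1, ht]
  ring

theorem no_sum (d δ R : ℕ) :
    ∑ j ∈ Finset.range R, rowLen d δ j + (d + 1 - R * δ + 1).choose 2 = (d + 2).choose 2 := by
  rcases R with _ | J
  · simp
  · exact sum_rowLen_add d δ J

theorem no_asm (r m d k δ R s : ℕ) (hs : s + k ^ 2 = r) (hδ : 0 < δ)
    (hR : (R + 1) * δ ≤ d + 1) (hk : 25 ≤ k) (hm : k ^ 2 ≤ 76 * (m + 1))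
    (hup : 2 * k * m + k ≤ 2 * (d + 1 - R * δ) + 1)
    (hlow : 2 * (d + 1 - (R + 1) * δ) + 3 ≤ 2 * k * m + k)
    (μ : Fin r → ℕ) (hμ : ∀ i, μ i ≤ m) (hL : ∑ i, (m - μ i) ≤ s)
    (h1 : KE (rows R fun j => rowLen d δ j + ∑ i, (m - μ i)) (fun _ : Fin s => m) 0)
    (e : ℕ) (he : e + s * (m + 1).choose 2 = ∑ j ∈ Finset.range (R + 1), rowLen d δ j)
    (h2 : KE (rows (R + 1) (rowLen d δ)) (fun _ : Fin s => m) e) :
    KE (tri (d + 1)) μ ((d + 2).choose 2 - ∑ i, (μ i + 1).choose 2) := by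
  classical
  have hT : (Finset.univ.filter fun i => μ i < m).card ≤ s := by
    refine le_trans ?_ hL
    rw [Finset.card_filter]
    refine Finset.sum_le_sum fun i _ => ?_
    split_ifs with h
    · omega
    · omega
  obtain ⟨U, hTU, -, hU⟩ := Finset.exists_subsuperset_card_eq
    (Finset.subset_univ (Finset.univ.filter fun i => μ i < m)) hT
    (by rw [Finset.card_univ, Fintype.card_fin]; omega)
  have hout : ∀ i, i ∉ U → μ i = m := by
    intro i hi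
    by_contra h
    exact hi (hTU (Finset.mem_filter.2 ⟨Finset.mem_univ _, lt_of_le_of_ne (hμ i) h⟩))
  have c1 : Fintype.card {i // i ∈ U} = s := by rw [Fintype.card_coe, hU]
  have c2 : Fintype.card {i // i ∉ U} = k ^ 2 := by
    rw [Fintype.card_subtype_compl, Fintype.card_fin, c1]
    omega
  have hsp : ∀ f : Fin r → ℕ, ∑ i : {i // i ∈ U}, f i + ∑ i : {i // i ∉ U}, f i = ∑ i, f i := by
    intro f
    rw [← Finset.sum_subtype (p := fun i => i ∈ U) U (fun _ => Iff.rfl) f,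
      ← Finset.sum_subtype (p := fun i => i ∉ U) Uᶜ (fun _ => Finset.mem_compl) f,
      Finset.sum_add_sum_compl]
  have f1 : {i // i ∈ U} ≃ Fin s := Fintype.equivFinOfCardEq c1
  have f2 : {i // i ∉ U} ≃ Fin (k ^ 2) := Fintype.equivFinOfCardEq c2
  have g1 : KE (rows R (rowLen d δ)) (fun i : {i // i ∈ U} => μ i) 0 := by
    refine ke_lower_low (μ := fun _ => m) ?_
    refine (h1.reindex f1 _ fun _ => rfl).mono (rows_mono le_rfl fun j _ => ?_)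
    have := hsp fun i => m - μ i
    omega
  have g2 := ke_lower_up (rows_finite _ _) (μ' := fun i : {i // i ∈ U} => μ i)
    (h2.reindex f1 (fun _ => m) fun _ => rfl) fun i => hμ i
  have g3 := (sq_low k m _ hk hm hlow).reindex f2 (fun _ => m) fun _ => rfl
  obtain ⟨b, hb, g4⟩ := sq_up k m _ hup
  have g4' := g4.reindex f2 (fun _ => m) fun _ => rfl
  have hRd : R * δ ≤ d := by
    rw [add_mul, one_mul] at hR
    omega
  have hlen : ∀ j ≤ R, rowLen d δ j + δ ^ 2 * j = rowLen d δ 0 := by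
    intro j hj
    have a1 := no_rowLen d δ j ((Nat.mul_le_mul_right δ (by omega)).trans hR)
    have a2 := no_rowLen d δ 0 ((Nat.mul_le_mul_right δ (by omega)).trans hR)
    omega
  have g5 := share d δ R _ hδ hRd hlen _ _ 0 0 _ _ g1 g2 g3 g4'
  have g6 := g5.reindex (Equiv.sumCompl fun i => i ∈ U).symm μ (by
    intro i
    by_cases hi : i ∈ U
    · rw [Equiv.sumCompl_symm_apply_of_pos hi]
      rfl
    · rw [Equiv.sumCompl_symm_apply_of_neg hi]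
      exact hout i hi)
  refine g6.more ?_
  have a1 := hsp fun i => (μ i + 1).choose 2
  have a2 : ∑ i : {i // i ∉ U}, (μ i + 1).choose 2 = k ^ 2 * (m + 1).choose 2 := by
    rw [Finset.sum_congr rfl fun i _ => by rw [hout i.1 i.2], Finset.sum_const, Finset.card_univ,
      c2, smul_eq_mul]
  have a3 : ∑ i : {i // i ∈ U}, ((m + 1).choose 2 - (μ i + 1).choose 2) +
      ∑ i : {i // i ∈ U}, (μ i + 1).choose 2 = s * (m + 1).choose 2 := by
    rw [← Finset.sum_add_distrib, Finset.sum_congr rfl fun i _ => Nat.sub_add_cancel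
      (Nat.choose_le_choose 2 (Nat.succ_le_succ (hμ i.1))), Finset.sum_const, Finset.card_univ,
      c1, smul_eq_mul]
  have a4 := no_sum d δ R
  rw [Finset.sum_range_succ] at he
  refine max_le (Nat.zero_le _) ?_
  omega

theorem no_real {c κ : ℝ} (hc : 0 < c)
    (δ r m d k : ℕ) (hδ : 0 < δ) (ρ W : ℝ) (hρ : ρ ^ 2 = r) (hk : ρ = k + δ * W) (hW0 : 0 < W)
    (d1 : 12 ≤ δ * c) (d2 : 16 ≤ κ * δ) (d3 : 4 ≤ δ * W) (k1 : δ + 25 ≤ k) (k2 : 20 ≤ κ * k)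
    (k3 : ρ ≤ 4 * k) (hm : r < 76 * (m + 1))
    (hτ : |(d : ℝ) + 3 / 2 - ρ * (m + 1 / 2)| ≤ 10)
    (h1 : c ≤ Int.fract (W * (m + 1 / 2))) (h2 : Int.fract (W * (m + 1 / 2)) ≤ 1 - c)
    (H : ∀ s : ℕ, (s : ℝ) = 2 * δ * k * W + δ ^ 2 * W ^ 2 → ∀ (R : ℕ) (len : ℕ → ℕ),
      (c ≤ W * (m + 1 / 2) - R → W * (m + 1 / 2) - R ≤ 1 →
        (∀ j < R, (len j : ℝ) ≤ (m + 1 / 2) * (δ * k) +
          δ ^ 2 * (W * (m + 1 / 2) - (j + 1 / 2)) + κ * (δ * k)) →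
        KE (rows R len) (fun _ : Fin s => m) 0) ∧
      (c ≤ R - W * (m + 1 / 2) → R - W * (m + 1 / 2) ≤ 1 →
        (∀ j < R, (m + 1 / 2) * (δ * k) +
          δ ^ 2 * (W * (m + 1 / 2) - (j + 1 / 2)) - κ * (δ * k) ≤ (len j : ℝ)) →
        ∃ e, e + s * (m + 1).choose 2 = ∑ j ∈ Finset.range R, len j ∧
          KE (rows R len) (fun _ : Fin s => m) e))
    (μ : Fin r → ℕ) (hμ : ∀ i, μ i ≤ m) (hL : ((∑ i, (m - μ i) : ℕ) : ℝ) ≤ 2 * ρ) :
    KE (tri (d + 1)) μ ((d + 2).choose 2 - ∑ i, (μ i + 1).choose 2) := by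
  have hδr : (0 : ℝ) < δ := by exact_mod_cast hδ
  have k1r : (δ : ℝ) + 25 ≤ k := by exact_mod_cast k1
  have hkr : (0 : ℝ) < k := by linarith
  have hs0 : (k : ℝ) ^ 2 + (2 * δ * k * W + δ ^ 2 * W ^ 2) = r := by
    rw [← hρ, hk]
    ring
  have hs1 : 8 * (k : ℝ) ≤ 2 * δ * k * W + δ ^ 2 * W ^ 2 := by
    have a1 := mul_le_mul_of_nonneg_left d3 hkr.le
    have a2 : 0 ≤ (δ : ℝ) ^ 2 * W ^ 2 := by positivity
    nlinarith
  have hkk : k ^ 2 ≤ r := by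
    have : ((k ^ 2 : ℕ) : ℝ) ≤ r := by
      push_cast
      linarith
    exact_mod_cast this
  obtain ⟨s, hs⟩ : ∃ s, s + k ^ 2 = r := ⟨r - k ^ 2, by omega⟩
  have hsr : (s : ℝ) = 2 * δ * k * W + δ ^ 2 * W ^ 2 := by
    have : ((s + k ^ 2 : ℕ) : ℝ) = r := by rw [hs]
    push_cast at this
    linarith
  have hm1 : 1 ≤ m := by
    have : 625 ≤ k ^ 2 := by nlinarith
    omega
  have hmr : (1 : ℝ) ≤ m := by exact_mod_cast hm1
  have hWM : 0 ≤ W * (m + 1 / 2) := by positivity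
  obtain ⟨R, hR⟩ : ∃ R : ℕ, Int.fract (W * (m + 1 / 2)) = W * (m + 1 / 2) - R := by
    refine ⟨⌊W * (m + 1 / 2)⌋₊, ?_⟩
    rw [Int.fract, ← Int.natCast_floor_eq_floor hWM, Int.cast_natCast]
  rw [hR] at h1 h2
  obtain ⟨θ, hθ⟩ : ∃ θ, θ = W * (m + 1 / 2) - R := ⟨_, rfl⟩
  obtain ⟨τ, hτ'⟩ : ∃ τ, τ = (d : ℝ) + 3 / 2 - ρ * (m + 1 / 2) := ⟨_, rfl⟩
  rw [← hτ'] at hτ
  obtain ⟨t1, t2⟩ := abs_le.1 hτ
  have hD : (d : ℝ) + 3 / 2 - R * δ = k * (m + 1 / 2) + δ * θ + τ := by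
    rw [hτ', hθ, hk]
    ring
  have e1 : 12 ≤ δ * θ := d1.trans (mul_le_mul_of_nonneg_left (by linarith) hδr.le)
  have e2 : δ * θ ≤ δ - 12 := by
    have := mul_le_mul_of_nonneg_left (show θ ≤ 1 - c by linarith) hδr.le
    linarith
  have e3 : (k : ℝ) ≤ k * m := le_mul_of_one_le_right hkr.le hmr
  have hR1 : (R + 1) * δ ≤ d + 1 := by
    have : (((R + 1) * δ : ℕ) : ℝ) ≤ (d + 1 : ℕ) := by
      push_cast
      nlinarith
    exact_mod_cast this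
  have hR0 : R * δ ≤ d + 1 := (Nat.mul_le_mul_right δ (Nat.le_succ R)).trans hR1
  have hrow : ∀ j ≤ R, (rowLen d δ j : ℝ) = (m + 1 / 2) * (δ * k) +
      δ ^ 2 * (W * (m + 1 / 2) - (j + 1 / 2)) + δ * τ := by
    intro j hj
    have a1 := no_rowLen d δ j ((Nat.mul_le_mul_right δ (by omega)).trans hR1)
    have a2 := congrArg (Nat.cast : ℕ → ℝ) a1
    push_cast at a2
    rw [hτ', hk]
    linarith
  have e4 : 20 * (δ : ℝ) ≤ κ * (δ * k) := by
    have := mul_le_mul_of_nonneg_left k2 hδr.le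
    linarith
  have e5 : 16 * (k : ℝ) ≤ κ * (δ * k) := by
    have := mul_le_mul_of_nonneg_left d2 hkr.le
    linarith
  have e6 : δ * τ ≤ δ * 10 := mul_le_mul_of_nonneg_left t2 hδr.le
  have e7 : δ * (-10) ≤ δ * τ := mul_le_mul_of_nonneg_left t1 hδr.le
  obtain ⟨e, he, g2⟩ := (H s hsr (R + 1) (rowLen d δ)).2 (by push_cast; linarith)
    (by push_cast; linarith) fun j hj => by
      rw [hrow j (by omega)]
      linarith
  refine no_asm r m d k δ R s hs hδ hR1 (by omega) (by omega) ?_ ?_ μ hμ ?_ ?_ e he g2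
  · have : ((2 * k * m + k : ℕ) : ℝ) ≤ (2 * (d + 1 - R * δ) + 1 : ℕ) := by
      push_cast [hR0]
      linarith
    exact_mod_cast this
  · have : ((2 * (d + 1 - (R + 1) * δ) + 3 : ℕ) : ℝ) ≤ (2 * k * m + k : ℕ) := by
      push_cast [hR1]
      linarith
    exact_mod_cast this
  · have : ((∑ i, (m - μ i) : ℕ) : ℝ) ≤ s := by linarith
    exact_mod_cast this
  · refine (H s hsr R _).1 h1 (by linarith) fun j hj => ?_
    rw [Nat.cast_add, hrow j hj.le]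
    linarith

theorem near_one {W0 c : ℝ} (hW : 0 < W0) (hc : 0 < c) (H : StripSharp W0 c) :
    ∃ (M0 : ℕ) (η : ℝ), 0 < M0 ∧ 0 < η ∧ ∀ δ : ℕ, M0 ∣ δ → 0 < δ →
      ∃ r0 : ℕ, ∀ r m d k : ℕ, r0 ≤ r → r < 76 * (m + 1) →
        |(d : ℝ) + 3 / 2 - √(r : ℝ) * (m + 1 / 2)| ≤ 10 → |(√(r : ℝ) - k) / δ - W0| < η →
        c ≤ Int.fract ((√(r : ℝ) - k) / δ * (m + 1 / 2)) →
        Int.fract ((√(r : ℝ) - k) / δ * (m + 1 / 2)) ≤ 1 - c →
        ∀ μ : Fin r → ℕ, (∀ i, μ i ≤ m) → ((∑ i, (m - μ i) : ℕ) : ℝ) ≤ 2 * √(r : ℝ) →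
          KE (tri (d + 1)) μ ((d + 2).choose 2 - ∑ i, (μ i + 1).choose 2) := by
  obtain ⟨M0, η, κ, hM0, hη, hκ, H⟩ := H
  obtain ⟨A, hA⟩ := exists_nat_gt (12 / c + 16 / κ + 8 / W0)
  have p1 : 0 < 12 / c := by positivity
  have p2 : 0 < 16 / κ := by positivity
  have p3 : 0 < 8 / W0 := by positivity
  have hA0 : 0 < A := by
    have : (0 : ℝ) < A := by linarith
    exact_mod_cast this
  refine ⟨M0 * A, min η (W0 / 2), Nat.mul_pos hM0 hA0, lt_min hη (by linarith),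
    fun δ hδ hδ0 => ?_⟩
  have hδr : (0 : ℝ) < δ := by exact_mod_cast hδ0
  have hAδ : (A : ℝ) ≤ δ := by
    exact_mod_cast Nat.le_of_dvd hδ0 ((Dvd.intro_left M0 rfl).trans hδ)
  have d1 : 12 ≤ δ * c := (div_le_iff₀ hc).1 (by linarith)
  have d2 : 16 ≤ δ * κ := (div_le_iff₀ hκ).1 (by linarith)
  have d3 : 8 ≤ δ * W0 := (div_le_iff₀ hW).1 (by linarith)
  have q1 : 0 < δ / η := by positivity
  have q2 : 0 < 20 / κ := by positivity
  have q3 : 0 < 1 / η := by positivity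
  obtain ⟨T, hT⟩ := exists_nat_gt (2 * (δ * W0) + (δ + 25) + δ / η + 20 / κ + 1 / η)
  refine ⟨76 * (T + 1) + T ^ 2, fun r m d k hr hm hτ hWη h1 h2 μ hμ hL => ?_⟩
  obtain ⟨W, hWd⟩ : ∃ W, W = (√(r : ℝ) - k) / δ := ⟨_, rfl⟩
  rw [← hWd] at hWη h1 h2
  have hk : √(r : ℝ) = k + δ * W := by
    rw [hWd]
    field_simp
    ring
  have hTρ : (T : ℝ) ≤ √(r : ℝ) := by
    refine Real.le_sqrt_of_sq_le ?_
    have : T ^ 2 ≤ r := by omega
    exact_mod_cast this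
  obtain ⟨w1, w2⟩ := abs_lt.1 (hWη.trans_le (min_le_right _ _))
  have w3 : δ * W ≤ δ * (3 / 2 * W0) := mul_le_mul_of_nonneg_left (by linarith) hδr.le
  have w4 : δ * (1 / 2 * W0) ≤ δ * W := mul_le_mul_of_nonneg_left (by linarith) hδr.le
  have hTm : (T : ℝ) ≤ m := by
    have : T ≤ m := by omega
    exact_mod_cast this
  have k1 : δ + 25 ≤ k := by
    have : ((δ + 25 : ℕ) : ℝ) ≤ k := by
      push_cast
      linarith
    exact_mod_cast this
  have k2 : 20 ≤ k * κ := (div_le_iff₀ hκ).1 (by linarith)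
  have k4 : δ ≤ k * η := (div_le_iff₀ hη).1 (by linarith)
  have m1 : 1 ≤ m * η := (div_le_iff₀ hη).1 (by linarith)
  refine no_real (κ := κ) hc δ r m d k hδ0 _ W (Real.sq_sqrt (Nat.cast_nonneg r)) hk
    (by linarith) d1 (by linarith) (by linarith) k1 (by linarith) (by linarith) hm hτ h1 h2
    (fun s hs R len => ?_) μ hμ hL
  exact H δ k s W ((Dvd.intro A rfl).trans hδ) hδ0 (by linarith)
    (hWη.trans_le (min_le_left _ _)) hs m R len (by linarith)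

end Pool.Agent.P.MP_8707bd_ag.Ex
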