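import Mathlib
import Pool.Agent.P.MP_8707bd_ag.Ex.DesignS

/-!
From the real data of a design to the sharp strip (helper file only).
-/

namespace Pool.Agent.P.MP_8707bd_ag.Ex

open MvPolynomial Win All Irr

theorem sharp_of_data {W0 c : ℝ} (hc : 0 < c) (H : SharpData W0 c) : StripSharp W0 c := by
  obtain ⟨ι, _, ty, n, S, P, par, lev, rl, M0, η, κ, γ, T, hv, s2, s3, hmu, hM0, hη, hκ, hγ, H⟩ :=
    H
  have h2S : (0 : ℝ) < 2 ^ S := by positivity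
  refine ⟨M0, min η (min (κ / 4) (κ / (4 * 2 ^ S))), κ / 2, hM0, by positivity, by positivity,
    fun δ k s W hδ δ0 hk hW hs m R len hm => ?_⟩
  have e1 : min η (min (κ / 4) (κ / (4 * 2 ^ S))) ≤ η := min_le_left _ _
  have e2 : min η (min (κ / 4) (κ / (4 * 2 ^ S))) ≤ κ / 4 :=
    (min_le_right _ _).trans (min_le_left _ _)
  have e3 : min η (min (κ / 4) (κ / (4 * 2 ^ S))) ≤ κ / (4 * 2 ^ S) :=
    (min_le_right _ _).trans (min_le_right _ _)
  have k0 : (0 : ℝ) ≤ k := Nat.cast_nonneg _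
  have m0 : (0 : ℝ) ≤ m := Nat.cast_nonneg _
  have d1 : (1 : ℝ) ≤ δ := by exact_mod_cast δ0
  obtain ⟨N, hN, hL, H⟩ := H δ k s W hδ δ0 (hk.trans (mul_le_mul_of_nonneg_right e1 k0))
    (hW.trans_le e1) hs
  have b1 : (δ : ℝ) ^ 2 ≤ κ / 4 * (δ * k) := by
    have := hk.trans (mul_le_mul_of_nonneg_right e2 k0)
    nlinarith [mul_le_mul_of_nonneg_left this (by linarith : (0 : ℝ) ≤ δ)]
  have b2 : (2 : ℝ) ^ S ≤ κ / 4 * (δ * k) := by
    have a1 := d1.trans (hk.trans (mul_le_mul_of_nonneg_right e3 k0))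
    rw [div_mul_eq_mul_div, le_div_iff₀ (by positivity)] at a1
    have a2 : κ * k ≤ κ * (δ * k) :=
      mul_le_mul_of_nonneg_left (le_mul_of_one_le_left k0 d1) hκ.le
    linarith
  have b3 : 1 < η * (m + 1 / 2) := by
    have := hm.trans (mul_le_mul_of_nonneg_right e1 m0)
    nlinarith
  have hM : (0 : ℝ) < m + 1 / 2 := by positivity
  have dk : (0 : ℝ) ≤ δ * k := by positivity
  have d2 : (0 : ℝ) ≤ (δ : ℝ) ^ 2 := by positivity
  obtain ⟨τ, hτ⟩ : ∃ τ : ℝ, τ * (m + 1 / 2) = W * (m + 1 / 2) - R :=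
    ⟨(W * (m + 1 / 2) - R) / (m + 1 / 2), div_mul_cancel₀ _ hM.ne'⟩
  have hx : ∀ j : ℕ, (j + 1 / 2 : ℝ) / (m + 1 / 2) * (m + 1 / 2) = j + 1 / 2 := fun j =>
    div_mul_cancel₀ _ hM.ne'
  have hx0 : ∀ j : ℕ, (0 : ℝ) ≤ (j + 1 / 2) / (m + 1 / 2) := fun j => by positivity
  have hx1 : ∀ j : ℕ, j < R → (j + 1 / 2 : ℝ) / (m + 1 / 2) ≤ W - τ := fun j hj => by
    have : (j : ℝ) + 1 ≤ R := by exact_mod_cast hj
    rw [div_le_iff₀ hM]
    linarith
  have habs : -1 ≤ W * (m + 1 / 2) - R → W * (m + 1 / 2) - R ≤ 1 → |τ| < η := fun a b => by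
    rw [← hτ] at a b
    exact abs_lt.2 ⟨lt_of_mul_lt_mul_right (by linarith) hM.le,
      lt_of_mul_lt_mul_right (by linarith) hM.le⟩
  refine ⟨fun a b hlen => ?_, fun a b hlen => ?_⟩
  · obtain ⟨X, X0, hX, Xn, s1, sup, hlo, -⟩ := H τ (habs (by linarith) b)
    have τ0 : 0 ≤ τ := le_of_mul_le_mul_right (by linarith) hM
    refine design_low2 T X X0 hX N hv s1 s2 s3 sup hmu s hN m R (by rw [Xn]; linarith) len
      fun j hj => ?_
    have a1 := mul_le_mul_of_nonneg_left (hlo τ0 _ (hx0 j) (hx1 j hj)) hM.le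
    have a2 := hlen j hj
    have a3 : ((m : ℝ) + 1 / 2) * (δ * k + δ ^ 2 * (W - τ - (j + 1 / 2) / (m + 1 / 2)) +
        γ * τ * (δ * k)) = (m + 1 / 2) * (δ * k) + δ ^ 2 * (W * (m + 1 / 2) - (j + 1 / 2)) -
        δ ^ 2 * (W * (m + 1 / 2) - R) + γ * (δ * k) * (W * (m + 1 / 2) - R) := by
      linear_combination (γ * (δ * k) - δ ^ 2) * hτ - δ ^ 2 * hx j
    have a4 := mul_le_mul_of_nonneg_left b d2
    have a5 := mul_le_mul_of_nonneg_left a (mul_nonneg hγ.le dk)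
    have a6 : 0 ≤ κ * (δ * k) := mul_nonneg hκ.le dk
    linarith
  · obtain ⟨X, X0, hX, Xn, s1, sup, -, hup⟩ := H τ (habs (by linarith) (by linarith))
    have τ0 : τ ≤ 0 := le_of_mul_le_mul_right (by linarith) hM
    refine design_up2 T X X0 hX N hv s1 s2 s3 sup hmu s hN m R (by rw [Xn]; linarith) len
      fun j hj => ?_
    have a1 := mul_le_mul_of_nonneg_left (hup τ0 _ (hx0 j) (hx1 j hj)) hM.le
    have a2 := hlen j hj
    have a3 : ((m : ℝ) + 1 / 2) * (δ * k + δ ^ 2 * (W - τ - (j + 1 / 2) / (m + 1 / 2)) +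
        γ * τ * (δ * k)) = (m + 1 / 2) * (δ * k) + δ ^ 2 * (W * (m + 1 / 2) - (j + 1 / 2)) -
        δ ^ 2 * (W * (m + 1 / 2) - R) + γ * (δ * k) * (W * (m + 1 / 2) - R) := by
      linear_combination (γ * (δ * k) - δ ^ 2) * hτ - δ ^ 2 * hx j
    have a4 := mul_le_mul_of_nonneg_left b d2
    have a5 := mul_le_mul_of_nonneg_left a (mul_nonneg hγ.le dk)
    linarith

end Pool.Agent.P.MP_8707bd_ag.Ex
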